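import Pool.Agent.H36.LZ.Plane
import Pool.Agent.H15.SK.Loc

/-!
# Exponential integrability of plurisubharmonic functions with small oscillation
-/

set_option autoImplicit false

open Set Filter Topology Metric MeasureTheory
open scoped Manifold NNReal ENNReal

namespace Pool.Agent.H36.LZ

open Pool.Agent.H51.LZ H93.PR Pool.Agent.H15.SK

theorem tail_open {w : ℂ → EReal} (hw : Sub1 w) (h0 : ((-1 : ℝ) : EReal) ≤ w 0) {t : ℝ}
    (ht : 0 < t) : IsOpen {z : ℂ | z ∈ ball (0 : ℂ) (1 / 4) ∧ w z < ((-t : ℝ) : EReal)} ∧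
      volume {z : ℂ | z ∈ ball (0 : ℂ) (1 / 4) ∧ w z < ((-t : ℝ) : EReal)} ≤
        ENNReal.ofReal (Real.exp (6 - 2 * t)) := by
  have hO : IsOpen {z : ℂ | z ∈ ball (0 : ℂ) (1 / 4) ∧ w z < ((-t : ℝ) : EReal)} := by
    rw [isOpen_iff_mem_nhds]
    intro z hz
    have hz1 : ball (0 : ℂ) (1 / 4) ⊆ closedBall 0 1 :=
      ball_subset_closedBall.trans (closedBall_subset_closedBall (by norm_num))
    have h1 := hw.usc z (hz1 hz.1) _ hz.2
    rw [nhdsWithin_eq_nhds.2 (mem_of_superset (isOpen_ball.mem_nhds hz.1) hz1)] at h1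
    filter_upwards [isOpen_ball.mem_nhds hz.1, h1] with y hy1 hy2
    exact ⟨hy1, hy2⟩
  refine ⟨hO, ?_⟩
  rw [hO.measure_eq_iSup_isCompact]
  refine iSup_le fun S => iSup_le fun hS1 => iSup_le fun hS => ?_
  exact plane_tail hw h0 ht hS (fun z hz => ball_subset_closedBall (hS1 hz).1)
    (fun z hz => (hS1 hz).2)

/-- pointwise bound of the exponential function -/
theorem exp_le_tsum {x : EReal} (hx : x ≤ 0) :
    EReal.exp (-x) ≤ ENNReal.ofReal (Real.exp 1) +
      ∑' k : ℕ, ENNReal.ofReal (Real.exp (k + 2)) *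
        (if x < ((-((k : ℝ) + 1) : ℝ) : EReal) then 1 else 0) := by
  induction x using EReal.rec with
  | bot =>
    have h1 : ∑' k : ℕ, ENNReal.ofReal (Real.exp (k + 2)) *
        (if (⊥ : EReal) < ((-((k : ℝ) + 1) : ℝ) : EReal) then 1 else 0) = ⊤ := by
      rw [eq_top_iff]
      have h2 : ∑' _k : ℕ, (1 : ℝ≥0∞) = ⊤ := ENNReal.tsum_const_eq_top_of_ne_zero one_ne_zero
      rw [← h2]
      refine ENNReal.tsum_le_tsum fun k => ?_
      rw [if_pos (EReal.bot_lt_coe _), mul_one, ← ENNReal.ofReal_one]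
      exact ENNReal.ofReal_le_ofReal (Real.one_le_exp (by positivity))
    rw [h1]
    simp
  | top => exact absurd hx (by simp)
  | coe y =>
    have hy : y ≤ 0 := by exact_mod_cast hx
    rw [← EReal.coe_neg, EReal.exp_coe]
    by_cases h1 : -1 ≤ y
    · refine le_trans (ENNReal.ofReal_le_ofReal (Real.exp_le_exp.2 (by linarith))) le_self_add
    · push Not at h1
      obtain ⟨k, hk1, hk2⟩ : ∃ k : ℕ, (k : ℝ) + 1 < -y ∧ -y ≤ k + 2 := by
        have h2 : 1 < -y := by linarith
        have h3 : 1 < ⌈-y⌉₊ := by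
          rw [Nat.lt_ceil]
          exact_mod_cast h2
        obtain ⟨k, hk⟩ : ∃ k : ℕ, ⌈-y⌉₊ = k + 2 := ⟨⌈-y⌉₊ - 2, by omega⟩
        refine ⟨k, ?_, ?_⟩
        · have h4 : k + 1 < ⌈-y⌉₊ := by omega
          rw [Nat.lt_ceil] at h4
          exact_mod_cast h4
        · have h4 := Nat.le_ceil (-y)
          rw [hk] at h4
          exact_mod_cast h4
      refine le_trans ?_ le_add_self
      refine le_trans ?_ (ENNReal.le_tsum k)
      have h5 : ((y : ℝ) : EReal) < ((-((k : ℝ) + 1) : ℝ) : EReal) := by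
        exact_mod_cast (by linarith : y < -((k : ℝ) + 1))
      rw [if_pos h5, mul_one]
      exact ENNReal.ofReal_le_ofReal (Real.exp_le_exp.2 hk2)

/-- the constant -/
noncomputable def KK : ℝ≥0∞ := ENNReal.ofReal (Real.exp 1) * volume (ball (0 : ℂ) (1 / 4)) +
  ∑' k : ℕ, ENNReal.ofReal (Real.exp (k + 2)) * ENNReal.ofReal (Real.exp (6 - 2 * (k + 1)))

theorem KK_lt : KK < ⊤ := by
  refine ENNReal.add_lt_top.2 ⟨ENNReal.mul_lt_top ENNReal.ofReal_lt_top measure_ball_lt_top, ?_⟩
  have h1 : ∀ k : ℕ, ENNReal.ofReal (Real.exp (k + 2)) *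
      ENNReal.ofReal (Real.exp (6 - 2 * (k + 1))) =
      ENNReal.ofReal (Real.exp 6) * (ENNReal.ofReal (Real.exp (-1))) ^ k := by
    intro k
    rw [← ENNReal.ofReal_mul (Real.exp_pos _).le, ← Real.exp_add,
      ← ENNReal.ofReal_pow (Real.exp_pos _).le, ← Real.exp_nat_mul,
      ← ENNReal.ofReal_mul (Real.exp_pos _).le, ← Real.exp_add]
    congr 2
    ring
  rw [tsum_congr h1, ENNReal.tsum_mul_left, ENNReal.tsum_geometric]
  refine ENNReal.mul_lt_top ENNReal.ofReal_lt_top ?_
  rw [ENNReal.inv_lt_top, tsub_pos_iff_lt, ← ENNReal.ofReal_one]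
  exact (ENNReal.ofReal_lt_ofReal_iff one_pos).2 (by
    rw [Real.exp_lt_one_iff]
    norm_num)

/-- exponential integrability in the plane -/
theorem plane_exp {w : ℂ → EReal} (hw : Sub1 w) (h0 : ((-1 : ℝ) : EReal) ≤ w 0) :
    ∫⁻ z in ball (0 : ℂ) (1 / 4), EReal.exp (-(w z)) ≤ KK := by
  classical
  have hsub : ball (0 : ℂ) (1 / 4) ⊆ closedBall 0 1 :=
    ball_subset_closedBall.trans (closedBall_subset_closedBall (by norm_num))
  have ht : ∀ k : ℕ, (0 : ℝ) < (k : ℝ) + 1 := fun k => by positivity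
  calc ∫⁻ z in ball (0 : ℂ) (1 / 4), EReal.exp (-(w z))
      ≤ ∫⁻ z in ball (0 : ℂ) (1 / 4), (ENNReal.ofReal (Real.exp 1) +
        ∑' k : ℕ, ENNReal.ofReal (Real.exp (k + 2)) *
          ({z : ℂ | z ∈ ball (0 : ℂ) (1 / 4) ∧ w z < ((-((k : ℝ) + 1) : ℝ) : EReal)}.indicator
            (fun _ => (1 : ℝ≥0∞)) z)) := by
        refine setLIntegral_mono' measurableSet_ball fun z hz => ?_
        refine (exp_le_tsum (hw.le z (hsub hz))).trans (le_of_eq ?_)
        congr 1
        refine tsum_congr fun k => ?_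
        congr 1
        by_cases h : w z < ((-((k : ℝ) + 1) : ℝ) : EReal)
        · rw [if_pos h, indicator_of_mem (show z ∈ {z : ℂ | z ∈ ball (0 : ℂ) (1 / 4) ∧
            w z < ((-((k : ℝ) + 1) : ℝ) : EReal)} from ⟨hz, h⟩)]
        · rw [if_neg h, indicator_of_notMem (fun h' => h h'.2)]
    _ = ENNReal.ofReal (Real.exp 1) * volume (ball (0 : ℂ) (1 / 4)) +
        ∑' k : ℕ, ENNReal.ofReal (Real.exp (k + 2)) *
          volume.restrict (ball (0 : ℂ) (1 / 4))
            {z : ℂ | z ∈ ball (0 : ℂ) (1 / 4) ∧ w z < ((-((k : ℝ) + 1) : ℝ) : EReal)} := by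
        rw [lintegral_add_left measurable_const, setLIntegral_const, lintegral_tsum]
        · congr 1
          refine tsum_congr fun k => ?_
          rw [lintegral_const_mul _ (measurable_const.indicator (tail_open hw h0 (ht k)).1.measurableSet),
            lintegral_indicator (tail_open hw h0 (ht k)).1.measurableSet, lintegral_const,
            Measure.restrict_apply_univ, one_mul]
        · intro k
          exact ((measurable_const.indicator (tail_open hw h0 (ht k)).1.measurableSet).const_mul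
            _).aemeasurable
    _ ≤ KK := by
        refine add_le_add le_rfl (ENNReal.tsum_le_tsum fun k => ?_)
        refine mul_le_mul_right ((Measure.restrict_apply_le _ _).trans (tail_open hw h0 (ht k)).2) _


variable {n : ℕ}

/-- the restriction of a plurisubharmonic function to a complex line -/
theorem sub1_line {f : Cn n → EReal} {Ω : Set (Cn n)} (hf : LP Ω f) (hle : ∀ z ∈ Ω, f z ≤ 0)
    {p d : Cn n} (hd : ∀ z : ℂ, ‖z‖ ≤ 1 → p + z • d ∈ Ω) : Sub1 (fun z => f (p + z • d)) := by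
  have hmap : MapsTo (fun z : ℂ => p + z • d) (closedBall 0 1) Ω := fun z hz =>
    hd z (by simpa using hz)
  refine ⟨hf.usc.comp (by fun_prop) hmap, fun z hz => hle _ (hmap hz), ?_⟩
  intro z r hr hzr b hb hbd
  have h1 := hf.sub (p + z • d) ((r : ℂ) • d) (fun s hs => ?_) (fun s => b (z + r * s)) ?_ ?_
  · refine h1.trans (le_of_eq ?_)
    congr 1
    rw [Real.circleAverage_eq_circleAverage_zero_one (c := z)]
    refine Real.circleAverage_congr_sphere fun s _ => ?_
    rw [add_comm]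
  · have e1 : p + z • d + s • (r : ℂ) • d = p + (z + s * r) • d := by
      rw [add_smul, smul_smul, add_assoc]
    rw [e1]
    refine hd _ ?_
    calc ‖z + s * r‖ ≤ ‖z‖ + ‖s * r‖ := norm_add_le _ _
      _ = ‖z‖ + ‖s‖ * r := by
        rw [norm_mul, Complex.norm_real, Real.norm_eq_abs, abs_of_pos hr]
      _ ≤ ‖z‖ + r := by nlinarith
      _ ≤ 1 := hzr
  · refine hb.comp (by fun_prop) fun s hs => ?_
    rw [mem_sphere, dist_eq_norm, add_sub_cancel_left, norm_mul, Complex.norm_real,
      Real.norm_eq_abs, abs_of_pos hr, mem_sphere_zero_iff_norm.1 hs, mul_one]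
  · intro s hs
    have e1 : p + z • d + s • (r : ℂ) • d = p + (z + r * s) • d := by
      rw [add_smul, smul_smul, add_assoc, mul_comm s]
    rw [e1]
    refine hbd _ ?_
    rw [mem_sphere, dist_eq_norm, add_sub_cancel_left, norm_mul, Complex.norm_real,
      Real.norm_eq_abs, abs_of_pos hr, mem_sphere_zero_iff_norm.1 hs, mul_one]

/-- the exponential function of `- f`, measurable version -/
noncomputable def FF (f : Cn n → EReal) (B : Set (Cn n)) (y : Cn n) : ℝ≥0∞ := by
  classical
  exact EReal.exp (-(if y ∈ B then f y else ⊤))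

theorem measurable_FF {f : Cn n → EReal} {B Ω : Set (Cn n)} (hB : IsOpen B) (hBΩ : B ⊆ Ω)
    (hf : UpperSemicontinuousOn f Ω) : Measurable (FF f B) := by
  classical
  have h1 : Measurable (fun y => if y ∈ B then f y else ⊤) := by
    refine measurable_of_Iio fun c => ?_
    have h2 : (fun y => if y ∈ B then f y else ⊤) ⁻¹' Iio c = {y | y ∈ B ∧ f y < c} := by
      ext y
      simp only [mem_preimage, mem_Iio, mem_ofPred_eq]
      by_cases h : y ∈ B
      · simp [h]
      · simp [h]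
    rw [h2]
    refine IsOpen.measurableSet ?_
    rw [isOpen_iff_mem_nhds]
    intro z hz
    have h3 := hf z (hBΩ hz.1) c hz.2
    rw [nhdsWithin_eq_nhds.2 (mem_of_superset (hB.mem_nhds hz.1) hBΩ)] at h3
    filter_upwards [hB.mem_nhds hz.1, h3] with y hy1 hy2
    exact ⟨hy1, hy2⟩
  have h2 : Antitone fun x : EReal => EReal.exp (-x) := fun x y h =>
    EReal.exp_le_exp_iff.2 (EReal.neg_le_neg_iff.2 h)
  exact h2.measurable.comp h1

/-- the integral over a ball is bounded by the average over a dilated ball -/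
theorem dilate {F : Cn n → ℝ≥0∞} (hF : Measurable F) (p : Cn n) {ζ : ℂ} (hζ0 : ζ ≠ 0)
    (hζ1 : ‖ζ‖ ≤ 1) (R : ℝ) :
    ∫⁻ y in ball p (‖ζ‖ * R), F y ≤ ∫⁻ d in ball (0 : Cn n) R, F (p + ζ • d) := by
  set τ : ℝ := ‖ζ‖ with hτ
  have hτ0 : 0 < τ := norm_pos_iff.2 hζ0
  obtain ⟨s, hs, hζ⟩ : ∃ s : ℂ, ‖s‖ = 1 ∧ ζ = (τ : ℂ) * s := by
    refine ⟨ζ / τ, ?_, ?_⟩
    · rw [norm_div, Complex.norm_real, Real.norm_eq_abs, abs_of_pos hτ0, div_self hτ0.ne']
    · have : (τ : ℂ) ≠ 0 := by exact_mod_cast hτ0.ne'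
      field_simp
  -- rotation
  have h1 : ∫⁻ d in ball (0 : Cn n) R, F (p + ζ • d) = ∫⁻ d in ball (0 : Cn n) R, F (p + τ • d) := by
    have hs0 : s ≠ 0 := by rintro rfl; simp at hs
    have hem : MeasurableEmbedding (fun v : Cn n => s • v) :=
      (Homeomorph.smulOfNeZero s hs0).measurableEmbedding
    have h2 := (rot_preserving (n := n) hs).setLIntegral_comp_preimage_emb hem
      (fun d => F (p + τ • d)) (ball 0 R)
    have h3 : (fun v : Cn n => s • v) ⁻¹' ball 0 R = ball 0 R := by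
      ext v
      simp [norm_smul, hs]
    rw [h3] at h2
    rw [← h2]
    refine setLIntegral_congr_fun measurableSet_ball fun d _ => ?_
    rw [hζ, mul_smul]
    rfl
  -- scaling
  have hFm : Measurable fun y : Cn n => (ball (0 : Cn n) (τ * R)).indicator (fun y => F (p + y)) y :=
    (hF.comp (measurable_const_add p)).indicator measurableSet_ball
  have h2 : ∫⁻ d in ball (0 : Cn n) R, F (p + τ • d) =
      ∫⁻ y, (ball (0 : Cn n) (τ * R)).indicator (fun y => F (p + y)) y
        ∂((volume : Measure (Cn n)).map (fun d : Cn n => τ • d)) := by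
    rw [lintegral_map hFm (measurable_const_smul τ), ← lintegral_indicator measurableSet_ball]
    refine lintegral_congr fun d => ?_
    by_cases h : d ∈ ball (0 : Cn n) R
    · rw [indicator_of_mem h, indicator_of_mem]
      rw [mem_ball_zero_iff] at h ⊢
      rw [norm_smul, Real.norm_eq_abs, abs_of_pos hτ0]
      exact mul_lt_mul_of_pos_left h hτ0
    · rw [indicator_of_notMem h, indicator_of_notMem]
      rw [mem_ball_zero_iff] at h ⊢
      rw [norm_smul, Real.norm_eq_abs, abs_of_pos hτ0]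
      exact fun h' => h (lt_of_mul_lt_mul_left h' hτ0.le)
  have h3 : (volume : Measure (Cn n)) ≤ (volume : Measure (Cn n)).map (fun d : Cn n => τ • d) := by
    have h4 := Measure.map_addHaar_smul (volume : Measure (Cn n)) hτ0.ne'
    have h5 : (volume : Measure (Cn n)).map (fun d : Cn n => τ • d) =
        ENNReal.ofReal |(τ ^ Module.finrank ℝ (Cn n))⁻¹| • (volume : Measure (Cn n)) := h4
    rw [h5]
    refine Measure.le_iff.2 fun A _ => ?_
    rw [Measure.smul_apply, smul_eq_mul]
    refine le_mul_of_one_le_left zero_le ?_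
    rw [← ENNReal.ofReal_one]
    refine ENNReal.ofReal_le_ofReal ?_
    rw [abs_of_pos (by positivity)]
    exact (one_le_inv₀ (by positivity)).2 (pow_le_one₀ hτ0.le hζ1)
  rw [h1, h2]
  refine le_trans ?_ (lintegral_mono' h3 le_rfl)
  rw [lintegral_indicator measurableSet_ball]
  have h6 := (measurePreserving_add_left (volume : Measure (Cn n)) p).setLIntegral_comp_preimage_emb
    (measurableEmbedding_addLeft p) F (ball p (τ * R))
  have h7 : (fun w : Cn n => p + w) ⁻¹' ball p (τ * R) = ball 0 (τ * R) := by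
    ext w
    simp [dist_eq_norm]
  rw [h7] at h6
  exact h6.symm.le

/-- THE KERNEL -/
theorem kernel (n : ℕ) (f : Cn n → EReal) (a p : Cn n) (ρ : ℝ) (hρ : 0 < ρ)
    (hf : LP (closedBall a (16 * ρ)) f) (hle : ∀ z ∈ closedBall a (16 * ρ), f z ≤ 0)
    (hp : p ∈ closedBall a ρ) (hfp : ((-1 : ℝ) : EReal) ≤ f p) :
    ∫⁻ z in ball a ρ, EReal.exp (-(f z)) < ⊤ := by
  classical
  set R : ℝ := 15 * ρ with hR
  have hsub : ball p R ⊆ closedBall a (16 * ρ) := by
    intro y hy
    rw [mem_ball] at hy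
    rw [mem_closedBall] at hp ⊢
    calc dist y a ≤ dist y p + dist p a := dist_triangle _ _ _
      _ ≤ 16 * ρ := by rw [hR] at hy; linarith
  set F := FF f (ball p R) with hF
  have hFm : Measurable F := measurable_FF isOpen_ball hsub hf.usc
  have hFv : ∀ y ∈ ball p R, F y = EReal.exp (-(f y)) := fun y hy => by
    simp only [hF, FF]
    rw [if_pos hy]
  set A : Set ℂ := ball 0 (1 / 4) \ closedBall 0 (3 / 16) with hA
  have hAm : MeasurableSet A := measurableSet_ball.diff measurableSet_closedBall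
  have hApos : volume A ≠ 0 := by
    have hAo : IsOpen A := isOpen_ball.sdiff isClosed_closedBall
    refine (hAo.measure_pos volume ⟨(7 / 32 : ℝ), ?_, ?_⟩).ne'
    · rw [mem_ball_zero_iff, Complex.norm_real]
      norm_num
    · rw [mem_closedBall_zero_iff, Complex.norm_real]
      norm_num
  have hmeas : Measurable fun q : Cn n × ℂ => F (p + q.2 • q.1) :=
    hFm.comp (by fun_prop : Continuous fun q : Cn n × ℂ => p + q.2 • q.1).measurable
  -- upper bound
  have h1 : ∫⁻ d in ball (0 : Cn n) R, ∫⁻ ζ in ball (0 : ℂ) (1 / 4), F (p + ζ • d) ≤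
      ∫⁻ _d in ball (0 : Cn n) R, KK := by
    refine setLIntegral_mono' measurableSet_ball fun d hd => ?_
    rw [mem_ball_zero_iff] at hd
    have hline : ∀ z : ℂ, ‖z‖ ≤ 1 → p + z • d ∈ ball p R := by
      intro z hz
      rw [mem_ball, dist_eq_norm, add_sub_cancel_left, norm_smul]
      calc ‖z‖ * ‖d‖ ≤ 1 * ‖d‖ := mul_le_mul_of_nonneg_right hz (norm_nonneg _)
        _ < R := by linarith
    have hw := sub1_line (hf.mono hsub) (fun z hz => hle z (hsub hz)) hline
    have h2 := plane_exp hw (by simpa using hfp)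
    refine le_trans (le_of_eq ?_) h2
    refine setLIntegral_congr_fun measurableSet_ball fun z hz => ?_
    refine hFv _ (hline z ?_)
    rw [mem_ball_zero_iff] at hz
    linarith
  have h2 : ∫⁻ _d in ball (0 : Cn n) R, KK < ⊤ := by
    rw [setLIntegral_const]
    exact ENNReal.mul_lt_top KK_lt measure_ball_lt_top
  -- Tonelli
  have h3 : ∫⁻ d in ball (0 : Cn n) R, ∫⁻ ζ in ball (0 : ℂ) (1 / 4), F (p + ζ • d) =
      ∫⁻ ζ in ball (0 : ℂ) (1 / 4), ∫⁻ d in ball (0 : Cn n) R, F (p + ζ • d) :=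
    lintegral_lintegral_swap hmeas.aemeasurable
  -- lower bound
  have h4 : volume A * ∫⁻ y in ball a ρ, F y ≤
      ∫⁻ ζ in ball (0 : ℂ) (1 / 4), ∫⁻ d in ball (0 : Cn n) R, F (p + ζ • d) := by
    calc volume A * ∫⁻ y in ball a ρ, F y = ∫⁻ _ζ in A, ∫⁻ y in ball a ρ, F y := by
          rw [setLIntegral_const, mul_comm]
      _ ≤ ∫⁻ ζ in A, ∫⁻ d in ball (0 : Cn n) R, F (p + ζ • d) := by
          refine setLIntegral_mono' hAm fun ζ hζ => ?_
          obtain ⟨hζ1, hζ2⟩ := hζ
          rw [mem_ball_zero_iff] at hζ1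
          rw [mem_closedBall_zero_iff, not_le] at hζ2
          have hζ0 : ζ ≠ 0 := by
            rintro rfl
            rw [norm_zero] at hζ2
            linarith
          refine le_trans ?_ (dilate hFm p hζ0 (by linarith) R)
          refine lintegral_mono_set ?_
          intro y hy
          rw [mem_ball] at hy ⊢
          rw [mem_closedBall, dist_comm] at hp
          calc dist y p ≤ dist y a + dist a p := dist_triangle _ _ _
            _ < 2 * ρ := by linarith
            _ ≤ ‖ζ‖ * R := by rw [hR]; nlinarith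
      _ ≤ ∫⁻ ζ in ball (0 : ℂ) (1 / 4), ∫⁻ d in ball (0 : Cn n) R, F (p + ζ • d) :=
          lintegral_mono_set sdiff_subset
  have h5 : volume A * ∫⁻ y in ball a ρ, F y < ⊤ := by
    refine lt_of_le_of_lt h4 ?_
    rw [← h3]
    exact lt_of_le_of_lt h1 h2
  have h6 : ∫⁻ y in ball a ρ, F y < ⊤ := by
    by_contra hn
    rw [not_lt, top_le_iff] at hn
    rw [hn, ENNReal.mul_top hApos] at h5
    exact absurd h5 (lt_irrefl _)
  refine lt_of_le_of_lt (le_of_eq ?_) h6
  refine setLIntegral_congr_fun measurableSet_ball fun z hz => (hFv z ?_).symm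
  rw [mem_ball] at hz ⊢
  rw [mem_closedBall, dist_comm] at hp
  calc dist z p ≤ dist z a + dist a p := dist_triangle _ _ _
    _ < R := by rw [hR]; linarith

end Pool.Agent.H36.LZ
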