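import Pool.Agent.H51.LZ.Defs

/-!
# Measures which are bounded by a multiple of the Lebesgue measure in charts
-/

set_option autoImplicit false

open Set Filter Topology Metric MeasureTheory
open scoped Manifold NNReal ENNReal

namespace Pool.Agent.H36.LZ

open Pool.Agent.H51.LZ

/-- A probability measure which near every point is at most a multiple of the Lebesgue measure of
the coordinates. -/
def GoodMeasure (n : ℕ) {X : Type} [TopologicalSpace X] [ChartedSpace (Cn n) X]
    [MeasurableSpace X] (μ : Measure X) : Prop :=
  IsProbabilityMeasure μ ∧ ∀ x : X, ∃ O : Set X, IsOpen O ∧ x ∈ O ∧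
    O ⊆ (chartAt (Cn n) x).source ∧ ∃ C : ℝ≥0,
      (μ.restrict O).map (chartAt (Cn n) x) ≤ C • (volume : Measure (Cn n))

end Pool.Agent.H36.LZ
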