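import Pool.Agent.H36.LZ.Good
import Pool.Agent.H51.LZ.Ch

/-!
# The supremum of a continuous quasi-plurisubharmonic function is at most its mean plus a constant
-/

set_option autoImplicit false

open Set Filter Topology Metric MeasureTheory
open scoped Manifold NNReal ENNReal

namespace Pool.Agent.H36.LZ

open Pool.Agent.H51.LZ H93.PR

variable {n : ℕ}

/-- multiplication by a number of modulus one preserves the Lebesgue measure -/
theorem rot_preserving {s : ℂ} (hs : ‖s‖ = 1) :
    MeasurePreserving (fun v : Cn n => s • v) volume volume := by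
  have h1 : MeasurePreserving (fun z : ℂ => s * z) volume volume := by
    have h2 := (rotation ⟨s, by simpa [Submonoid.unitSphere] using hs⟩).measurePreserving
    exact h2
  exact volume_preserving_pi (fun _ : Fin n => h1)

theorem rot_integral' (g : Cn n → ℝ) {s : ℂ} (hs : ‖s‖ = 1) (ρ : ℝ) :
    ∫ w in ball (0 : Cn n) ρ, g (s • w) = ∫ w in ball (0 : Cn n) ρ, g w := by
  have hs0 : s ≠ 0 := by rintro rfl; simp at hs
  have hem : MeasurableEmbedding (fun v : Cn n => s • v) :=
    (Homeomorph.smulOfNeZero s hs0).measurableEmbedding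
  have h1 := (rot_preserving (n := n) hs).setIntegral_preimage_emb hem g (ball 0 ρ)
  have h2 : (fun v : Cn n => s • v) ⁻¹' ball 0 ρ = ball 0 ρ := by
    ext v
    simp [norm_smul, hs]
  rw [h2] at h1
  exact h1

/-- the sub-mean value inequality on balls for a continuous function with the sub-mean value
inequality on circles -/
theorem submean_ball_cont {v : Cn n → ℝ} (hv : Continuous v) {a : Cn n} {ρ : ℝ}
    (h : ∀ w ∈ ball (0 : Cn n) ρ, v a ≤ Real.circleAverage (fun z => v (a + z • w)) 0 1) :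
    (volume (ball (0 : Cn n) ρ)).toReal * v a ≤ ∫ w in ball a ρ, v w := by
  set B : Measure (Cn n) := volume.restrict (ball 0 ρ) with hB
  have : IsFiniteMeasure B := ⟨by rw [hB, Measure.restrict_apply_univ]; exact measure_ball_lt_top⟩
  have hI : Integrable (fun p : ℂ × Cn n => v (a + p.1 • p.2)) (σ.prod B) := by
    have hcont : Continuous fun p : ℂ × Cn n => v (a + p.1 • p.2) := by fun_prop
    obtain ⟨C, hC⟩ := ((isCompact_sphere (0 : ℂ) 1).prod (isCompact_closedBall (0 : Cn n) ρ)).exists_bound_of_continuousOn hcont.continuousOn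
    refine Integrable.of_bound hcont.aestronglyMeasurable C ?_
    have h1 : ∀ᵐ p ∂(σ.prod B), ‖p.1‖ = 1 := Measure.quasiMeasurePreserving_fst.ae ae_norm
    have h2 : ∀ᵐ p ∂(σ.prod B), p.2 ∈ ball (0 : Cn n) ρ :=
      Measure.quasiMeasurePreserving_snd.ae (ae_restrict_mem measurableSet_ball)
    filter_upwards [h1, h2] with p hp1 hp2
    exact hC p ⟨by simpa using hp1, ball_subset_closedBall hp2⟩
  have h1 : ∫ w in ball a ρ, v w = ∫ w, v (a + w) ∂B := by
    have h2 := (measurePreserving_add_left (volume : Measure (Cn n)) a).setIntegral_preimage_emb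
      (measurableEmbedding_addLeft a) v (ball a ρ)
    have h3 : (fun w : Cn n => a + w) ⁻¹' ball a ρ = ball 0 ρ := by
      ext w
      simp [dist_eq_norm]
    rw [h3] at h2
    exact h2.symm
  have h2 : ∫ w, v (a + w) ∂B = ∫ s, ∫ w, v (a + s • w) ∂B ∂σ := by
    have h3 : ∀ᵐ s ∂σ, ∫ w, v (a + s • w) ∂B = ∫ w, v (a + w) ∂B := by
      filter_upwards [ae_norm] with s hs
      exact rot_integral' (fun w => v (a + w)) hs ρ
    rw [integral_congr_ae h3]
    simp
  rw [h1, h2, integral_integral_swap hI]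
  have h4 : (volume (ball (0 : Cn n) ρ)).toReal * v a = ∫ _w, v a ∂B := by
    rw [integral_const, smul_eq_mul, hB, measureReal_restrict_apply_univ]
    rfl
  rw [h4]
  refine integral_mono_ae (integrable_const _) hI.integral_prod_right ?_
  filter_upwards [ae_restrict_mem measurableSet_ball] with w hw
  refine (h w hw).trans (le_of_eq ?_)
  exact av_eq (Continuous.aestronglyMeasurable (by fun_prop))

theorem submean_ball {v : Cn n → ℝ} {a : Cn n} {ρ : ℝ} (hρ : 0 < ρ)
    (hv : ContinuousOn v (closedBall a ρ))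
    (h : ∀ w ∈ ball (0 : Cn n) ρ, v a ≤ Real.circleAverage (fun z => v (a + z • w)) 0 1) :
    (volume (ball (0 : Cn n) ρ)).toReal * v a ≤ ∫ w in ball a ρ, v w := by
  obtain ⟨g, hg⟩ := ContinuousMap.exists_restrict_eq (isClosed_closedBall (x := a) (ε := ρ))
    ⟨(closedBall a ρ).domRestrict v, continuousOn_iff_continuous_domRestrict.1 hv⟩
  have hgv : ∀ x ∈ closedBall a ρ, g x = v x := fun x hx => DFunLike.congr_fun hg ⟨x, hx⟩
  have h1 := submean_ball_cont (v := g) g.continuous (a := a) (ρ := ρ) (fun w hw => ?_)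
  · rw [hgv a (mem_closedBall_self hρ.le)] at h1
    rwa [setIntegral_congr_fun measurableSet_ball
      (fun x hx => hgv x (ball_subset_closedBall hx))] at h1
  · rw [hgv a (mem_closedBall_self hρ.le)]
    refine (h w hw).trans (le_of_eq (Real.circleAverage_congr_sphere fun z hz => ?_))
    rw [hgv]
    rw [abs_one, mem_sphere_zero_iff_norm] at hz
    rw [mem_ball_zero_iff] at hw
    rw [mem_closedBall, dist_eq_norm, add_sub_cancel_left, norm_smul, hz, one_mul]
    exact hw.le


variable {X : Type} [TopologicalSpace X] [ChartedSpace (Cn n) X]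

/-- the admissible functions -/
def Adm (n : ℕ) {X : Type} [TopologicalSpace X] [ChartedSpace (Cn n) X] (V : X → Set X)
    (F : X → ℝ) : Prop :=
  Continuous F ∧ ∀ p, ∃ s : X → ℝ, ContinuousOn s (V p) ∧ (∀ x ∈ V p, |s x| ≤ 1) ∧
    Psh n (V p) (fun x => ((s x + F x : ℝ) : EReal))

/-- the local estimate -/
theorem local_est [IsManifold 𝓘(ℂ, Cn n) 1 X] {V : X → Set X} (hV : ∀ p, IsOpen (V p))
    (hp : ∀ p, p ∈ V p) (p : X) {O : Set X} (hO : IsOpen O) (hpO : p ∈ O) :
    ∃ R : ℝ, 0 < R ∧ closedBall (chartAt (Cn n) p p) R ⊆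
        (chartAt (Cn n) p).target ∩ (chartAt (Cn n) p).symm ⁻¹' (V p ∩ O) ∧
      ∀ F, Adm n V F → ∀ M : ℝ, (∀ y, F y ≤ M) → ∀ z ∈ (chartAt (Cn n) p).source,
        chartAt (Cn n) p z ∈ ball (chartAt (Cn n) p p) R →
        ∫ w in ball (chartAt (Cn n) p p) R, (M - F ((chartAt (Cn n) p).symm w)) ≤
          (volume (ball (0 : Cn n) (2 * R))).toReal * (M - F z + 2) := by
  set e := chartAt (Cn n) p with he
  have hps : p ∈ e.source := mem_chart_source (Cn n) p
  have hopen : IsOpen (e.target ∩ e.symm ⁻¹' (V p ∩ O)) :=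
    e.isOpen_inter_preimage_symm ((hV p).inter hO)
  have hmem : e p ∈ e.target ∩ e.symm ⁻¹' (V p ∩ O) := by
    refine ⟨e.map_source hps, ?_⟩
    rw [mem_preimage, e.left_inv hps]
    exact ⟨hp p, hpO⟩
  obtain ⟨ε, hε, hsub⟩ := Metric.isOpen_iff.1 hopen _ hmem
  obtain ⟨R, hR⟩ : ∃ R : ℝ, R = ε / 4 := ⟨_, rfl⟩
  have hR0 : 0 < R := by rw [hR]; linarith
  have h3 : closedBall (e p) (3 * R) ⊆ e.target ∩ e.symm ⁻¹' (V p ∩ O) :=
    (closedBall_subset_ball (by rw [hR]; linarith)).trans hsub
  refine ⟨R, hR0, (closedBall_subset_closedBall (by linarith)).trans h3, ?_⟩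
  intro F hF M hM z hz hzR
  obtain ⟨hFc, hFp⟩ := hF
  obtain ⟨s, hs, hs1, hpsh⟩ := hFp p
  have hz2 : closedBall (e z) (2 * R) ⊆ closedBall (e p) (3 * R) := by
    intro w hw
    rw [mem_closedBall] at hw ⊢
    rw [mem_ball] at hzR
    calc dist w (e p) ≤ dist w (e z) + dist (e z) (e p) := dist_triangle _ _ _
      _ ≤ 3 * R := by linarith
  have hz3 := hz2.trans h3
  -- continuity
  have hsymm : ContinuousOn e.symm (closedBall (e z) (2 * R)) :=
    e.continuousOn_symm.mono fun w hw => (hz3 hw).1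
  have hmapsV : MapsTo e.symm (closedBall (e z) (2 * R)) (V p) := fun w hw => (hz3 hw).2.1
  have hcs : ContinuousOn (fun w => s (e.symm w)) (closedBall (e z) (2 * R)) :=
    hs.comp hsymm hmapsV
  have hcF : ContinuousOn (fun w => F (e.symm w)) (closedBall (e z) (2 * R)) :=
    hFc.comp_continuousOn hsymm
  have hsub := submean_ball (v := fun w => s (e.symm w) + F (e.symm w)) (a := e z)
    (ρ := 2 * R) (by linarith) (hcs.add hcF) (fun w hw => ?_)
  · simp only [e.left_inv hz] at hsub
    have hi1 : IntegrableOn (fun w => s (e.symm w)) (ball (e z) (2 * R)) :=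
      (hcs.integrableOn_compact (isCompact_closedBall _ _)).mono_set ball_subset_closedBall
    have hi2 : IntegrableOn (fun w => F (e.symm w)) (ball (e z) (2 * R)) :=
      (hcF.integrableOn_compact (isCompact_closedBall _ _)).mono_set ball_subset_closedBall
    rw [integral_add hi1 hi2] at hsub
    have hic : ∀ c : ℝ, IntegrableOn (fun _ : Cn n => c) (ball (e z) (2 * R)) := fun c =>
      integrableOn_const measure_ball_lt_top.ne
    have hvol : (volume (ball (e z) (2 * R))).toReal = (volume (ball (0 : Cn n) (2 * R))).toReal := by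
      rw [Measure.addHaar_ball_center]
    have hconst : ∀ c : ℝ, ∫ _w in ball (e z) (2 * R), c =
        (volume (ball (0 : Cn n) (2 * R))).toReal * c := by
      intro c
      rw [setIntegral_const, smul_eq_mul, ← hvol]
      rfl
    have h4 : ∫ w in ball (e z) (2 * R), s (e.symm w) ≤
        (volume (ball (0 : Cn n) (2 * R))).toReal * 1 := by
      rw [← hconst 1]
      refine setIntegral_mono_on hi1 (hic 1) measurableSet_ball fun w hw => ?_
      exact (le_abs_self _).trans (hs1 _ (hmapsV (ball_subset_closedBall hw)))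
    have h5 : ∫ w in ball (e p) R, (M - F (e.symm w)) ≤
        ∫ w in ball (e z) (2 * R), (M - F (e.symm w)) := by
      refine setIntegral_mono_set ((hic M).sub hi2) ?_ ?_
      · exact Eventually.of_forall fun w => sub_nonneg.2 (hM _)
      · refine LE.le.eventuallyLE ?_
        intro w hw
        rw [mem_ball] at hw hzR ⊢
        rw [dist_comm] at hzR
        calc dist w (e z) ≤ dist w (e p) + dist (e p) (e z) := dist_triangle _ _ _
          _ < 2 * R := by linarith
    rw [integral_sub (hic M) hi2, hconst] at h5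
    have h6 := (abs_le.1 (hs1 z (by have := hmapsV (mem_closedBall_self (by linarith : (0:ℝ) ≤ 2 * R)); rwa [e.left_inv hz] at this))).1
    have h7 : 0 ≤ (volume (ball (0 : Cn n) (2 * R))).toReal := ENNReal.toReal_nonneg
    nlinarith
  · have hmap : ∀ ζ : ℂ, ‖ζ‖ ≤ 1 → e z + ζ • w ∈ closedBall (e z) (2 * R) := by
      intro ζ hζ
      rw [mem_ball_zero_iff] at hw
      rw [mem_closedBall, dist_eq_norm, add_sub_cancel_left, norm_smul]
      calc ‖ζ‖ * ‖w‖ ≤ 1 * ‖w‖ := mul_le_mul_of_nonneg_right hζ (norm_nonneg _)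
        _ ≤ 2 * R := by linarith
    have hd : IsDisc n (V p) (fun ζ : ℂ => e.symm (e z + ζ • w)) :=
      isDisc_affine (chart_mem_atlas (Cn n) p) (e z) w fun ζ hζ => ⟨(hz3 (hmap ζ hζ)).1,
        hmapsV (hmap ζ hζ)⟩
    have h4 := Psh.le_average hpsh (hs.add hFc.continuousOn) hd
    simp only [zero_smul, add_zero] at h4
    exact h4


/-- the ball of radius `R` in the chart at `p` -/
def PB (n : ℕ) {X : Type} [TopologicalSpace X] [ChartedSpace (Cn n) X] (p : X) (R : ℝ) : Set X :=
  (chartAt (Cn n) p).source ∩ chartAt (Cn n) p ⁻¹' ball (chartAt (Cn n) p p) R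

theorem isOpen_PB (p : X) (R : ℝ) : IsOpen (PB n p R) :=
  (chartAt (Cn n) p).isOpen_inter_preimage isOpen_ball

theorem mem_PB (p : X) {R : ℝ} (hR : 0 < R) : p ∈ PB n p R :=
  ⟨mem_chart_source (Cn n) p, mem_ball_self hR⟩

/-- from a small value in one ball to a small value in an overlapping ball -/
theorem overlap {V : X → Set X} {p : X} {R : ℝ} {O : Set X}
    (hsub : closedBall (chartAt (Cn n) p p) R ⊆
        (chartAt (Cn n) p).target ∩ (chartAt (Cn n) p).symm ⁻¹' (V p ∩ O))
    (hest : ∀ F, Adm n V F → ∀ M : ℝ, (∀ y, F y ≤ M) → ∀ z ∈ (chartAt (Cn n) p).source,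
        chartAt (Cn n) p z ∈ ball (chartAt (Cn n) p p) R →
        ∫ w in ball (chartAt (Cn n) p p) R, (M - F ((chartAt (Cn n) p).symm w)) ≤
          (volume (ball (0 : Cn n) (2 * R))).toReal * (M - F z + 2))
    {Q : Set X} (hQ : IsOpen Q) (hne : (PB n p R ∩ Q).Nonempty) (A : ℝ) :
    ∃ A' : ℝ, ∀ F, Adm n V F → ∀ M : ℝ, (∀ y, F y ≤ M) → (∃ z ∈ PB n p R, M - F z ≤ A) →
      ∃ z ∈ Q, M - F z ≤ A' := by
  set e := chartAt (Cn n) p with he
  set S : Set (Cn n) := ball (e p) R ∩ (e.target ∩ e.symm ⁻¹' Q) with hS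
  have hSo : IsOpen S := isOpen_ball.inter (e.isOpen_inter_preimage_symm hQ)
  have hSne : S.Nonempty := by
    obtain ⟨y, ⟨hy1, hy2⟩, hyQ⟩ := hne
    refine ⟨e y, hy2, e.map_source hy1, ?_⟩
    rw [mem_preimage, e.left_inv hy1]
    exact hyQ
  have hSpos : 0 < volume S := hSo.measure_pos volume hSne
  have hSfin : volume S ≠ ⊤ := (lt_of_le_of_lt (measure_mono inter_subset_left)
    measure_ball_lt_top).ne
  refine ⟨(volume S).toReal⁻¹ * ((volume (ball (0 : Cn n) (2 * R))).toReal * (A + 2)), ?_⟩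
  intro F hF M hM hz
  obtain ⟨z, hzP, hzA⟩ := hz
  have h1 := hest F hF M hM z hzP.1 hzP.2
  have hcF : ContinuousOn (fun w => M - F (e.symm w)) (closedBall (e p) R) :=
    continuousOn_const.sub (hF.1.comp_continuousOn (e.continuousOn_symm.mono fun w hw =>
      (hsub hw).1))
  have hiB : IntegrableOn (fun w => M - F (e.symm w)) (ball (e p) R) :=
    (hcF.integrableOn_compact (isCompact_closedBall _ _)).mono_set ball_subset_closedBall
  have hiS : IntegrableOn (fun w => M - F (e.symm w)) S := hiB.mono_set inter_subset_left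
  obtain ⟨w, hw, hwle⟩ := exists_le_setAverage hSpos.ne' hSfin hiS
  refine ⟨e.symm w, hw.2.2, hwle.trans ?_⟩
  rw [setAverage_eq, smul_eq_mul]
  refine mul_le_mul_of_nonneg_left ?_ (inv_nonneg.2 ENNReal.toReal_nonneg)
  have h2 : ∫ w in S, (M - F (e.symm w)) ≤ ∫ w in ball (e p) R, (M - F (e.symm w)) :=
    setIntegral_mono_set hiB (Eventually.of_forall fun w => sub_nonneg.2 (hM _))
      (LE.le.eventuallyLE inter_subset_left)
  refine h2.trans (h1.trans (mul_le_mul_of_nonneg_left (by linarith) ENNReal.toReal_nonneg))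

/-- the measure of a ball -/
theorem lintegral_PB [MeasurableSpace X] [BorelSpace X] {μ : Measure X} {p : X} {R : ℝ}
    {O : Set X} (hO : IsOpen O) (hOs : O ⊆ (chartAt (Cn n) p).source) {C : ℝ≥0}
    (hC : (μ.restrict O).map (chartAt (Cn n) p) ≤ C • (volume : Measure (Cn n)))
    {V : X → Set X} (hsub : closedBall (chartAt (Cn n) p p) R ⊆
        (chartAt (Cn n) p).target ∩ (chartAt (Cn n) p).symm ⁻¹' (V p ∩ O))
    {D : X → ℝ} (hD : Continuous D) (hD0 : ∀ y, 0 ≤ D y) :
    ∫⁻ y in PB n p R, ENNReal.ofReal (D y) ∂μ ≤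
      C * ENNReal.ofReal (∫ w in ball (chartAt (Cn n) p p) R, D ((chartAt (Cn n) p).symm w)) := by
  set e := chartAt (Cn n) p with he
  have hcD : ContinuousOn (fun w => D (e.symm w)) (closedBall (e p) R) :=
    hD.comp_continuousOn (e.continuousOn_symm.mono fun w hw => (hsub hw).1)
  obtain ⟨g, hg⟩ := ContinuousMap.exists_restrict_eq (isClosed_closedBall (x := e p) (ε := R))
    ⟨(closedBall (e p) R).domRestrict (fun w => D (e.symm w)),
      continuousOn_iff_continuous_domRestrict.1 hcD⟩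
  have hgv : ∀ x ∈ closedBall (e p) R, g x = D (e.symm x) := fun x hx => DFunLike.congr_fun hg ⟨x, hx⟩
  have hPO : PB n p R ⊆ O := by
    intro y hy
    have h1 := (hsub (ball_subset_closedBall hy.2)).2.2
    rwa [e.left_inv hy.1] at h1
  have heO : AEMeasurable e (μ.restrict O) :=
    (e.continuousOn.mono hOs).aemeasurable hO.measurableSet
  have hgm : Measurable fun w => (ball (e p) R).indicator (fun w => ENNReal.ofReal (g w)) w :=
    (g.continuous.measurable.ennreal_ofReal).indicator measurableSet_ball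
  calc ∫⁻ y in PB n p R, ENNReal.ofReal (D y) ∂μ
      = ∫⁻ y in O, (ball (e p) R).indicator (fun w => ENNReal.ofReal (g w)) (e y) ∂μ := by
        have h1 : ∀ y ∈ O, (ball (e p) R).indicator (fun w => ENNReal.ofReal (g w)) (e y) =
            (PB n p R).indicator (fun y => ENNReal.ofReal (D y)) y := by
          intro y hy
          have hys := hOs hy
          by_cases h : e y ∈ ball (e p) R
          · rw [indicator_of_mem h, indicator_of_mem (show y ∈ PB n p R from ⟨hys, h⟩),
              hgv _ (ball_subset_closedBall h), e.left_inv hys]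
          · rw [indicator_of_notMem h, indicator_of_notMem (fun h' => h h'.2)]
        rw [setLIntegral_congr_fun hO.measurableSet h1,
          lintegral_indicator (isOpen_PB p R).measurableSet,
          Measure.restrict_restrict (isOpen_PB p R).measurableSet, inter_eq_left.2 hPO]
    _ = ∫⁻ w, (ball (e p) R).indicator (fun w => ENNReal.ofReal (g w)) w
          ∂((μ.restrict O).map e) := (lintegral_map' hgm.aemeasurable heO).symm
    _ ≤ ∫⁻ w, (ball (e p) R).indicator (fun w => ENNReal.ofReal (g w)) w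
          ∂(C • (volume : Measure (Cn n))) := lintegral_mono' hC le_rfl
    _ = C * ∫⁻ w in ball (e p) R, ENNReal.ofReal (g w) := by
        rw [lintegral_smul_measure, lintegral_indicator measurableSet_ball]
        rfl
    _ = C * ENNReal.ofReal (∫ w in ball (e p) R, D (e.symm w)) := by
        congr 1
        rw [ofReal_integral_eq_lintegral_ofReal]
        · refine setLIntegral_congr_fun measurableSet_ball fun w hw => ?_
          simp only [hgv w (ball_subset_closedBall hw)]
        · exact (hcD.integrableOn_compact (isCompact_closedBall _ _)).mono_set ball_subset_closedBall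
        · exact Eventually.of_forall fun w => hD0 _


omit [TopologicalSpace X] in
theorem lintegral_biUnion_le' [MeasurableSpace X] {μ : Measure X} (t : Finset X) (s : X → Set X)
    (f : X → ℝ≥0∞) : ∫⁻ y in ⋃ p ∈ t, s p, f y ∂μ ≤ ∑ p ∈ t, ∫⁻ y in s p, f y ∂μ := by
  classical
  induction t using Finset.induction_on with
  | empty => simp
  | insert a t hat ih =>
    rw [Finset.set_biUnion_insert, Finset.sum_insert hat]
    exact (lintegral_union_le _ _ _).trans (add_le_add le_rfl ih)

/-- THE SUPREMUM IS AT MOST THE MEAN VALUE PLUS A CONSTANT, for continuous quasi-plurisubharmonic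
functions. -/
theorem sup_le_mean [CompactSpace X] [ConnectedSpace X] [IsManifold 𝓘(ℂ, Cn n) 1 X]
    [MeasurableSpace X] [BorelSpace X] {μ : Measure X} (hμ : GoodMeasure n μ) {V : X → Set X}
    (hV : ∀ p, IsOpen (V p)) (hp : ∀ p, p ∈ V p) :
    ∃ C : ℝ, ∀ F : X → ℝ, Continuous F →
      (∀ p, ∃ s : X → ℝ, ContinuousOn s (V p) ∧ (∀ x ∈ V p, |s x| ≤ 1) ∧
        Psh n (V p) (fun x => ((s x + F x : ℝ) : EReal))) →
      ∀ x, F x ≤ (∫ y, F y ∂μ) + C := by
  classical
  obtain ⟨hprob, hloc⟩ := hμ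
  choose O hO hpO hOs K hK using hloc
  choose R hR hsub hest using fun p => local_est (n := n) hV hp p (hO p) (hpO p)
  -- the chain
  have hrel : ∀ p q : X, ∀ A : ℝ, ∃ A' : ℝ, ∀ F, Adm n V F → ∀ M : ℝ, (∀ y, F y ≤ M) →
      (∃ z ∈ PB n p (R p), M - F z ≤ A) → ∃ z ∈ PB n q (R q), M - F z ≤ A' := by
    refine PreconnectedSpace.induction₂' (fun p q : X => ∀ A : ℝ, ∃ A' : ℝ, ∀ F, Adm n V F →
      ∀ M : ℝ, (∀ y, F y ≤ M) → (∃ z ∈ PB n p (R p), M - F z ≤ A) →
        ∃ z ∈ PB n q (R q), M - F z ≤ A') ?_ ?_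
    · intro p
      filter_upwards [(isOpen_PB (n := n) p (R p)).mem_nhds (mem_PB p (hR p))] with q hq
      refine ⟨fun A => overlap (hsub p) (hest p) (isOpen_PB (n := n) q (R q))
        ⟨q, hq, mem_PB q (hR q)⟩ A, fun A => overlap (hsub q) (hest q)
        (isOpen_PB (n := n) p (R p)) ⟨q, mem_PB q (hR q), hq⟩ A⟩
    · refine ⟨fun p q r h1 h2 A => ?_⟩
      obtain ⟨A', hA'⟩ := h1 A
      obtain ⟨A'', hA''⟩ := h2 A'
      exact ⟨A'', fun F hF M hM hz => hA'' F hF M hM (hA' F hF M hM hz)⟩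
  obtain ⟨t, ht⟩ := CompactSpace.elim_nhds_subcover (fun p => PB n p (R p))
    (fun p => (isOpen_PB (n := n) p (R p)).mem_nhds (mem_PB p (hR p)))
  choose A hA using fun p q => hrel p q 0
  set L : ℝ := ∑ p ∈ t, ∑ q ∈ t, |A p q| with hL
  set B : X → ℝ := fun q => (K q : ℝ) * ((volume (ball (0 : Cn n) (2 * R q))).toReal * (L + 2))
    with hB
  have hL0 : 0 ≤ L := Finset.sum_nonneg fun p _ => Finset.sum_nonneg fun q _ => abs_nonneg _
  have hAL : ∀ p ∈ t, ∀ q ∈ t, A p q ≤ L := by
    intro p hpt q hqt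
    refine (le_abs_self _).trans ?_
    refine (Finset.single_le_sum (f := fun q => |A p q|) (fun q _ => abs_nonneg _) hqt).trans ?_
    exact Finset.single_le_sum (f := fun p => ∑ q ∈ t, |A p q|)
      (fun p _ => Finset.sum_nonneg fun q _ => abs_nonneg _) hpt
  have hB0 : ∀ q, 0 ≤ B q := fun q => by
    have : 0 ≤ (volume (ball (0 : Cn n) (2 * R q))).toReal := ENNReal.toReal_nonneg
    simp only [hB]
    positivity
  refine ⟨∑ q ∈ t, B q, fun F hFc hFp x => ?_⟩
  have hF : Adm n V F := ⟨hFc, hFp⟩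
  obtain ⟨x₁, -, hx₁⟩ := isCompact_univ.exists_isMaxOn univ_nonempty hFc.continuousOn
  have hM : ∀ y, F y ≤ F x₁ := fun y => hx₁ (mem_univ y)
  have hcov : ∀ y : X, ∃ p ∈ t, y ∈ PB n p (R p) := by
    intro y
    have : y ∈ ⋃ p ∈ t, PB n p (R p) := by rw [ht]; trivial
    simpa using this
  obtain ⟨p₁, hp₁, hx₁p⟩ := hcov x₁
  -- the integral over each ball
  have hint : ∀ q ∈ t, ∫⁻ y in PB n q (R q), ENNReal.ofReal (F x₁ - F y) ∂μ ≤
      ENNReal.ofReal (B q) := by
    intro q hq
    obtain ⟨z, hz, hzA⟩ := hA p₁ q F hF (F x₁) hM ⟨x₁, hx₁p, by simp⟩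
    have h1 := hest q F hF (F x₁) hM z hz.1 hz.2
    have h2 := lintegral_PB (D := fun y => F x₁ - F y) (hO q) (hOs q) (hK q) (hsub q)
      (by fun_prop) (fun y => sub_nonneg.2 (hM y))
    refine h2.trans ?_
    have h3 : ENNReal.ofReal (B q) = (K q : ℝ≥0∞) *
        ENNReal.ofReal ((volume (ball (0 : Cn n) (2 * R q))).toReal * (L + 2)) := by
      simp only [hB]
      rw [ENNReal.ofReal_mul (NNReal.coe_nonneg _), ENNReal.ofReal_coe_nnreal]
    rw [h3]
    refine mul_le_mul_right (ENNReal.ofReal_le_ofReal (h1.trans ?_)) _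
    exact mul_le_mul_of_nonneg_left (by have := hAL p₁ hp₁ q hq; linarith) ENNReal.toReal_nonneg
  have htot : ∫⁻ y, ENNReal.ofReal (F x₁ - F y) ∂μ ≤ ENNReal.ofReal (∑ q ∈ t, B q) := by
    calc ∫⁻ y, ENNReal.ofReal (F x₁ - F y) ∂μ
        = ∫⁻ y in ⋃ p ∈ t, PB n p (R p), ENNReal.ofReal (F x₁ - F y) ∂μ := by
          rw [ht]
          exact (setLIntegral_univ _).symm
      _ ≤ ∑ q ∈ t, ∫⁻ y in PB n q (R q), ENNReal.ofReal (F x₁ - F y) ∂μ :=
          lintegral_biUnion_le' _ _ _
      _ ≤ ∑ q ∈ t, ENNReal.ofReal (B q) := Finset.sum_le_sum hint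
      _ = ENNReal.ofReal (∑ q ∈ t, B q) := (ENNReal.ofReal_sum_of_nonneg fun q _ => hB0 q).symm
  have hFi : Integrable F μ := hFc.integrable_of_hasCompactSupport (HasCompactSupport.of_compactSpace F)
  have h5 : ∫ y, (F x₁ - F y) ∂μ = F x₁ - ∫ y, F y ∂μ := by
    rw [integral_sub (integrable_const _) hFi]
    simp
  have h6 : ENNReal.ofReal (∫ y, (F x₁ - F y) ∂μ) ≤ ENNReal.ofReal (∑ q ∈ t, B q) := by
    have h7 := ofReal_integral_eq_lintegral_ofReal (μ := μ) (f := fun y => F x₁ - F y)
      ((integrable_const _).sub hFi) (Eventually.of_forall fun y => sub_nonneg.2 (hM y))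
    rw [h7]
    exact htot
  have h7 := (ENNReal.ofReal_le_ofReal_iff (Finset.sum_nonneg fun q _ => hB0 q)).1 h6
  rw [h5] at h7
  linarith [hM x]

end Pool.Agent.H36.LZ
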