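import Pool.Agent.H36.LZ.Min
import Pool.Agent.H51.LZ.Any

/-!
# The theorem for a potential with minimal singularities
-/

set_option autoImplicit false

open Set Filter Topology Metric MeasureTheory
open scoped Manifold NNReal ENNReal

namespace Pool.Agent.H36.LZ

open Pool.Agent.H51.LZ

variable {n : ℕ} {X : Type} [TopologicalSpace X] [ChartedSpace (Cn n) X]

theorem le_of_le_add {s M : ℝ} {t : EReal} (h : (s : EReal) ≤ t + (M : EReal)) :
    ((s - M : ℝ) : EReal) ≤ t := by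
  induction t using EReal.rec with
  | bot =>
    rw [EReal.bot_add, le_bot_iff] at h
    exact absurd h (EReal.coe_ne_bot s)
  | top => exact le_top
  | coe r =>
    rw [← EReal.coe_add, EReal.coe_le_coe_iff] at h
    exact_mod_cast (by linarith : s - M ≤ r)

theorem zeroLelong_mono {φ₀ φ : X → EReal} {M : ℝ} (h : ∀ x, φ₀ x ≤ φ x + (M : EReal)) {x : X}
    (h0 : ZeroLelongAt n φ₀ x) : ZeroLelongAt n φ x := by
  intro e he hx ε hε
  have h1 : Tendsto (fun r : ℝ => ε / 2 * Real.log r) (𝓝[>] 0) atBot :=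
    Tendsto.const_mul_atBot (half_pos hε) Real.tendsto_log_nhdsGT_zero
  filter_upwards [h0 e he hx (ε / 2) (half_pos hε), h1.eventually (eventually_le_atBot (-M))]
    with r hr hr2
  obtain ⟨y, hy, hyr, hle⟩ := hr
  refine ⟨y, hy, hyr, le_trans ?_ (le_of_le_add (hle.trans (h y)))⟩
  exact_mod_cast (by linarith : ε * Real.log r ≤ ε / 2 * Real.log r - M)

theorem neg_toENNReal_le {s t : EReal} {M : ℝ} (h : s ≤ t + (M : EReal)) :
    (-t).toENNReal ≤ (-s).toENNReal + ENNReal.ofReal M := by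
  induction s using EReal.rec with
  | bot => simp
  | top =>
    have : t = ⊤ := by
      induction t using EReal.rec with
      | bot => simp at h
      | top => rfl
      | coe r =>
        rw [← EReal.coe_add, top_le_iff] at h
        exact absurd h (EReal.coe_ne_top _)
    rw [this]
    simp
  | coe r =>
    have h1 := le_of_le_add h
    have h2 : -t ≤ ((-r + M : ℝ) : EReal) := by
      rw [EReal.neg_le]
      refine le_trans ?_ h1
      rw [← EReal.coe_neg]
      exact_mod_cast (by linarith : -(-r + M) ≤ r - M)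
    refine (EReal.toENNReal_le_toENNReal h2).trans ?_
    rw [EReal.toENNReal_of_ne_top (EReal.coe_ne_top _), EReal.toReal_coe, ← EReal.coe_neg,
      EReal.toENNReal_of_ne_top (EReal.coe_ne_top _), EReal.toReal_coe]
    exact ENNReal.ofReal_add_le

/-- THE THEOREM, for a potential with minimal singularities. -/
theorem main_min [T2Space X] [CompactSpace X] [ConnectedSpace X] [IsManifold 𝓘(ℂ, Cn n) 1 X]
    [MeasurableSpace X] [BorelSpace X] (hLEL : OrbitClosure n X) (hodd : OddCase n X)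
    (Ω : VolumeForm n X) (d : ℕ) (g : X ≃ₜ X)
    (hg : MDifferentiable 𝓘(ℂ, Cn n) 𝓘(ℂ, Cn n) g)
    (hg' : MDifferentiable 𝓘(ℂ, Cn n) 𝓘(ℂ, Cn n) g.symm) (T : Currents n X)
    (hpos : ∀ p, Psh n (T.V p) (fun x => (T.u 0 p x : EReal)))
    (a : ℕ → X → ℝ) (ha : ∀ j, Continuous (a j))
    (hrel : ∀ j < d, ∀ p q, Pluriharmonic n (T.V p ∩ g ⁻¹' T.V q)
      (fun x => T.u j q (g x) - T.u j p x - T.u (j + 1) p x - a j x))
    (hrel_top : ∀ p q, Pluriharmonic n (T.V p ∩ g ⁻¹' T.V q)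
      (fun x => T.u d q (g x) - T.u d p x - a d x)) :
    ∃ (φ : X → EReal) (c C : ℝ), 0 ≤ C ∧
      (∀ p, Psh n (T.V p) (fun x => (T.u d p x : EReal) + φ x)) ∧
      (∀ x, φ x = ((a d x - c : ℝ) : EReal) + φ (g x)) ∧
      (∀ ψ : X → EReal, (∀ p, Psh n (T.V p) (fun x => (T.u d p x : EReal) + ψ x)) →
        ∃ M : ℝ, ∀ x, ψ x ≤ φ x + (M : EReal)) ∧
      (∀ x, ZeroLelongAt n φ x) ∧
      (∀ K : Set X, IsClosed K → K.Nonempty → MapsTo g K K → ∃ x ∈ K, ((-C : ℝ) : EReal) ≤ φ x) ∧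
      ∀ ν : Measure X, IsProbabilityMeasure ν → MeasurePreserving g ν ν →
        ∫⁻ x, (-(φ x)).toENNReal ∂ν ≤ ENNReal.ofReal C := by
  obtain ⟨φ₀, c₀, C₀, h1, -, h3, h4, h5⟩ := main_any hLEL hodd Ω d g hg hg' T hpos a ha hrel hrel_top
  obtain ⟨μ, hμ, hgμ⟩ := Pool.Agent.H78.LZ.exists_invariant_measure Ω g hg
  have hprob : IsProbabilityMeasure μ := hμ.1
  set c : ℝ := ∫ x, a d x ∂μ with hc
  have hbc : Continuous fun x => a d x - c := (ha d).sub continuous_const
  have hb : ∫ x, (a d x - c) ∂μ = 0 := by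
    rw [integral_sub]
    · simp [hc]
    · exact (ha d).integrable_of_hasCompactSupport (HasCompactSupport.of_compactSpace _)
    · exact integrable_const _
  have hrel' : ∀ p q, Pluriharmonic n (T.V p ∩ g ⁻¹' T.V q)
      (fun x => T.u d q (g x) - T.u d p x - (a d x - c)) := fun p q =>
    ((hrel_top p q).add (Plur.const _ c)).congr fun x _ => by ring
  obtain ⟨φ, p1, p2, p3⟩ := exists_min hμ T d g hgμ hg hg' hbc hb hrel' h1
  obtain ⟨M, hM⟩ := p3 φ₀ h1
  have hM0 : ∀ x, φ₀ x ≤ φ x + ((max M 0 : ℝ) : EReal) := fun x =>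
    (hM x).trans (add_le_add le_rfl (by exact_mod_cast le_max_left M 0))
  refine ⟨φ, c, max C₀ 0 + max M 0, add_nonneg (le_max_right _ _) (le_max_right _ _), p1, p2, p3,
    fun x => zeroLelong_mono hM (h3 x), fun K hK hKne hKg => ?_, fun ν hν hgν => ?_⟩
  · obtain ⟨x, hx, hle⟩ := h4 K hK hKne hKg
    refine ⟨x, hx, le_trans ?_ (le_of_le_add (hle.trans (hM0 x)))⟩
    exact_mod_cast (by linarith [le_max_left C₀ 0] : -(max C₀ 0 + max M 0) ≤ -C₀ - max M 0)
  · calc ∫⁻ x, (-(φ x)).toENNReal ∂ν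
        ≤ ∫⁻ x, ((-(φ₀ x)).toENNReal + ENNReal.ofReal (max M 0)) ∂ν :=
          lintegral_mono fun x => neg_toENNReal_le (hM0 x)
      _ = ∫⁻ x, (-(φ₀ x)).toENNReal ∂ν + ENNReal.ofReal (max M 0) := by
          rw [lintegral_add_right _ measurable_const]
          simp
      _ ≤ ENNReal.ofReal (max C₀ 0) + ENNReal.ofReal (max M 0) :=
          add_le_add ((h5 ν hν hgν).trans (ENNReal.ofReal_le_ofReal (le_max_left _ _))) le_rfl
      _ = ENNReal.ofReal (max C₀ 0 + max M 0) :=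
          (ENNReal.ofReal_add (le_max_right _ _) (le_max_right _ _)).symm

end Pool.Agent.H36.LZ
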