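import Mathlib

/-!
# Cocycles with bounded weighted means grow at most logarithmically
-/

set_option autoImplicit false

open Finset

namespace Pool.Agent.H36.LZ

/-- the weighted mean value argument -/
theorem mean_step {k : ℕ} {w v : ℕ → ℝ} (hw : ∀ l, 0 ≤ w l) {A' c X M M' : ℝ} {T : Finset ℕ}
    (hT : T ⊆ range k) (hW : 0 < ∑ l ∈ range k, w l) (hMM : M ≤ M')
    (h1 : ∑ l ∈ range k, w l * v l ≤ A' * ∑ l ∈ range k, w l)
    (h2 : ∀ l ∈ range k, X - M' ≤ v l) (h3 : ∀ l ∈ T, X - M ≤ v l)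
    (h4 : c * ∑ l ∈ range k, w l ≤ ∑ l ∈ T, w l) :
    X ≤ A' + (1 - c) * M' + c * M := by
  have h5 : ∑ l ∈ T, w l * (X - M) + ∑ l ∈ range k \ T, w l * (X - M') ≤
      ∑ l ∈ range k, w l * v l := by
    rw [← sum_sdiff hT, add_comm]
    refine add_le_add (sum_le_sum fun l hl => ?_) (sum_le_sum fun l hl => ?_)
    · exact mul_le_mul_of_nonneg_left (h2 l (mem_sdiff.1 hl).1) (hw l)
    · exact mul_le_mul_of_nonneg_left (h3 l hl) (hw l)
  have h6 : ∑ l ∈ range k \ T, w l = ∑ l ∈ range k, w l - ∑ l ∈ T, w l := by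
    rw [← sum_sdiff hT]
    ring
  rw [← sum_mul, ← sum_mul, h6] at h5
  set W := ∑ l ∈ range k, w l with hWd
  set W₁ := ∑ l ∈ T, w l with hW₁d
  have h7 : W * X ≤ W * (A' + (1 - c) * M' + c * M) := by
    have h8 : (M' - M) * (c * W) ≤ (M' - M) * W₁ :=
      mul_le_mul_of_nonneg_left h4 (sub_nonneg.2 hMM)
    nlinarith
  exact le_of_mul_le_mul_left h7 hW

theorem hockey (j n : ℕ) : ∑ l ∈ range n, l.choose j = n.choose (j + 1) := by
  induction n with
  | zero => simp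
  | succ n ih => rw [sum_range_succ, ih, Nat.choose_succ_succ' n j, add_comm]

theorem hockey' (j n : ℕ) : ∑ l ∈ range n, (l + j).choose j = (n + j).choose (j + 1) := by
  induction n with
  | zero => simp
  | succ n ih => rw [sum_range_succ, ih, show n + 1 + j = (n + j) + 1 by ring,
      Nat.choose_succ_succ' (n + j) j, add_comm]

/-- one doubling step, abstract weights -/
theorem step_abs {d : ℕ} (hd : 1 ≤ d) {A : ℝ} (hA : 0 ≤ A) {N h : ℕ} (hN2 : h ≤ 2 * N)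
    (hNh : N < h) {w v : ℕ → ℝ} (hw : ∀ l, 0 ≤ w l)
    (hW1 : (∑ l ∈ range (2 * h + 1), w l) * d.factorial ≤ (3 * (h : ℝ)) ^ d)
    (hW2 : (h : ℝ) ^ d ≤ (∑ l ∈ range (2 * h + 1), w l) * d.factorial)
    (hT : ∀ l ∈ Ioc (h - N) h, ((h : ℝ) / 2) ^ (d - 1) ≤ w l * (d - 1).factorial)
    (hs : ∑ l ∈ range (2 * h + 1), w l * v l ≤ A * (4 * (h : ℝ)) ^ d) {X M M' : ℝ}
    (hMM : M ≤ M') (h2 : ∀ l ∈ range (2 * h + 1), X - M' ≤ v l)
    (h3 : ∀ l ∈ Ioc (h - N) h, X - M ≤ v l) :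
    X ≤ A * (d.factorial * 4 ^ d) + (1 - (6 : ℝ)⁻¹ ^ d) * M' + (6 : ℝ)⁻¹ ^ d * M := by
  have hh : (0 : ℝ) < h := by
    have : 0 < h := lt_of_le_of_lt (Nat.zero_le _) hNh
    exact_mod_cast this
  have hfac : (0 : ℝ) < d.factorial := by exact_mod_cast Nat.factorial_pos d
  have hsub : Ioc (h - N) h ⊆ range (2 * h + 1) := by
    intro l hl
    rw [mem_Ioc] at hl
    rw [mem_range]
    omega
  have hWpos : 0 < ∑ l ∈ range (2 * h + 1), w l := by
    have h5 : 0 < (∑ l ∈ range (2 * h + 1), w l) * d.factorial := lt_of_lt_of_le (by positivity) hW2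
    exact (pos_iff_pos_of_mul_pos h5).2 hfac
  refine mean_step hw hsub hWpos hMM ?_ h2 h3 ?_
  · refine hs.trans ?_
    calc A * (4 * (h : ℝ)) ^ d = A * 4 ^ d * (h : ℝ) ^ d := by rw [mul_pow]; ring
      _ ≤ A * 4 ^ d * ((∑ l ∈ range (2 * h + 1), w l) * d.factorial) :=
          mul_le_mul_of_nonneg_left hW2 (by positivity)
      _ = A * (d.factorial * 4 ^ d) * ∑ l ∈ range (2 * h + 1), w l := by ring
  · have h6 : (N : ℝ) * ((h : ℝ) / 2) ^ (d - 1) ≤
        (∑ l ∈ Ioc (h - N) h, w l) * (d - 1).factorial := by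
      rw [sum_mul]
      calc (N : ℝ) * ((h : ℝ) / 2) ^ (d - 1)
          = ∑ _l ∈ Ioc (h - N) h, ((h : ℝ) / 2) ^ (d - 1) := by
            rw [sum_const, Nat.card_Ioc, nsmul_eq_mul]
            congr 2
            omega
        _ ≤ _ := sum_le_sum hT
    have h7 : ((6 : ℝ)⁻¹ ^ d * ∑ l ∈ range (2 * h + 1), w l) * d.factorial ≤
        (∑ l ∈ Ioc (h - N) h, w l) * d.factorial := by
      calc ((6 : ℝ)⁻¹ ^ d * ∑ l ∈ range (2 * h + 1), w l) * d.factorial
          = (6 : ℝ)⁻¹ ^ d * ((∑ l ∈ range (2 * h + 1), w l) * d.factorial) := by ring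
        _ ≤ (6 : ℝ)⁻¹ ^ d * (3 * (h : ℝ)) ^ d := mul_le_mul_of_nonneg_left hW1 (by positivity)
        _ = ((h : ℝ) / 2) * ((h : ℝ) / 2) ^ (d - 1) := by
            rw [← mul_pow, ← pow_succ', Nat.sub_add_cancel hd]
            congr 1
            ring
        _ ≤ (N : ℝ) * ((h : ℝ) / 2) ^ (d - 1) := by
            refine mul_le_mul_of_nonneg_right ?_ (by positivity)
            have : (h : ℝ) ≤ 2 * N := by exact_mod_cast hN2
            linarith
        _ ≤ (∑ l ∈ Ioc (h - N) h, w l) * (d - 1).factorial := h6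
        _ ≤ (∑ l ∈ Ioc (h - N) h, w l) * d.factorial := by
            refine mul_le_mul_of_nonneg_left ?_ (sum_nonneg fun l _ => hw l)
            exact_mod_cast Nat.factorial_le (Nat.sub_le d 1)
    exact le_of_mul_le_mul_right h7 hfac

/-- one doubling step, positive times -/
theorem step_pos {d : ℕ} (hd : 1 ≤ d) {A : ℝ} (hA : 0 ≤ A) {s : ℤ → ℝ}
    (hP : ∀ k : ℕ, ∑ l ∈ range k, ((k - 1 - l).choose (d - 1) : ℝ) * s l ≤
      A * ((k : ℝ) + d) ^ d) {N h : ℕ} (hN2 : h ≤ 2 * N) (hNh : N < h) (hhd : 2 * d ≤ h)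
    {M M' : ℝ} (hMM : M ≤ M')
    (h2 : ∀ l : ℕ, l ≤ 2 * h → s h - s l ≤ M') (h3 : ∀ l : ℕ, l ≤ h → h < l + N → s h - s l ≤ M) :
    s h ≤ A * (d.factorial * 4 ^ d) + (1 - (6 : ℝ)⁻¹ ^ d) * M' + (6 : ℝ)⁻¹ ^ d * M := by
  have hfac : (0 : ℝ) < d.factorial := by exact_mod_cast Nat.factorial_pos d
  have hfac' : (0 : ℝ) < (d - 1).factorial := by exact_mod_cast Nat.factorial_pos (d - 1)
  have htot : ∑ l ∈ range (2 * h + 1), (((2 * h - l).choose (d - 1) : ℕ) : ℝ) =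
      (((2 * h + 1).choose d : ℕ) : ℝ) := by
    have h1 := sum_range_reflect (fun l => l.choose (d - 1)) (2 * h + 1)
    rw [hockey, Nat.sub_add_cancel hd] at h1
    rw [← h1]
    push_cast
    exact sum_congr rfl fun l _ => rfl
  refine step_abs hd hA hN2 hNh (w := fun l => (((2 * h - l).choose (d - 1) : ℕ) : ℝ))
    (v := fun l => s l) (fun l => Nat.cast_nonneg _) ?_ ?_ ?_ ?_ hMM ?_ ?_
  · rw [htot]
    have h1 := Nat.choose_le_pow_div (α := ℝ) d (2 * h + 1)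
    rw [le_div_iff₀ hfac] at h1
    refine h1.trans (pow_le_pow_left₀ (by positivity) ?_ d)
    push_cast
    have : (2 : ℝ) * 1 ≤ h := by exact_mod_cast (by omega : 2 * 1 ≤ h)
    linarith
  · rw [htot]
    have h1 := Nat.pow_le_choose (α := ℝ) d (2 * h + 1)
    rw [div_le_iff₀ hfac] at h1
    refine le_trans (pow_le_pow_left₀ (by positivity) ?_ d) h1
    exact_mod_cast (by omega : h ≤ 2 * h + 1 + 1 - d)
  · intro l hl
    rw [mem_Ioc] at hl
    have h1 := Nat.pow_le_choose (α := ℝ) (d - 1) (2 * h - l)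
    rw [div_le_iff₀ hfac'] at h1
    refine le_trans (pow_le_pow_left₀ (by positivity) ?_ _) h1
    have h4 : h ≤ 2 * (2 * h - l + 1 - (d - 1)) := by omega
    have h5 : (h : ℝ) ≤ 2 * ((2 * h - l + 1 - (d - 1) : ℕ) : ℝ) := by exact_mod_cast h4
    linarith
  · have h1 := hP (2 * h + 1)
    simp only [Nat.add_sub_cancel] at h1
    refine h1.trans (mul_le_mul_of_nonneg_left (pow_le_pow_left₀ (by positivity) ?_ d) hA)
    have h4 : 2 * h + 1 + d ≤ 4 * h := by omega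
    exact_mod_cast h4
  · intro l hl
    rw [mem_range] at hl
    have := h2 l (by omega)
    change s h - M' ≤ s l
    linarith
  · intro l hl
    rw [mem_Ioc] at hl
    have := h3 l hl.2 (by omega)
    change s h - M ≤ s l
    linarith

/-- one doubling step, negative times -/
theorem step_neg {d : ℕ} (hd : 1 ≤ d) {A : ℝ} (hA : 0 ≤ A) {s : ℤ → ℝ}
    (hN : ∀ k : ℕ, ∑ l ∈ range (k + 1), ((k - l + (d - 1)).choose (d - 1) : ℝ) * s (-(l : ℤ)) ≤
      A * ((k : ℝ) + d) ^ d) {N h : ℕ} (hN2 : h ≤ 2 * N) (hNh : N < h) (hhd : 2 * d ≤ h)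
    {M M' : ℝ} (hMM : M ≤ M')
    (h2 : ∀ l : ℕ, l ≤ 2 * h → s (-(h : ℤ)) - s (-(l : ℤ)) ≤ M')
    (h3 : ∀ l : ℕ, l ≤ h → h < l + N → s (-(h : ℤ)) - s (-(l : ℤ)) ≤ M) :
    s (-(h : ℤ)) ≤ A * (d.factorial * 4 ^ d) + (1 - (6 : ℝ)⁻¹ ^ d) * M' + (6 : ℝ)⁻¹ ^ d * M := by
  have hfac : (0 : ℝ) < d.factorial := by exact_mod_cast Nat.factorial_pos d
  have hfac' : (0 : ℝ) < (d - 1).factorial := by exact_mod_cast Nat.factorial_pos (d - 1)
  have htot : ∑ l ∈ range (2 * h + 1), (((2 * h - l + (d - 1)).choose (d - 1) : ℕ) : ℝ) =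
      (((2 * h + d).choose d : ℕ) : ℝ) := by
    have h1 := sum_range_reflect (fun l => (l + (d - 1)).choose (d - 1)) (2 * h + 1)
    rw [hockey', Nat.sub_add_cancel hd, show 2 * h + 1 + (d - 1) = 2 * h + d by omega] at h1
    rw [← h1]
    push_cast
    exact sum_congr rfl fun l _ => rfl
  refine step_abs hd hA hN2 hNh (w := fun l => (((2 * h - l + (d - 1)).choose (d - 1) : ℕ) : ℝ))
    (v := fun l => s (-(l : ℤ))) (fun l => Nat.cast_nonneg _) ?_ ?_ ?_ ?_ hMM ?_ ?_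
  · rw [htot]
    have h1 := Nat.choose_le_pow_div (α := ℝ) d (2 * h + d)
    rw [le_div_iff₀ hfac] at h1
    refine h1.trans (pow_le_pow_left₀ (by positivity) ?_ d)
    push_cast
    have : (d : ℝ) ≤ h := by exact_mod_cast (by omega : d ≤ h)
    linarith
  · rw [htot]
    have h1 := Nat.pow_le_choose (α := ℝ) d (2 * h + d)
    rw [div_le_iff₀ hfac] at h1
    refine le_trans (pow_le_pow_left₀ (by positivity) ?_ d) h1
    exact_mod_cast (by omega : h ≤ 2 * h + d + 1 - d)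
  · intro l hl
    rw [mem_Ioc] at hl
    have h1 := Nat.pow_le_choose (α := ℝ) (d - 1) (2 * h - l + (d - 1))
    rw [div_le_iff₀ hfac'] at h1
    refine le_trans (pow_le_pow_left₀ (by positivity) ?_ _) h1
    have h4 : h ≤ 2 * (2 * h - l + (d - 1) + 1 - (d - 1)) := by omega
    have h5 : (h : ℝ) ≤ 2 * ((2 * h - l + (d - 1) + 1 - (d - 1) : ℕ) : ℝ) := by exact_mod_cast h4
    linarith
  · have h1 := hN (2 * h)
    refine h1.trans (mul_le_mul_of_nonneg_left (pow_le_pow_left₀ (by positivity) ?_ d) hA)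
    have h4 : 2 * h + d ≤ 4 * h := by omega
    exact_mod_cast h4
  · intro l hl
    rw [mem_range] at hl
    have := h2 l (by omega)
    change s (-(h : ℤ)) - M' ≤ s (-(l : ℤ))
    linarith
  · intro l hl
    rw [mem_Ioc] at hl
    have := h3 l hl.2 (by omega)
    change s (-(h : ℤ)) - M ≤ s (-(l : ℤ))
    linarith

/-- the set of the values up to time `N` -/
def Val (S : Set (ℤ → ℝ)) (N : ℕ) : Set ℝ := {r | ∃ s ∈ S, ∃ h : ℤ, |h| ≤ N ∧ r = s h}

theorem abs_le_of {S : Set (ℤ → ℝ)} (h0 : ∀ s ∈ S, s 0 = 0) {B : ℝ}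
    (hB : ∀ s ∈ S, ∀ i, |s (i + 1) - s i| ≤ B) {s : ℤ → ℝ} (hs : s ∈ S) (i : ℤ) :
    |s i| ≤ B * |(i : ℝ)| := by
  induction i using Int.induction_on with
  | zero => simp [h0 s hs]
  | succ i ih =>
    have h1 := hB s hs i
    have h2 : |s (i + 1)| ≤ |s (i + 1) - s i| + |s i| := by
      have := abs_add_le (s (i + 1) - s i) (s i)
      simpa using this
    have h3 : |((i : ℤ) : ℝ)| = i := by simp
    rw [h3] at ih
    have h4 : |(((i : ℤ) + 1 : ℤ) : ℝ)| = i + 1 := by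
      push_cast
      exact abs_of_nonneg (by positivity)
    rw [h4]
    linarith
  | pred i ih =>
    have h1 := hB s hs (-(i : ℤ) - 1)
    rw [sub_add_cancel] at h1
    have h2 : |s (-(i : ℤ) - 1)| ≤ |s (-(i : ℤ)) - s (-(i : ℤ) - 1)| + |s (-(i : ℤ))| := by
      have := abs_sub_abs_le_abs_sub (s (-(i : ℤ) - 1)) (s (-(i : ℤ)))
      rw [abs_sub_comm] at this
      linarith
    have h3 : |((-(i : ℤ) : ℤ) : ℝ)| = i := by simp
    rw [h3] at ih
    have h4 : |((-(i : ℤ) - 1 : ℤ) : ℝ)| = i + 1 := by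
      push_cast
      rw [show -(i : ℝ) - 1 = -((i : ℝ) + 1) by ring, abs_neg]
      exact abs_of_nonneg (by positivity)
    rw [h4]
    linarith

theorem log_bound {S : Set (ℤ → ℝ)} (h0 : ∀ s ∈ S, s 0 = 0)
    (hshift : ∀ s ∈ S, ∀ j : ℤ, (fun i => s (i + j) - s j) ∈ S) {B : ℝ}
    (hB : ∀ s ∈ S, ∀ i, |s (i + 1) - s i| ≤ B) {d : ℕ} (hd : 1 ≤ d) {A : ℝ}
    (hP : ∀ s ∈ S, ∀ k : ℕ, ∑ l ∈ Finset.range k, ((k - 1 - l).choose (d - 1) : ℝ) * s l ≤
      A * ((k : ℝ) + d) ^ d)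
    (hN : ∀ s ∈ S, ∀ k : ℕ, ∑ l ∈ Finset.range (k + 1),
      ((k - l + (d - 1)).choose (d - 1) : ℝ) * s (-(l : ℤ)) ≤ A * ((k : ℝ) + d) ^ d) :
    ∃ C : ℝ, 0 ≤ C ∧ ∀ s ∈ S, ∀ i : ℤ, s i ≤ C * (1 + Real.log (1 + |(i : ℝ)|)) := by
  rcases S.eq_empty_or_nonempty with hS | ⟨s₀, hs₀⟩
  · exact ⟨0, le_rfl, fun s hs => by rw [hS] at hs; exact hs.elim⟩
  have hB0 : 0 ≤ B := (abs_nonneg _).trans (hB s₀ hs₀ 0)
  have hbdd : ∀ N, BddAbove (Val S N) := by
    intro N
    refine ⟨B * N, ?_⟩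
    rintro r ⟨s, hs, h, hh, rfl⟩
    refine (le_abs_self _).trans ((abs_le_of h0 hB hs h).trans ?_)
    refine mul_le_mul_of_nonneg_left ?_ hB0
    have : ((|h| : ℤ) : ℝ) ≤ ((N : ℤ) : ℝ) := by exact_mod_cast hh
    simpa using this
  have hne : ∀ N, (Val S N).Nonempty := fun N => ⟨s₀ 0, s₀, hs₀, 0, by simp, rfl⟩
  set D : ℕ → ℝ := fun N => sSup (Val S N) with hD
  have hle : ∀ N : ℕ, ∀ s ∈ S, ∀ h : ℤ, |h| ≤ N → s h ≤ D N := fun N s hs h hh =>
    le_csSup (hbdd N) ⟨s, hs, h, hh, rfl⟩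
  have hD0 : ∀ N, 0 ≤ D N := fun N => by
    have := hle N s₀ hs₀ 0 (by simp)
    rwa [h0 s₀ hs₀] at this
  have hDB : ∀ N, D N ≤ B * N := by
    intro N
    refine csSup_le (hne N) ?_
    rintro r ⟨s, hs, h, hh, rfl⟩
    refine (le_abs_self _).trans ((abs_le_of h0 hB hs h).trans ?_)
    refine mul_le_mul_of_nonneg_left ?_ hB0
    have : ((|h| : ℤ) : ℝ) ≤ ((N : ℤ) : ℝ) := by exact_mod_cast hh
    simpa using this
  have hmono : ∀ N N', N ≤ N' → D N ≤ D N' := by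
    intro N N' hNN
    refine csSup_le (hne N) ?_
    rintro r ⟨s, hs, h, hh, rfl⟩
    exact hle N' s hs h (hh.trans (by exact_mod_cast hNN))
  set A₁ : ℝ := max A 0 with hA₁
  have hA0 : 0 ≤ A₁ := le_max_right _ _
  have hAA : ∀ k : ℕ, A * ((k : ℝ) + d) ^ d ≤ A₁ * ((k : ℝ) + d) ^ d := fun k =>
    mul_le_mul_of_nonneg_right (le_max_left _ _) (by positivity)
  set c : ℝ := (6 : ℝ)⁻¹ ^ d with hc
  have hc0 : 0 < c := by positivity
  set E : ℝ := A₁ * (d.factorial * 4 ^ d) with hE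
  have hE0 : 0 ≤ E := by positivity
  -- the doubling step
  have hstep : ∀ N : ℕ, 2 * d ≤ N → D (2 * N) ≤ D N + E / c := by
    intro N hNd
    have hDD : D N ≤ D (2 * N) := hmono _ _ (by omega)
    have hkey : D (2 * N) ≤ max (D N) (E + (1 - c) * D (2 * N) + c * D N) := by
      refine csSup_le (hne _) ?_
      rintro r ⟨s, hs, h, hh, rfl⟩
      by_cases hhN : |h| ≤ N
      · exact le_max_of_le_left (hle N s hs h hhN)
      refine le_max_of_le_right ?_
      rw [not_le] at hhN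
      have hsh : ∀ j i : ℤ, s i - s j = (fun i => s (i + j) - s j) (i - j) := by
        intro j i
        simp
      have hval : ∀ (K : ℕ) (i j : ℤ), |i - j| ≤ K → s i - s j ≤ D K := by
        intro K i j hij
        rw [hsh j i]
        exact hle K _ (hshift s hs j) _ hij
      rcases le_total 0 h with hpos | hneg
      · obtain ⟨m, rfl⟩ := Int.eq_ofNat_of_zero_le hpos
        rw [Int.abs_eq_natAbs, Int.natAbs_natCast] at hh hhN
        have hm1 : m ≤ 2 * N := by exact_mod_cast hh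
        have hm2 : N < m := by exact_mod_cast hhN
        refine step_pos hd hA0 (fun k => (hP s hs k).trans (hAA k)) hm1 hm2 (by omega) hDD ?_ ?_
        · intro l hl
          refine hval (2 * N) m l ?_
          rw [abs_le]
          push_cast
          constructor <;> omega
        · intro l hl hl2
          refine hval N m l ?_
          rw [abs_le]
          constructor <;> omega
      · obtain ⟨m, hm⟩ := Int.eq_ofNat_of_zero_le (neg_nonneg.2 hneg)
        have hh' : h = -(m : ℤ) := by omega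
        subst hh'
        rw [abs_neg, Int.abs_eq_natAbs, Int.natAbs_natCast] at hh hhN
        have hm1 : m ≤ 2 * N := by exact_mod_cast hh
        have hm2 : N < m := by exact_mod_cast hhN
        refine step_neg hd hA0 (fun k => (hN s hs k).trans (hAA k)) hm1 hm2 (by omega) hDD ?_ ?_
        · intro l hl
          refine hval (2 * N) (-(m : ℤ)) (-(l : ℤ)) ?_
          rw [abs_le]
          push_cast
          constructor <;> omega
        · intro l hl hl2
          refine hval N (-(m : ℤ)) (-(l : ℤ)) ?_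
          rw [abs_le]
          constructor <;> omega
    rcases le_max_iff.1 hkey with h1 | h1
    · have : 0 ≤ E / c := by positivity
      linarith
    · have h2 : c * D (2 * N) ≤ c * (D N + E / c) := by
        rw [mul_add, mul_div_cancel₀ _ hc0.ne']
        linarith
      exact le_of_mul_le_mul_left h2 hc0
  -- iteration
  have hiter : ∀ m : ℕ, D (2 ^ m * (2 * d)) ≤ D (2 * d) + m * (E / c) := by
    intro m
    induction m with
    | zero => simp
    | succ m ih =>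
      have h1 := hstep (2 ^ m * (2 * d)) (Nat.le_mul_of_pos_left _ (by positivity))
      rw [show 2 ^ (m + 1) * (2 * d) = 2 * (2 ^ m * (2 * d)) by ring]
      push_cast
      linarith
  have hF0 : 0 ≤ E / c := by positivity
  have hlog2 : 0 < Real.log 2 := Real.log_pos one_lt_two
  refine ⟨B * (2 * d) + E / c + (E / c) / Real.log 2, by positivity, ?_⟩
  intro s hs i
  have hx : (0 : ℝ) ≤ |(i : ℝ)| := abs_nonneg _
  have hL : 0 ≤ Real.log (1 + |(i : ℝ)|) := Real.log_nonneg (by linarith)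
  set m : ℕ := Nat.clog 2 (1 + i.natAbs) with hm
  have hm1 : 1 + i.natAbs ≤ 2 ^ m := Nat.le_pow_clog one_lt_two _
  have hm2 : (m : ℝ) ≤ 1 + Real.log (1 + |(i : ℝ)|) / Real.log 2 := by
    rcases Nat.eq_zero_or_pos i.natAbs with h1 | h1
    · rw [hm, h1]
      simp only [add_zero, Nat.clog_one_right, Nat.cast_zero]
      positivity
    · have h2 : 2 ^ (m - 1) < 1 + i.natAbs := by
        have := Nat.pow_pred_clog_lt_self one_lt_two (x := 1 + i.natAbs) (by omega)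
        exact this
      have hmpos : 0 < m := Nat.clog_pos one_lt_two (by omega)
      have h3 : ((2 : ℝ) ^ (m - 1)) ≤ 1 + |(i : ℝ)| := by
        have h4 : ((2 ^ (m - 1) : ℕ) : ℝ) ≤ ((1 + i.natAbs : ℕ) : ℝ) := by exact_mod_cast h2.le
        push_cast at h4
        rwa [Nat.cast_natAbs, Int.cast_abs] at h4
      have h5 : ((m - 1 : ℕ) : ℝ) * Real.log 2 ≤ Real.log (1 + |(i : ℝ)|) := by
        rw [← Real.log_pow]
        exact Real.log_le_log (by positivity) h3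
      have h6 : ((m - 1 : ℕ) : ℝ) = (m : ℝ) - 1 := by
        rw [Nat.cast_sub hmpos]
        simp
      rw [h6] at h5
      rw [← sub_le_iff_le_add', le_div_iff₀ hlog2]
      exact h5
  have h7 : s i ≤ D (2 ^ m * (2 * d)) := by
    refine hle _ s hs i ?_
    rw [Int.abs_eq_natAbs]
    have : i.natAbs ≤ 2 ^ m * (2 * d) := by
      calc i.natAbs ≤ 2 ^ m * 1 := by omega
        _ ≤ 2 ^ m * (2 * d) := Nat.mul_le_mul_left _ (by omega)
    exact_mod_cast this
  have h8 := hDB (2 * d)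
  push_cast at h8
  have h9 := hiter m
  have h10 : (m : ℝ) * (E / c) ≤ (1 + Real.log (1 + |(i : ℝ)|) / Real.log 2) * (E / c) :=
    mul_le_mul_of_nonneg_right hm2 hF0
  have h11 : 0 ≤ B * (2 * d) * Real.log (1 + |(i : ℝ)|) := by positivity
  have h12 : 0 ≤ E / c * Real.log (1 + |(i : ℝ)|) := by positivity
  have h13 : 0 ≤ E / c / Real.log 2 := by positivity
  calc s i ≤ B * (2 * d) + (1 + Real.log (1 + |(i : ℝ)|) / Real.log 2) * (E / c) := by linarith
    _ ≤ (B * (2 * d) + E / c + E / c / Real.log 2) * (1 + Real.log (1 + |(i : ℝ)|)) := by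
        have h14 : Real.log (1 + |(i : ℝ)|) / Real.log 2 * (E / c) =
            E / c / Real.log 2 * Real.log (1 + |(i : ℝ)|) := by ring
        nlinarith

/-- the two-sided form -/
theorem log_bound_abs {S : Set (ℤ → ℝ)} (h0 : ∀ s ∈ S, s 0 = 0)
    (hshift : ∀ s ∈ S, ∀ j : ℤ, (fun i => s (i + j) - s j) ∈ S) {B : ℝ}
    (hB : ∀ s ∈ S, ∀ i, |s (i + 1) - s i| ≤ B) {d : ℕ} (hd : 1 ≤ d) {A : ℝ}
    (hP : ∀ s ∈ S, ∀ k : ℕ, ∑ l ∈ Finset.range k, ((k - 1 - l).choose (d - 1) : ℝ) * s l ≤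
      A * ((k : ℝ) + d) ^ d)
    (hN : ∀ s ∈ S, ∀ k : ℕ, ∑ l ∈ Finset.range (k + 1),
      ((k - l + (d - 1)).choose (d - 1) : ℝ) * s (-(l : ℤ)) ≤ A * ((k : ℝ) + d) ^ d) :
    ∃ C : ℝ, 0 ≤ C ∧ ∀ s ∈ S, ∀ i : ℤ, |s i| ≤ C * (1 + Real.log (1 + |(i : ℝ)|)) := by
  obtain ⟨C, hC, h⟩ := log_bound h0 hshift hB hd hP hN
  refine ⟨C, hC, fun s hs i => abs_le.2 ⟨?_, h s hs i⟩⟩
  have h1 := h _ (hshift s hs i) (-i)
  simp only [neg_add_cancel, h0 s hs, zero_sub] at h1
  push_cast at h1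
  rw [abs_neg] at h1
  linarith

end Pool.Agent.H36.LZ
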