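import Pool.Agent.H36.LZ.Usc
import Pool.Agent.H15.SK.Sum
import Pool.Agent.H51.LZ.Rl

/-!
# An invariant potential with minimal singularities
-/

set_option autoImplicit false

open Set Filter Topology Metric MeasureTheory
open scoped Manifold NNReal ENNReal

namespace Pool.Agent.H36.LZ

open Pool.Agent.H51.LZ Pool.Agent.H15.SK

variable {n : ℕ} {X : Type} [TopologicalSpace X] [ChartedSpace (Cn n) X]

theorem Plur.psh {U : Set X} {f : X → ℝ} (hf : Pluriharmonic n U f) :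
    Psh n U (fun x => (f x : EReal)) :=
  psh_of_le_average hf.1 fun h hd => (hf.2 h hd).le

theorem Plur.const (U : Set X) (c : ℝ) : Pluriharmonic n U (fun _ => c) :=
  ⟨continuousOn_const, fun h _ => by rw [Real.circleAverage_const]⟩

/-- `T_d + dd^c ψ ≥ 0` -/
def TP (T : Currents n X) (d : ℕ) (ψ : X → EReal) : Prop :=
  ∀ p, Psh n (T.V p) (fun x => (T.u d p x : EReal) + ψ x)

theorem coe_add_lt {u c : ℝ} {t : EReal} : (u : EReal) + t < ((u + c : ℝ) : EReal) ↔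
    t < (c : EReal) := by
  induction t using EReal.rec with
  | bot =>
    rw [EReal.add_bot]
    exact ⟨fun _ => EReal.bot_lt_coe _, fun _ => EReal.bot_lt_coe _⟩
  | top =>
    rw [EReal.coe_add_top]
    simp
  | coe r =>
    rw [← EReal.coe_add, EReal.coe_lt_coe_iff, EReal.coe_lt_coe_iff]
    exact add_lt_add_iff_left u

/-- subtracting a continuous function -/
theorem usc_of_add {U : Set X} (hU : IsOpen U) {u : X → ℝ} {ψ : X → EReal}
    (hu : ContinuousOn u U) (h : UpperSemicontinuousOn (fun x => (u x : EReal) + ψ x) U) :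
    ∀ x ∈ U, UpperSemicontinuousAt ψ x := by
  intro x hx c hc
  obtain ⟨c', h1, h2⟩ := EReal.lt_iff_exists_real_btwn.1 hc
  obtain ⟨c'', h3, h4⟩ := EReal.lt_iff_exists_real_btwn.1 h1
  have h4' : c'' < c' := by exact_mod_cast h4
  have h5 : (u x : EReal) + ψ x < ((u x + c'' : ℝ) : EReal) := coe_add_lt.2 h3
  have h6 := h x hx _ h5
  rw [hU.nhdsWithin_eq hx] at h6
  have h7 : ContinuousAt u x := hu.continuousAt (hU.mem_nhds hx)
  have h8 : ∀ᶠ y in 𝓝 x, u x - (c' - c'') < u y := h7.eventually (lt_mem_nhds (by linarith))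
  filter_upwards [h6, h8] with y hy1 hy2
  have h9 : (u y : EReal) + ψ y < ((u y + c' : ℝ) : EReal) :=
    hy1.trans_le (by exact_mod_cast (by linarith : u x + c'' ≤ u y + c'))
  exact (coe_add_lt.1 h9).trans h2

theorem TP.usc {T : Currents n X} {d : ℕ} {ψ : X → EReal} (h : TP T d ψ) :
    UpperSemicontinuous ψ := fun x =>
  usc_of_add (T.isOpen_V x) (T.cont d x) (h x).1 x (T.mem_V x)

theorem TP.ne_top {T : Currents n X} {d : ℕ} {ψ : X → EReal} (h : TP T d ψ) (x : X) :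
    ψ x ≠ ⊤ := by
  intro hx
  have h1 : (T.u d x x : EReal) + ψ x ≠ ⊤ := (h x).2.1 x (T.mem_V x)
  rw [hx, EReal.coe_add_top] at h1
  exact h1 rfl

theorem TP.bdd [CompactSpace X] {T : Currents n X} {d : ℕ} {ψ : X → EReal} (h : TP T d ψ) :
    ∃ M : ℝ, ∀ x, ψ x ≤ (M : EReal) := by
  rcases isEmpty_or_nonempty X with hX | hX
  · exact ⟨0, fun x => (hX.false x).elim⟩
  obtain ⟨x₁, -, hx₁⟩ := h.usc.upperSemicontinuousOn univ |>.exists_isMaxOn univ_nonempty
    isCompact_univ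
  have hmax : ∀ y, ψ y ≤ ψ x₁ := fun y => hx₁ (mem_univ y)
  obtain ⟨M, hM⟩ : ∃ M : ℝ, ψ x₁ ≤ (M : EReal) := by
    induction hval : ψ x₁ using EReal.rec with
    | bot => exact ⟨0, bot_le⟩
    | top => exact absurd hval (h.ne_top x₁)
    | coe M => exact ⟨M, le_rfl⟩
  exact ⟨M, fun y => (hmax y).trans hM⟩

/-- adding a constant -/
theorem TP.sub_const {T : Currents n X} {d : ℕ} {ψ : X → EReal} (h : TP T d ψ) (c : ℝ) :
    TP T d (fun x => ((-c : ℝ) : EReal) + ψ x) := by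
  intro p
  refine Psh.congr (Pool.Agent.H15.SK.Psh.add (Plur.psh (Plur.const (n := n) (T.V p) (-c))) (h p))
    fun x _ => ?_
  rw [← add_assoc, ← add_assoc, add_comm (T.u d p x : EReal)]

/-- the normalised potentials -/
theorem TP.adm {T : Currents n X} {d : ℕ} :
    ∃ V : X → Set X, (∀ p, IsOpen (V p)) ∧ (∀ p, p ∈ V p) ∧
      ∀ ψ : X → EReal, TP T d ψ → AdmE n V ψ := by
  refine ⟨fun p => T.V p ∩ {x | |T.u d p x - T.u d p p| < 1}, fun p => ?_, fun p => ?_, ?_⟩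
  · have h1 : ContinuousOn (fun x => |T.u d p x - T.u d p p|) (T.V p) :=
      ((T.cont d p).sub continuousOn_const).abs
    exact h1.isOpen_inter_preimage (T.isOpen_V p) isOpen_Iio
  · exact ⟨T.mem_V p, by simp⟩
  · intro ψ hψ
    refine ⟨hψ.usc, fun p => ⟨fun x => T.u d p x - T.u d p p, fun x hx => hx.2.le, ?_⟩⟩
    refine Psh.congr (Pool.Agent.H15.SK.Psh.add
      (Plur.psh (Plur.const (n := n) _ (-(T.u d p p)))) ((hψ p).mono inter_subset_left))
      fun x _ => ?_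
    rw [← add_assoc, ← EReal.coe_add]
    congr 2
    ring

/-- pulling back -/
theorem TP.pull {T : Currents n X} {d : ℕ} {ψ : X → EReal} (h : TP T d ψ) {g : X → X}
    (hg : MDifferentiable 𝓘(ℂ, Cn n) 𝓘(ℂ, Cn n) g) {b : X → ℝ}
    (hrel : ∀ p q, Pluriharmonic n (T.V p ∩ g ⁻¹' T.V q)
      (fun x => T.u d q (g x) - T.u d p x - b x)) :
    TP T d (fun x => (b x : EReal) + ψ (g x)) := by
  intro p
  refine psh_of_local fun x hx => ⟨T.V p ∩ g ⁻¹' T.V (g x),
    (T.isOpen_V p).inter ((T.isOpen_V _).preimage hg.continuous), ⟨hx, T.mem_V _⟩, ?_⟩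
  have h1 : Psh n (T.V p ∩ g ⁻¹' T.V (g x))
      (fun y => (T.u d (g x) (g y) : EReal) + ψ (g y)) :=
    Psh.comp (h (g x)) hg fun y hy => hy.2
  have h2 := Plur.psh ((hrel p (g x)).const_mul (-1))
  refine Psh.congr (Pool.Agent.H15.SK.Psh.add h2 h1) fun y _ => ?_
  rw [← add_assoc, ← add_assoc, ← EReal.coe_add, ← EReal.coe_add]
  congr 2
  ring

theorem rel_symm {T : Currents n X} {d : ℕ} {g : X ≃ₜ X} {b : X → ℝ}
    (hg' : MDifferentiable 𝓘(ℂ, Cn n) 𝓘(ℂ, Cn n) g.symm)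
    (hrel : ∀ p q, Pluriharmonic n (T.V p ∩ g ⁻¹' T.V q)
      (fun x => T.u d q (g x) - T.u d p x - b x)) :
    ∀ p q, Pluriharmonic n (T.V p ∩ g.symm ⁻¹' T.V q)
      (fun x => T.u d q (g.symm x) - T.u d p x - (-(b (g.symm x)))) := by
  intro p q
  have h1 := ((hrel q p).const_mul (-1)).comp (U := T.V p ∩ g.symm ⁻¹' T.V q) hg'
    fun x hx => ⟨hx.2, by
      rw [mem_preimage, Homeomorph.apply_symm_apply]
      exact hx.1⟩
  refine h1.congr fun x _ => ?_
  rw [Homeomorph.apply_symm_apply]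
  ring

/-- the class of the functions `ψ` with `T_d + dd^c ψ ≥ 0` and mean value at most `0` -/
def Cls (T : Currents n X) (d : ℕ) [MeasurableSpace X] (μ : Measure X) : Set (X → EReal) :=
  {ψ | TP T d ψ ∧ ∀ ε : ℝ, 0 < ε → ∃ f : X → ℝ, Continuous f ∧ (∀ x, ψ x ≤ (f x : EReal)) ∧
    ∫ x, f x ∂μ ≤ ε}

theorem Cls.pull [CompactSpace X] [MeasurableSpace X] [BorelSpace X] {μ : Measure X}
    [IsProbabilityMeasure μ] {T : Currents n X} {d : ℕ} {ψ : X → EReal} (h : ψ ∈ Cls T d μ)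
    {g : X ≃ₜ X} (hg : MDifferentiable 𝓘(ℂ, Cn n) 𝓘(ℂ, Cn n) g)
    (hgμ : MeasurePreserving g μ μ) {b : X → ℝ} (hbc : Continuous b) (hb : ∫ x, b x ∂μ = 0)
    (hrel : ∀ p q, Pluriharmonic n (T.V p ∩ g ⁻¹' T.V q)
      (fun x => T.u d q (g x) - T.u d p x - b x)) :
    (fun x => (b x : EReal) + ψ (g x)) ∈ Cls T d μ := by
  refine ⟨h.1.pull hg hrel, fun ε hε => ?_⟩
  obtain ⟨f, hf, hψf, hfε⟩ := h.2 ε hε
  refine ⟨fun x => b x + f (g x), hbc.add (hf.comp g.continuous), fun x => ?_, ?_⟩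
  · rw [EReal.coe_add]
    exact add_le_add le_rfl (hψf _)
  · have h1 : Integrable b μ :=
      hbc.integrable_of_hasCompactSupport (HasCompactSupport.of_compactSpace b)
    have h2 : Integrable (fun x => f (g x)) μ :=
      (hf.comp g.continuous).integrable_of_hasCompactSupport (HasCompactSupport.of_compactSpace _)
    rw [integral_add h1 h2, hb, zero_add, hgμ.integral_comp g.measurableEmbedding]
    exact hfε

theorem le_rlim_top {ι : Type} (w : ι → X → EReal) (i : ι) (x : X) : w i x ≤ rlim ⊤ w x := by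
  refine le_limsup_of_frequently_le ?_ (by isBoundedDefault)
  rw [Filter.frequently_iff]
  intro s hs
  rw [Filter.mem_prod_iff] at hs
  obtain ⟨t, ht, t', ht', hst⟩ := hs
  rw [Filter.mem_top] at ht
  exact ⟨(i, x), hst ⟨by rw [ht]; trivial, mem_of_mem_nhds ht'⟩, le_rfl⟩

theorem rlim_top_le {ι : Type} {w : ι → X → EReal} {u : X → EReal} (hu : UpperSemicontinuous u)
    (h : ∀ i x, w i x ≤ u x) (x : X) : rlim ⊤ w x ≤ u x := by
  refine le_of_forall_gt_imp_ge_of_dense fun c hc => ?_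
  refine rlim_le ?_
  have h1 : ∀ᶠ y in 𝓝 x, u y < c := hu x c hc
  have h2 : ∀ᶠ q : ι × X in ⊤ ×ˢ 𝓝 x, u q.2 < c := tendsto_snd.eventually h1
  filter_upwards [h2] with q hq
  exact (h q.1 q.2).trans hq.le

/-- AN INVARIANT POTENTIAL WITH MINIMAL SINGULARITIES -/
theorem exists_min [CompactSpace X] [ConnectedSpace X] [IsManifold 𝓘(ℂ, Cn n) 1 X]
    [MeasurableSpace X] [BorelSpace X] {μ : Measure X} (hμ : GoodMeasure n μ)
    (T : Currents n X) (d : ℕ) (g : X ≃ₜ X) (hgμ : MeasurePreserving g μ μ)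
    (hg : MDifferentiable 𝓘(ℂ, Cn n) 𝓘(ℂ, Cn n) g)
    (hg' : MDifferentiable 𝓘(ℂ, Cn n) 𝓘(ℂ, Cn n) g.symm) {b : X → ℝ} (hbc : Continuous b)
    (hb : ∫ x, b x ∂μ = 0)
    (hrel : ∀ p q, Pluriharmonic n (T.V p ∩ g ⁻¹' T.V q)
      (fun x => T.u d q (g x) - T.u d p x - b x)) {φ₀ : X → EReal}
    (hφ₀ : ∀ p, Psh n (T.V p) (fun x => (T.u d p x : EReal) + φ₀ x)) :
    ∃ φ : X → EReal, (∀ p, Psh n (T.V p) (fun x => (T.u d p x : EReal) + φ x)) ∧
      (∀ x, φ x = (b x : EReal) + φ (g x)) ∧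
      (∀ ψ : X → EReal, (∀ p, Psh n (T.V p) (fun x => (T.u d p x : EReal) + ψ x)) →
        ∃ M : ℝ, ∀ x, ψ x ≤ φ x + (M : EReal)) := by
  have : IsProbabilityMeasure μ := hμ.1
  obtain ⟨V, hV, hpV, hadm⟩ := TP.adm (T := T) (d := d)
  obtain ⟨C, hC⟩ := sup_le_meanE hμ hV hpV
  -- the class is bounded
  have hbd : ∀ ψ ∈ Cls T d μ, ∀ x, ψ x ≤ (((1 : ℝ) + C : ℝ) : EReal) := by
    intro ψ hψ x
    obtain ⟨f, hf, hψf, hfε⟩ := hψ.2 1 one_pos
    refine (hC ψ (hadm ψ hψ.1) f hf hψf x).trans ?_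
    exact_mod_cast (by linarith : ∫ y, f y ∂μ + C ≤ 1 + C)
  -- all functions are in the class after subtracting a constant
  have hin : ∀ ψ, TP T d ψ → ∃ M : ℝ, (fun x => ((-M : ℝ) : EReal) + ψ x) ∈ Cls T d μ := by
    intro ψ hψ
    obtain ⟨M, hM⟩ := hψ.bdd
    refine ⟨M, hψ.sub_const M, fun ε hε => ⟨fun _ => 0, continuous_const, fun x => ?_, ?_⟩⟩
    · calc ((-M : ℝ) : EReal) + ψ x ≤ ((-M : ℝ) : EReal) + (M : EReal) :=
            add_le_add le_rfl (hM x)
        _ = ((0 : ℝ) : EReal) := by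
            rw [← EReal.coe_add]
            congr 1
            ring
    · simpa using hε.le
  set w : Cls T d μ → X → EReal := fun ψ => ψ.1 with hw
  have : Nonempty (Cls T d μ) := by
    obtain ⟨M, hM⟩ := hin φ₀ hφ₀
    exact ⟨⟨_, hM⟩⟩
  have hψle : ∀ ψ ∈ Cls T d μ, ∀ x, ψ x ≤ rlim ⊤ w x := fun ψ hψ x =>
    le_rlim_top w ⟨ψ, hψ⟩ x
  have hle : ∀ u : X → EReal, UpperSemicontinuous u → (∀ ψ ∈ Cls T d μ, ∀ x, ψ x ≤ u x) →
      ∀ x, rlim ⊤ w x ≤ u x := fun u hu h => rlim_top_le hu fun i x => h i.1 i.2 x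
  -- plurisubharmonicity
  have hpsh : TP T d (rlim ⊤ w) := by
    intro p
    have h1 : Psh n (T.V p) (rlim ⊤ fun (i : Cls T d μ) x => (T.u d p x : EReal) + w i x) := by
      refine psh_rlim (T.isOpen_V p) (Eventually.of_forall fun i => i.2.1 p) fun x hx => ?_
      have h2 : ContinuousAt (T.u d p) x := (T.cont d p).continuousAt ((T.isOpen_V p).mem_nhds hx)
      have h3 : ∀ᶠ y in 𝓝 x, T.u d p y < T.u d p x + 1 :=
        h2.eventually (gt_mem_nhds (by linarith))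
      have h4 : ∀ᶠ q : Cls T d μ × X in ⊤ ×ˢ 𝓝 x, T.u d p q.2 < T.u d p x + 1 :=
        tendsto_snd.eventually h3
      refine ⟨(T.u d p x + 1) + (1 + C), ?_⟩
      filter_upwards [h4] with q hq
      rw [EReal.coe_add]
      exact add_le_add (by exact_mod_cast hq.le) (hbd q.1.1 q.1.2 q.2)
    refine Psh.congr h1 fun x hx => ?_
    have h2 : ContinuousAt (T.u d p) x := (T.cont d p).continuousAt ((T.isOpen_V p).mem_nhds hx)
    exact (rlim_add (l := ⊤) (w := w) (s := fun _ y => T.u d p y)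
      (h2.tendsto.comp tendsto_snd)).symm
  refine ⟨rlim ⊤ w, hpsh, fun x => le_antisymm ?_ ?_, fun ψ hψ => ?_⟩
  · -- `φ ≤ b + φ ∘ g`
    refine hle (fun x => (b x : EReal) + rlim ⊤ w (g x)) (hpsh.pull hg hrel).usc ?_ x
    intro ψ hψ y
    have h1 := Cls.pull hψ (g := g.symm) hg' (hgμ.symm g.toMeasurableEquiv)
      (b := fun x => -(b (g.symm x))) (hbc.comp g.symm.continuous).neg ?_ (rel_symm hg' hrel)
    · have h2 := hψle _ h1 (g y)
      simp only [Homeomorph.symm_apply_apply] at h2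
      calc ψ y = (b y : EReal) + (((-(b y) : ℝ) : EReal) + ψ y) := by
            rw [← add_assoc, ← EReal.coe_add, add_neg_cancel, EReal.coe_zero, zero_add]
        _ ≤ (b y : EReal) + rlim ⊤ w (g y) := add_le_add le_rfl h2
    · rw [integral_neg, neg_eq_zero]
      have h3 := (hgμ.symm g.toMeasurableEquiv).integral_comp g.symm.measurableEmbedding b
      rw [← hb, ← h3]
      rfl
  · -- `b + φ ∘ g ≤ φ`
    have h0 : ∀ y, rlim ⊤ w y ≤ ((-(b (g.symm y)) : ℝ) : EReal) + rlim ⊤ w (g.symm y) := by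
      refine hle _ (hpsh.pull hg' (rel_symm hg' hrel)).usc fun ψ hψ y => ?_
      have h1 := hψle _ (Cls.pull hψ hg hgμ hbc hb hrel) (g.symm y)
      simp only [Homeomorph.apply_symm_apply] at h1
      calc ψ y = ((-(b (g.symm y)) : ℝ) : EReal) + ((b (g.symm y) : EReal) + ψ y) := by
            rw [← add_assoc, ← EReal.coe_add, neg_add_cancel, EReal.coe_zero, zero_add]
        _ ≤ _ := add_le_add le_rfl h1
    have h1 := h0 (g x)
    rw [Homeomorph.symm_apply_apply] at h1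
    calc (b x : EReal) + rlim ⊤ w (g x)
        ≤ (b x : EReal) + (((-(b x) : ℝ) : EReal) + rlim ⊤ w x) := add_le_add le_rfl h1
      _ = rlim ⊤ w x := by
          rw [← add_assoc, ← EReal.coe_add, add_neg_cancel, EReal.coe_zero, zero_add]
  · obtain ⟨M, hM⟩ := hin ψ hψ
    refine ⟨M, fun x => ?_⟩
    have h1 := hψle _ hM x
    calc ψ x = (((-M : ℝ) : EReal) + ψ x) + (M : EReal) := by
          rw [add_comm, ← add_assoc, ← EReal.coe_add, add_neg_cancel, EReal.coe_zero, zero_add]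
      _ ≤ rlim ⊤ w x + (M : EReal) := add_le_add h1 le_rfl

end Pool.Agent.H36.LZ
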