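import Pool.Agent.H51.LZ.Core
import Pool.Agent.H89.LZ.Fatou
import Pool.Agent.H15.SK.Sum

/-!
# The case of odd `d`: the class of `T_d` is zero
-/

set_option autoImplicit false

open Set Filter Topology Metric MeasureTheory
open scoped Manifold ENNReal

namespace Pool.Agent.H36.LZ

open Pool.Agent.H51.LZ

variable {n : ℕ} {X : Type} [TopologicalSpace X] [ChartedSpace (Cn n) X]

/-- plurisubharmonicity of the relaxed limits -/
theorem psh_part [IsManifold 𝓘(ℂ, Cn n) 1 X] {T : Currents n X} {d : ℕ} {g : X ≃ₜ X}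
    (hg : MDifferentiable 𝓘(ℂ, Cn n) 𝓘(ℂ, Cn n) g)
    (hg' : MDifferentiable 𝓘(ℂ, Cn n) 𝓘(ℂ, Cn n) g.symm)
    (hpos : ∀ p, Psh n (T.V p) (fun x => (T.u 0 p x : EReal))) {K : ℕ → ℤ} {F : ℕ → C(X, ℝ)}
    {c : ℕ → ℝ} {s B : ℝ} (hc : ∀ k, 0 ≤ c k) (hIs : ∀ k, T.Is d g (K k) (F k))
    (hB : ∀ᶠ k in atTop, ∀ x, F k x / c k ≤ B)
    (hr : ∀ j ≤ d, Tendsto (fun k => bc (K k) j / c k) atTop (𝓝 (if j = d then s else 0)))
    (p : X) :
    Psh n (T.V p) (fun x => ((s * T.u d p x : ℝ) : EReal) +
      rlim atTop (fun k x => ((F k x / c k : ℝ) : EReal)) x) := by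
  have hPc : ∀ k, ContinuousOn (T.P d k p) (T.V p) := by
    intro k
    unfold Currents.P
    exact continuousOn_finsetSum _ fun j _ => continuousOn_const.mul (T.cont j p)
  set w : ℕ → X → EReal := fun k x =>
    ((T.P d (K k) p x / c k : ℝ) : EReal) + ((F k x / c k : ℝ) : EReal) with hw
  have hwpsh : ∀ k, Psh n (T.V p) (w k) := by
    intro k
    have h1 := (hIs k).psh hg hg' hpos (F k).continuous p
    have h2 := psh_affine h1 ((hPc (K k)).add (F k).continuous.continuousOn)
      (c := (c k)⁻¹) (inv_nonneg.2 (hc k)) 0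
    refine h2.congr fun x _ => ?_
    simp only [hw]
    rw [← EReal.coe_add]
    congr 1
    ring
  have hlim : ∀ x ∈ T.V p, Tendsto (fun q : ℕ × X => T.P d (K q.1) p q.2 / c q.1)
      (atTop ×ˢ 𝓝 x) (𝓝 (s * T.u d p x)) := by
    intro x hx
    have h8 : Tendsto (fun q : ℕ × X => ∑ j ∈ Finset.range (d + 1),
        (bc (K q.1) j / c q.1) * T.u j p q.2) (atTop ×ˢ 𝓝 x)
        (𝓝 (∑ j ∈ Finset.range (d + 1), (if j = d then s else 0) * T.u j p x)) := by
      refine tendsto_finsetSum _ fun j hj => ?_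
      refine Tendsto.mul ?_ ?_
      · exact (hr j (Nat.lt_succ_iff.1 (Finset.mem_range.1 hj))).comp tendsto_fst
      · exact ((T.cont j p).continuousAt ((T.isOpen_V p).mem_nhds hx)).tendsto.comp tendsto_snd
    have h9 : ∑ j ∈ Finset.range (d + 1), (if j = d then s else 0) * T.u j p x =
        s * T.u d p x := by
      rw [Finset.sum_eq_single d]
      · simp
      · intro j _ hj
        simp [hj]
      · intro h
        exact absurd (Finset.mem_range.2 (Nat.lt_succ_self d)) h
    rw [h9] at h8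
    refine h8.congr fun q => ?_
    rw [Currents.P, Finset.sum_div]
    exact Finset.sum_congr rfl fun j _ => by ring
  have hbd : ∀ x ∈ T.V p, ∃ C : ℝ, ∀ᶠ q : ℕ × X in atTop ×ˢ 𝓝 x, w q.1 q.2 ≤ (C : EReal) := by
    intro x hx
    refine ⟨(s * T.u d p x + 1) + B, ?_⟩
    have h1 := (hlim x hx).eventually
      (gt_mem_nhds (show s * T.u d p x < s * T.u d p x + 1 by linarith))
    filter_upwards [h1, tendsto_fst.eventually hB] with q hq1 hq2
    simp only [hw]
    rw [← EReal.coe_add]
    exact_mod_cast add_le_add hq1.le (hq2 q.2)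
  refine (psh_rlim (T.isOpen_V p) (Eventually.of_forall hwpsh) hbd).congr fun x hx => ?_
  rw [hw, rlim_add (hlim x hx)]

/-- the ratios of the binomial coefficients of negative numbers -/
theorem tendsto_bc_neg_ratio (j d : ℕ) (hj : j ≤ d) :
    Tendsto (fun k : ℕ => bc (-((k : ℤ) + 1)) j / ((k + d).choose d : ℝ)) atTop
      (𝓝 (if j = d then (-1) ^ d else 0)) := by
  split_ifs with h
  · subst h
    refine tendsto_const_nhds.congr fun k => ?_
    rw [bc_neg]
    have : ((k + j).choose j : ℝ) ≠ 0 := by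
      exact_mod_cast (Nat.choose_pos (by omega)).ne'
    field_simp
  · have hlt : j < d := lt_of_le_of_ne hj h
    have h1 : Tendsto (fun k : ℕ => ((k + d).choose j : ℝ) / ((k + d).choose d : ℝ)) atTop (𝓝 0) :=
      (tendsto_choose_ratio hlt).comp (tendsto_add_atTop_nat d)
    refine squeeze_zero_norm (fun k => ?_) h1
    rw [Real.norm_eq_abs, abs_div, abs_bc_neg, abs_of_nonneg (by positivity :
      (0 : ℝ) ≤ ((k + d).choose d : ℝ))]
    refine div_le_div_of_nonneg_right ?_ (by positivity)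
    exact_mod_cast Nat.choose_le_choose j (by omega)

/-- MAXIMUM PRINCIPLE on a compact connected manifold -/
theorem psh_const [IsManifold 𝓘(ℂ, Cn n) 1 X] [CompactSpace X] [ConnectedSpace X]
    {S : X → EReal} (hS : Psh n univ S) {x₀ : X} (hx₀ : S x₀ ≠ ⊥) :
    ∃ M : ℝ, ∀ x, S x = (M : EReal) := by
  have husc : UpperSemicontinuousOn S univ := hS.1
  obtain ⟨x₁, -, hmax⟩ := husc.exists_isMaxOn ⟨x₀, mem_univ _⟩ isCompact_univ
  have htop : S x₁ ≠ ⊤ := hS.2.1 x₁ (mem_univ _)
  have hbot : S x₁ ≠ ⊥ := fun h => hx₀ (le_bot_iff.1 (by rw [← h]; exact hmax (mem_univ x₀)))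
  obtain ⟨M, hM⟩ : ∃ M : ℝ, S x₁ = M := ⟨(S x₁).toReal, (EReal.coe_toReal htop hbot).symm⟩
  have hle : ∀ x, S x ≤ M := fun x => by rw [← hM]; exact hmax (mem_univ x)
  have husc' : ∀ x : X, ∀ c : EReal, S x < c → ∀ᶠ y in 𝓝 x, S y < c := by
    intro x c hc
    have := husc x (mem_univ x) c hc
    rwa [nhdsWithin_univ] at this
  refine ⟨M, fun x => ?_⟩
  -- the set where the maximum is attained
  have hclosed : IsClosed {x | S x = (M : EReal)} := by
    rw [← isOpen_compl_iff, isOpen_iff_mem_nhds]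
    intro x hx
    have h1 : S x < M := lt_of_le_of_ne (hle x) hx
    filter_upwards [husc' x _ h1] with y hy
    exact hy.ne
  have hopen : IsOpen {x | S x = (M : EReal)} := by
    rw [isOpen_iff_mem_nhds]
    intro x hx
    set e := chartAt (Cn n) x with he
    have hxs : x ∈ e.source := mem_chart_source _ _
    obtain ⟨ε, hε, hball⟩ := Metric.isOpen_iff.1 e.open_target _ (e.map_source hxs)
    have hnb : e.source ∩ e ⁻¹' ball (e x) ε ∈ 𝓝 x :=
      (e.isOpen_inter_preimage isOpen_ball).mem_nhds ⟨hxs, mem_ball_self hε⟩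
    filter_upwards [hnb] with y hy
    by_contra hne
    have hlt : S y < M := lt_of_le_of_ne (hle y) hne
    obtain ⟨m', hm'1, hm'2⟩ := EReal.lt_iff_exists_real_btwn.1 hlt
    have hm'2' : m' < M := by exact_mod_cast hm'2
    set v : Cn n := e y - e x with hv
    have hvn : ‖v‖ < ε := by
      have := hy.2
      rwa [mem_preimage, mem_ball, dist_eq_norm] at this
    have hmap : ∀ z : ℂ, ‖z‖ ≤ 1 → e x + z • v ∈ e.target := by
      intro z hz
      refine hball ?_
      rw [mem_ball, dist_eq_norm, add_sub_cancel_left, norm_smul]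
      calc ‖z‖ * ‖v‖ ≤ 1 * ‖v‖ := mul_le_mul_of_nonneg_right hz (norm_nonneg _)
        _ < ε := by linarith
    have hd : IsDisc n univ (fun z : ℂ => e.symm (e x + z • v)) :=
      isDisc_affine (chart_mem_atlas _ _) (e x) v fun z hz => ⟨hmap z hz, mem_univ _⟩
    -- a neighbourhood of `1`
    have h1y : e.symm (e x + (1 : ℂ) • v) = y := by
      rw [one_smul, hv, add_sub_cancel, e.left_inv hy.1]
    have hcont : ContinuousOn (fun z : ℂ => e.symm (e x + z • v)) (closedBall 0 1) :=
      hd.continuousOn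
    have h1m : (1 : ℂ) ∈ closedBall (0 : ℂ) 1 := by simp
    have hnb1 : ∀ᶠ z in 𝓝[closedBall (0 : ℂ) 1] 1, S (e.symm (e x + z • v)) < (m' : EReal) := by
      have h2 := (hcont 1 h1m).tendsto
      simp only [h1y] at h2
      exact h2.eventually (husc' y _ hm'1)
    rw [eventually_nhdsWithin_iff, Metric.eventually_nhds_iff] at hnb1
    obtain ⟨δ, hδ, hnb1⟩ := hnb1
    set b : ℂ → ℝ := fun w => M - (M - m') * max 0 (1 - dist w 1 / δ) with hb
    have hbc : Continuous b := by
      simp only [hb]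
      fun_prop
    have hk0 : ∀ w : ℂ, 0 ≤ max 0 (1 - dist w 1 / δ) := fun w => le_max_left _ _
    have hk1 : ∀ w : ℂ, max 0 (1 - dist w 1 / δ) ≤ 1 := fun w => by
      refine max_le zero_le_one ?_
      have : 0 ≤ dist w 1 / δ := by positivity
      linarith
    have hbm : ∀ w, b w ≤ M := fun w => by
      have := mul_nonneg (sub_nonneg.2 hm'2'.le) (hk0 w)
      simp only [hb]
      linarith
    have hbm' : ∀ w, m' ≤ b w := fun w => by
      have := mul_le_mul_of_nonneg_left (hk1 w) (sub_nonneg.2 hm'2'.le)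
      simp only [hb]
      linarith
    have hSb : ∀ w ∈ sphere (0 : ℂ) 1, S (e.symm (e x + w • v)) ≤ (b w : EReal) := by
      intro w hw
      by_cases hdw : dist w 1 < δ
      · exact (hnb1 hdw (sphere_subset_closedBall hw)).le.trans (by exact_mod_cast hbm' w)
      · have h1 : max 0 (1 - dist w 1 / δ) = 0 := by
          refine max_eq_left ?_
          rw [not_lt] at hdw
          have : 1 ≤ dist w 1 / δ := by rwa [le_div_iff₀ hδ, one_mul]
          linarith
        have h2 : b w = M := by simp only [hb, h1, mul_zero, sub_zero]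
        rw [h2]
        exact hle _
    have h3 := hS.2.2 _ hd b hbc.continuousOn hSb
    have h4 : Real.circleAverage b 0 1 < M := by
      refine average_lt one_pos hbc.continuousOn (fun w _ => hbm w) (z₀ := 1) (by simp) ?_
      have : b 1 = m' := by simp [hb]
      rw [this]
      exact hm'2'
    simp only [zero_smul, add_zero, e.left_inv hxs] at h3
    have hx' : S x = M := hx
    rw [hx'] at h3
    have h5 : M ≤ Real.circleAverage b 0 1 := by exact_mod_cast h3
    linarith
  have huniv : {x | S x = (M : EReal)} = univ :=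
    IsClopen.eq_univ ⟨hclosed, hopen⟩ ⟨x₁, hM⟩
  have : x ∈ {x | S x = (M : EReal)} := by rw [huniv]; trivial
  exact this


/-- **The case of odd `d`.** -/
theorem odd_case [CompactSpace X] [ConnectedSpace X] [IsManifold 𝓘(ℂ, Cn n) 1 X]
    [MeasurableSpace X] [BorelSpace X] {μ : Measure X} [IsProbabilityMeasure μ]
    (hμ : SupBound n μ) {T : Currents n X} {d : ℕ} (hd : Odd d) {g : X ≃ₜ X}
    (hgμ : MeasurePreserving g μ μ)
    (hg : MDifferentiable 𝓘(ℂ, Cn n) 𝓘(ℂ, Cn n) g)
    (hg' : MDifferentiable 𝓘(ℂ, Cn n) 𝓘(ℂ, Cn n) g.symm)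
    (hpos : ∀ p, Psh n (T.V p) (fun x => (T.u 0 p x : EReal)))
    (hzero : ∀ p x, T.u (d + 1) p x = 0) {a : ℕ → C(X, ℝ)}
    (ha : ∀ j ≤ d, ∫ x, a j x ∂μ = 0)
    (hrel : ∀ j ≤ d, ∀ p q, Pluriharmonic n (T.V p ∩ g ⁻¹' T.V q)
      (fun x => T.u j q (g x) - T.u j p x - T.u (j + 1) p x - a j x)) :
    ∃ φ : C(X, ℝ), (∀ p, Pluriharmonic n (T.V p) (fun x => T.u d p x + φ x)) ∧
      ∀ x, φ x = a d x + φ (g x) := by
  obtain ⟨C₀, hC₀⟩ := Currents.growth (d := d) hμ hg hg' hpos
  have hzeroF : ∀ k, ∫ x, VF g d a k x ∂μ = 0 := by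
    intro k
    have h1 := J_VF g d a (Jint μ) (Jint_comp hgμ) k
    have h2 : ∑ j ∈ Finset.range (d + 1), bc (k : ℤ) (j + 1) * Jint μ (a j) = 0 := by
      refine Finset.sum_eq_zero fun j hj => ?_
      have : Jint μ (a j) = 0 := ha j (Nat.lt_succ_iff.1 (Finset.mem_range.1 hj))
      rw [this, mul_zero]
    rw [h2] at h1
    exact h1
  have hzeroB : ∀ k, ∫ x, VB g d a k x ∂μ = 0 := by
    intro k
    have h1 := J_VB g d a (Jint μ) (Jint_comp hgμ) k
    have h2 : ∑ j ∈ Finset.range (d + 1), bc (-(k : ℤ)) (j + 1) * Jint μ (a j) = 0 := by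
      refine Finset.sum_eq_zero fun j hj => ?_
      have : Jint μ (a j) = 0 := ha j (Nat.lt_succ_iff.1 (Finset.mem_range.1 hj))
      rw [this, mul_zero]
    rw [h2] at h1
    exact h1
  have hIsF := Is_VF hg hzero hrel
  have hIsB : ∀ k : ℕ, T.Is d g (-((k : ℤ) + 1)) (VB g d a (k + 1)) := by
    intro k
    have := Is_VB hg' hzero hrel (k + 1)
    push_cast at this
    exact this
  set B : ℝ := |C₀| * 2 ^ d with hBdef
  have hFB : ∀ k : ℕ, d ≤ k → ∀ x, VF g d a k x / k.choose d ≤ B := by
    intro k hk x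
    have h1 : (0 : ℝ) < k.choose d := by exact_mod_cast Nat.choose_pos hk
    rw [div_le_iff₀ h1]
    calc VF g d a k x ≤ C₀ * Mk d (k : ℤ) :=
          hC₀ k _ (VF g d a k).continuous (hIsF k) (hzeroF k) x
      _ ≤ |C₀| * Mk d (k : ℤ) :=
        mul_le_mul_of_nonneg_right (le_abs_self _) (zero_le_one.trans (one_le_Mk _ _))
      _ ≤ |C₀| * (2 ^ d * k.choose d) := mul_le_mul_of_nonneg_left (Mk_nat_le d k hk) (abs_nonneg _)
      _ = _ := by ring
  have hBB : ∀ k : ℕ, ∀ x, VB g d a (k + 1) x / (k + d).choose d ≤ B := by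
    intro k x
    have h1 : (0 : ℝ) < (k + d).choose d := by exact_mod_cast Nat.choose_pos (by omega)
    rw [div_le_iff₀ h1]
    calc VB g d a (k + 1) x ≤ C₀ * Mk d (-((k : ℤ) + 1)) :=
          hC₀ _ _ (VB g d a (k + 1)).continuous (hIsB k) (hzeroB (k + 1)) x
      _ ≤ |C₀| * Mk d (-((k : ℤ) + 1)) :=
        mul_le_mul_of_nonneg_right (le_abs_self _) (zero_le_one.trans (one_le_Mk _ _))
      _ ≤ |C₀| * (2 ^ d * (k + d).choose d) :=
        mul_le_mul_of_nonneg_left (Mk_neg_le d k) (abs_nonneg _)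
      _ = _ := by ring
  set φp : X → EReal := phi g d a with hφp
  set φm : X → EReal :=
    rlim atTop (fun (k : ℕ) x => ((VB g d a (k + 1) x / (k + d).choose d : ℝ) : EReal)) with hφm
  -- plurisubharmonicity
  have hp1 : ∀ p, Psh n (T.V p) (fun x => ((1 * T.u d p x : ℝ) : EReal) + φp x) := by
    intro p
    refine psh_part (K := fun k => (k : ℤ)) (F := fun k => VF g d a k)
      (c := fun k => (k.choose d : ℝ)) (s := 1) (B := B) hg hg' hpos (fun k => by positivity)
      hIsF ?_ (fun j hj => tendsto_bc_ratio j d hj) p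
    filter_upwards [eventually_ge_atTop d] with k hk
    exact hFB k hk
  have hm1 : ∀ p, Psh n (T.V p) (fun x => ((-1 * T.u d p x : ℝ) : EReal) + φm x) := by
    intro p
    refine psh_part (K := fun k => -((k : ℤ) + 1)) (F := fun k => VB g d a (k + 1))
      (c := fun k => ((k + d).choose d : ℝ)) (s := -1) (B := B) hg hg' hpos
      (fun k => by positivity) hIsB (Eventually.of_forall fun k => hBB k) (fun j hj => ?_) p
    have h1 := tendsto_bc_neg_ratio j d hj
    rwa [hd.neg_one_pow] at h1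
  -- the sum
  have hsum : Psh n univ (fun x => φp x + φm x) := by
    refine psh_of_local fun x _ => ⟨T.V x, T.isOpen_V x, T.mem_V x, ?_⟩
    refine (Pool.Agent.H15.SK.Psh.add (hp1 x) (hm1 x)).congr fun y _ => ?_
    have h1 : ((1 * T.u d x y : ℝ) : EReal) + φp y + (((-1 * T.u d x y : ℝ) : EReal) + φm y) =
        (((1 * T.u d x y : ℝ) : EReal) + ((-1 * T.u d x y : ℝ) : EReal)) + (φp y + φm y) := by
      ac_rfl
    rw [h1, ← EReal.coe_add]
    have h2 : 1 * T.u d x y + -1 * T.u d x y = 0 := by ring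
    rw [h2, EReal.coe_zero, zero_add]
  -- finite almost everywhere
  have hae1 : ∀ᵐ x ∂μ, φp x ≠ ⊥ := by
    refine Pool.Agent.H89.LZ.ae_ne_bot μ (ψ := fun k x => VF g d a k x / k.choose d)
      (C := max B 0) (C' := 0) (fun k => (VF g d a k).continuous.div_const _) ?_ ?_ ?_
    · intro k x
      rcases le_or_gt d k with hk | hk
      · exact (hFB k hk x).trans (le_max_left _ _)
      · have : (k.choose d : ℝ) = 0 := by rw [Nat.choose_eq_zero_of_lt hk]; simp
        simp only [this, div_zero]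
        exact le_max_right _ _
    · refine Eventually.of_forall fun k => ?_
      rw [integral_div, hzeroF k]
      simp
    · intro x
      have h1 : Tendsto (fun k : ℕ => ((k, x) : ℕ × X)) atTop (atTop ×ˢ 𝓝 x) :=
        tendsto_id.prodMk tendsto_const_nhds
      have h2 := limsup_le_limsup_of_le h1
        (u := fun q : ℕ × X => ((VF g d a q.1 q.2 / q.1.choose d : ℝ) : EReal))
      refine le_trans (le_of_eq ?_) h2
      rw [limsup, limsup, map_map]
      rfl
  have hae2 : ∀ᵐ x ∂μ, φm x ≠ ⊥ := by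
    refine Pool.Agent.H89.LZ.ae_ne_bot μ
      (ψ := fun k x => VB g d a (k + 1) x / (k + d).choose d)
      (C := B) (C' := 0) (fun k => (VB g d a (k + 1)).continuous.div_const _)
      (fun k x => hBB k x) ?_ ?_
    · refine Eventually.of_forall fun k => ?_
      rw [integral_div, hzeroB (k + 1)]
      simp
    · intro x
      have h1 : Tendsto (fun k : ℕ => ((k, x) : ℕ × X)) atTop (atTop ×ˢ 𝓝 x) :=
        tendsto_id.prodMk tendsto_const_nhds
      have h2 := limsup_le_limsup_of_le h1
        (u := fun q : ℕ × X => ((VB g d a (q.1 + 1) q.2 / (q.1 + d).choose d : ℝ) : EReal))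
      refine le_trans (le_of_eq ?_) h2
      rw [limsup, limsup, map_map]
      rfl
  obtain ⟨x₀, hx₀p, hx₀m⟩ := (hae1.and hae2).exists
  obtain ⟨M, hM⟩ := psh_const hsum (x₀ := x₀) (by
    intro h
    rcases EReal.add_eq_bot_iff.1 h with h | h
    · exact hx₀p h
    · exact hx₀m h)
  have hM' : ∀ x, φp x + φm x = (M : EReal) := hM
  -- finiteness
  have hpb : ∀ x, φp x ≠ ⊥ := fun x h => by
    have := hM' x
    rw [h, EReal.bot_add] at this
    exact absurd this.symm (EReal.coe_ne_bot M)
  have hmb : ∀ x, φm x ≠ ⊥ := fun x h => by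
    have := hM' x
    rw [h, EReal.add_bot] at this
    exact absurd this.symm (EReal.coe_ne_bot M)
  have hpt : ∀ x, φp x ≠ ⊤ := fun x h => by
    have := hM' x
    rw [h, EReal.top_add_of_ne_bot (hmb x)] at this
    exact absurd this.symm (EReal.coe_ne_top M)
  have hmt : ∀ x, φm x ≠ ⊤ := fun x h => by
    have := hM' x
    rw [h, EReal.add_top_of_ne_bot (hpb x)] at this
    exact absurd this.symm (EReal.coe_ne_top M)
  set f : X → ℝ := fun x => (φp x).toReal with hf
  have hfp : ∀ x, φp x = (f x : EReal) := fun x => (EReal.coe_toReal (hpt x) (hpb x)).symm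
  have hfm : ∀ x, φm x = ((M - f x : ℝ) : EReal) := by
    intro x
    obtain ⟨r, hr⟩ : ∃ r : ℝ, φm x = r := ⟨_, (EReal.coe_toReal (hmt x) (hmb x)).symm⟩
    have := hM' x
    rw [hfp x, hr, ← EReal.coe_add] at this
    have h2 : f x + r = M := by exact_mod_cast this
    rw [hr]
    congr 1
    linarith
  have hfc : Continuous f := by
    rw [continuous_iff_lower_upperSemicontinuous]
    constructor
    · intro x c hc
      have h1 : φm x < ((M - c : ℝ) : EReal) := by
        rw [hfm x]
        exact_mod_cast (by linarith : M - f x < M - c)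
      filter_upwards [rlim_usc _ _ x _ h1] with y hy
      have hy' : φm y < ((M - c : ℝ) : EReal) := hy
      rw [hfm y] at hy'
      have : M - f y < M - c := by exact_mod_cast hy'
      linarith
    · intro x c hc
      have h1 : φp x < (c : EReal) := by
        rw [hfp x]
        exact_mod_cast hc
      filter_upwards [rlim_usc _ _ x _ h1] with y hy
      have hy' : φp y < (c : EReal) := hy
      rw [hfp y] at hy'
      exact_mod_cast hy'
  refine ⟨⟨f, hfc⟩, fun p => ⟨(T.cont d p).add hfc.continuousOn, fun h hdisc => ?_⟩, fun x => ?_⟩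
  · have h1 : Psh n (T.V p) (fun x => ((T.u d p x + f x : ℝ) : EReal)) :=
      (hp1 p).congr fun x _ => by rw [hfp x, ← EReal.coe_add, one_mul]
    have h2 : Psh n (T.V p) (fun x => ((M - (T.u d p x + f x) : ℝ) : EReal)) :=
      (hm1 p).congr fun x _ => by
        rw [hfm x, ← EReal.coe_add]
        congr 1
        ring
    have hc : ContinuousOn (fun x => T.u d p x + f x) (T.V p) := (T.cont d p).add hfc.continuousOn
    have i1 : CircleIntegrable (fun z => T.u d p (h z) + f (h z)) 0 1 :=
      Pluriharmonic.integrable hc hdisc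
    have h3 := h1.le_average hc hdisc
    have h4 := h2.le_average (continuousOn_const.sub hc) hdisc
    rw [Real.circleAverage_fun_sub (continuousOn_const.circleIntegrable') i1,
      Real.circleAverage_const] at h4
    change T.u d p (h 0) + f (h 0) = Real.circleAverage (fun z => T.u d p (h z) + f (h z)) 0 1
    linarith
  · have h1 := phi_comp g d a x
    have h2 : (f x : EReal) = (a d x : EReal) + (f (g x) : EReal) := by
      rw [← hfp x, ← hfp (g x)]
      exact h1
    rw [← EReal.coe_add] at h2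
    exact_mod_cast h2

end Pool.Agent.H36.LZ
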