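import Pool.Agent.H36.LZ.Ball

/-!
# The area of the set where a subharmonic function on the unit disc is small
-/

set_option autoImplicit false

open Set Filter Topology Metric MeasureTheory
open scoped Manifold NNReal ENNReal

namespace Pool.Agent.H36.LZ

open Pool.Agent.H51.LZ H93.PR

/-- the mean value of `log |w - a|` on a circle which does not surround `a` -/
theorem average_log {z a : ℂ} {r : ℝ} (hr : 0 < r) (h : r < ‖z - a‖) :
    Real.circleAverage (fun w => Real.log ‖w - a‖) z r = Real.log ‖z - a‖ := by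
  have hr' : (r : ℂ) ≠ 0 := by exact_mod_cast hr.ne'
  have h1 : Real.circleAverage (fun w => Real.log ‖w - a‖) z r =
      Real.circleAverage (fun w => Real.log ‖z + r * w - a‖) 0 1 := by
    rw [Real.circleAverage_eq_circleAverage_zero_one]
    refine Real.circleAverage_congr_sphere fun w _ => ?_
    simp only [add_comm]
  have ha : 1 < ‖(a - z) / r‖ := by
    rw [norm_div, Complex.norm_real, Real.norm_eq_abs, abs_of_pos hr, one_lt_div hr, norm_sub_rev]
    exact h
  have h2 : Real.circleAverage (fun w => Real.log ‖z + r * w - a‖) 0 1 =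
      Real.circleAverage (fun w => Real.log r + Real.log ‖w - (a - z) / r‖) 0 1 := by
    refine Real.circleAverage_congr_sphere fun w hw => ?_
    have e1 : z + r * w - a = r * (w - (a - z) / r) := by
      field_simp
      ring
    have hw1 : ‖w‖ = 1 := by simpa using hw
    have e2 : w - (a - z) / r ≠ 0 := by
      intro h0
      rw [sub_eq_zero.1 h0] at hw1
      linarith
    rw [e1, norm_mul, Complex.norm_real, Real.norm_eq_abs, abs_of_pos hr,
      Real.log_mul hr.ne' (norm_ne_zero_iff.2 e2)]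
  have hci : CircleIntegrable (fun w => Real.log ‖w - (a - z) / r‖) 0 1 := by
    refine ContinuousOn.circleIntegrable' ?_
    refine ContinuousOn.log (by fun_prop) fun w hw => ?_
    have hw1 : ‖w‖ = 1 := by simpa using hw
    rw [norm_ne_zero_iff]
    intro h0
    rw [sub_eq_zero.1 h0] at hw1
    linarith
  rw [h1, h2, Real.circleAverage_fun_add (continuousOn_const.circleIntegrable') hci,
    Real.circleAverage_const, circleAverage_log_norm_sub_const₂ ha, norm_div, Complex.norm_real,
    Real.norm_eq_abs, abs_of_pos hr, Real.log_div (by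
      have : 0 < ‖z - a‖ := hr.trans h
      rw [norm_sub_rev]
      exact this.ne') hr.ne', norm_sub_rev]
  ring

/-- dyadic bound of the truncated logarithm -/
theorem log_dyadic {x η ρ : ℝ} (hη : 0 < η) (hρ : 0 < ρ) {J : ℕ} (hJ : ρ / 2 ^ J ≤ η) :
    -Real.log (max x η) ≤ -Real.log ρ +
      Real.log 2 * ∑ j ∈ Finset.range J, (if x < ρ / 2 ^ j then (1 : ℝ) else 0) := by
  classical
  set y : ℝ := max x η with hy
  have hy0 : 0 < y := lt_of_lt_of_le hη (le_max_right _ _)
  have hex : ∃ i : ℕ, ρ / 2 ^ i ≤ y := ⟨J, hJ.trans (le_max_right _ _)⟩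
  set i := Nat.find hex with hi
  have hi1 : ρ / 2 ^ i ≤ y := Nat.find_spec hex
  have hiJ : i ≤ J := Nat.find_min' hex (hJ.trans (le_max_right _ _))
  have hsum : (i : ℝ) ≤ ∑ j ∈ Finset.range J, (if x < ρ / 2 ^ j then (1 : ℝ) else 0) := by
    calc (i : ℝ) = ∑ j ∈ Finset.range i, (1 : ℝ) := by simp
      _ ≤ ∑ j ∈ Finset.range i, (if x < ρ / 2 ^ j then (1 : ℝ) else 0) := by
        refine Finset.sum_le_sum fun j hj => ?_
        have hlt : ¬ ρ / 2 ^ j ≤ y := Nat.find_min hex (Finset.mem_range.1 hj)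
        rw [if_pos (lt_of_le_of_lt (le_max_left x η) (not_le.1 hlt))]
      _ ≤ ∑ j ∈ Finset.range J, (if x < ρ / 2 ^ j then (1 : ℝ) else 0) := by
        refine Finset.sum_le_sum_of_subset_of_nonneg (Finset.range_mono hiJ) fun j _ _ => ?_
        split_ifs <;> norm_num
  have h2 : 0 ≤ Real.log 2 := Real.log_nonneg (by norm_num)
  have h3 : Real.log (ρ / 2 ^ i) ≤ Real.log y := Real.log_le_log (by positivity) hi1
  rw [Real.log_div hρ.ne' (by positivity), Real.log_pow] at h3
  nlinarith [mul_le_mul_of_nonneg_left hsum h2]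

/-- the truncated logarithmic potential of a compact set -/
noncomputable def gp (S : Set ℂ) (η : ℝ) (z : ℂ) : ℝ :=
  ∫ s in S, (Real.log (3 / 4) - Real.log (max ‖z - s‖ η))

theorem kern_cont {η : ℝ} (hη : 0 < η) :
    Continuous fun p : ℂ × ℂ => Real.log (3 / 4) - Real.log (max ‖p.1 - p.2‖ η) := by
  refine continuous_const.sub (Continuous.log (by fun_prop) fun p => ?_)
  exact (lt_of_lt_of_le hη (le_max_right _ _)).ne'

theorem gp_cont {S : Set ℂ} (hS : IsCompact S) {η : ℝ} (hη : 0 < η) : Continuous (gp S η) := by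
  have h := continuous_parametric_integral_of_continuous (μ := (volume : Measure ℂ))
    (f := fun z s : ℂ => Real.log (3 / 4) - Real.log (max ‖z - s‖ η)) (kern_cont hη) hS
  exact h

/-- the upper bound for the potential -/
theorem gp_le {S : Set ℂ} (hS : IsCompact S) {η : ℝ} (hη : 0 < η)
    (hpos : 0 < (volume S).toReal) (z : ℂ) :
    gp S η z ≤ (volume S).toReal * (1 / 2 * Real.log (1 / (volume S).toReal) + 3) := by
  classical
  set m := (volume S).toReal with hm
  have hSfin : volume S ≠ ⊤ := hS.measure_lt_top.ne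
  have hSm : MeasurableSet S := hS.measurableSet
  set ρ : ℝ := Real.sqrt m with hρ
  have hρ0 : 0 < ρ := Real.sqrt_pos.2 hpos
  obtain ⟨J, hJ⟩ : ∃ J : ℕ, ρ / 2 ^ J ≤ η := by
    obtain ⟨J, hJ⟩ := exists_nat_gt (ρ / η)
    refine ⟨J, ?_⟩
    rw [div_le_iff₀ (by positivity)]
    rw [div_lt_iff₀ hη] at hJ
    have h2 : (J : ℝ) ≤ 2 ^ J := by
      exact_mod_cast (Nat.lt_two_pow_self (n := J)).le
    nlinarith
  have hint1 : IntegrableOn (fun s => Real.log (3 / 4) - Real.log (max ‖z - s‖ η)) S := by
    refine ContinuousOn.integrableOn_compact hS ?_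
    exact ((kern_cont hη).comp (by fun_prop : Continuous fun s : ℂ => (z, s))).continuousOn
  have hind : ∀ j : ℕ, IntegrableOn (fun s : ℂ => if ‖z - s‖ < ρ / 2 ^ j then (1 : ℝ) else 0) S := by
    intro j
    have h1 : (fun s : ℂ => if ‖z - s‖ < ρ / 2 ^ j then (1 : ℝ) else 0) =
        (ball z (ρ / 2 ^ j)).indicator (fun _ => (1 : ℝ)) := by
      funext s
      simp only [indicator, mem_ball, dist_eq_norm, norm_sub_rev s z]
    rw [h1]
    exact (integrableOn_const (C := (1 : ℝ)) hSfin).indicator measurableSet_ball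
  have hint2 : IntegrableOn (fun s => -Real.log ρ + Real.log 2 *
      ∑ j ∈ Finset.range J, (if ‖z - s‖ < ρ / 2 ^ j then (1 : ℝ) else 0)) S := by
    refine (integrableOn_const hSfin).add ?_
    refine Integrable.const_mul ?_ _
    exact integrable_finsetSum _ fun j _ => hind j
  have h1 : gp S η z ≤ ∫ s in S, (-Real.log ρ + Real.log 2 *
      ∑ j ∈ Finset.range J, (if ‖z - s‖ < ρ / 2 ^ j then (1 : ℝ) else 0)) := by
    refine setIntegral_mono_on hint1 hint2 hSm fun s _ => ?_
    have h2 : Real.log (3 / 4) ≤ 0 := Real.log_nonpos (by norm_num) (by norm_num)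
    have h3 := log_dyadic (x := ‖z - s‖) hη hρ0 hJ
    linarith
  have hcard : ∀ j : ℕ, ∫ s in S, (if ‖z - s‖ < ρ / 2 ^ j then (1 : ℝ) else 0) ≤
      Real.pi * m * (1 / 4) ^ j := by
    intro j
    have h1 : (fun s : ℂ => if ‖z - s‖ < ρ / 2 ^ j then (1 : ℝ) else 0) =
        (ball z (ρ / 2 ^ j)).indicator (fun _ => (1 : ℝ)) := by
      funext s
      simp only [indicator, mem_ball, dist_eq_norm, norm_sub_rev s z]
    rw [h1, setIntegral_indicator measurableSet_ball, setIntegral_const, smul_eq_mul, mul_one]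
    have h2 : volume.real (S ∩ ball z (ρ / 2 ^ j)) ≤ volume.real (ball z (ρ / 2 ^ j)) :=
      measureReal_mono inter_subset_right measure_ball_lt_top.ne
    refine h2.trans (le_of_eq ?_)
    rw [measureReal_def, Complex.volume_ball, ENNReal.toReal_mul, ENNReal.toReal_pow,
      ENNReal.toReal_ofReal (by positivity), ENNReal.coe_toReal, NNReal.coe_real_pi, div_pow, hρ,
      Real.sq_sqrt hpos.le, ← pow_mul, mul_comm j 2, pow_mul]
    have h3 : ((2 : ℝ) ^ 2) ^ j * (1 / 4) ^ j = 1 := by
      rw [← mul_pow]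
      norm_num
    rw [div_mul_eq_mul_div, div_eq_iff (by positivity)]
    calc m * Real.pi = m * Real.pi * (((2 : ℝ) ^ 2) ^ j * (1 / 4) ^ j) := by rw [h3, mul_one]
      _ = Real.pi * m * (1 / 4) ^ j * (2 ^ 2) ^ j := by ring
  have h2 : ∫ s in S, (-Real.log ρ + Real.log 2 *
      ∑ j ∈ Finset.range J, (if ‖z - s‖ < ρ / 2 ^ j then (1 : ℝ) else 0)) =
      m * (-Real.log ρ) + Real.log 2 *
        ∑ j ∈ Finset.range J, ∫ s in S, (if ‖z - s‖ < ρ / 2 ^ j then (1 : ℝ) else 0) := by
    have hc : IntegrableOn (fun _ : ℂ => -Real.log ρ) S := integrableOn_const hSfin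
    rw [integral_add hc (Integrable.const_mul
      (integrable_finsetSum _ fun j _ => hind j) _), setIntegral_const, integral_const_mul,
      integral_finsetSum _ fun j _ => hind j]
    rfl
  have h3 : ∑ j ∈ Finset.range J, ∫ s in S, (if ‖z - s‖ < ρ / 2 ^ j then (1 : ℝ) else 0) ≤
      Real.pi * m * (4 / 3) := by
    calc ∑ j ∈ Finset.range J, ∫ s in S, (if ‖z - s‖ < ρ / 2 ^ j then (1 : ℝ) else 0)
        ≤ ∑ j ∈ Finset.range J, Real.pi * m * (1 / 4) ^ j := Finset.sum_le_sum fun j _ => hcard j
      _ = Real.pi * m * ∑ j ∈ Finset.range J, (1 / 4 : ℝ) ^ j := by rw [Finset.mul_sum]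
      _ ≤ Real.pi * m * (4 / 3) := by
        refine mul_le_mul_of_nonneg_left ?_ (by positivity)
        rw [geom_sum_eq (by norm_num)]
        have : 0 ≤ (1 / 4 : ℝ) ^ J := by positivity
        rw [div_le_iff_of_neg (by norm_num)]
        linarith
  have h4 : Real.log ρ = 1 / 2 * Real.log m := by
    rw [hρ, Real.log_sqrt hpos.le]
    ring
  have h5 : Real.log (1 / m) = -Real.log m := by rw [one_div, Real.log_inv]
  have h6 : Real.log 2 < 0.6931471808 := Real.log_two_lt_d9
  have h7 : Real.pi < 3.15 := Real.pi_lt_d2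
  have h8 : 0 < Real.log 2 := Real.log_pos (by norm_num)
  have h9 : Real.log 2 * (Real.pi * m * (4 / 3)) ≤ m * 3 := by
    have h10 : Real.log 2 * Real.pi ≤ 0.6931471808 * 3.15 :=
      mul_le_mul h6.le h7.le Real.pi_pos.le (by norm_num)
    nlinarith
  rw [h2] at h1
  rw [h5]
  have h11 := mul_le_mul_of_nonneg_left h3 h8.le
  rw [h4] at h1
  linarith


theorem gp_nonpos {S : Set ℂ} (hS : IsCompact S) (hS1 : S ⊆ closedBall 0 (1 / 4)) {η : ℝ}
    {z : ℂ} (hz : 1 ≤ ‖z‖) : gp S η z ≤ 0 := by
  refine setIntegral_nonpos hS.measurableSet fun s hs => ?_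
  have h1 : ‖s‖ ≤ 1 / 4 := by simpa using hS1 hs
  have h2 : 3 / 4 ≤ ‖z - s‖ := by
    have := norm_sub_norm_le z s
    linarith
  have h3 : Real.log (3 / 4) ≤ Real.log (max ‖z - s‖ η) :=
    Real.log_le_log (by norm_num) (h2.trans (le_max_left _ _))
  linarith

theorem le_gp_zero {S : Set ℂ} (hS : IsCompact S) (hS1 : S ⊆ closedBall 0 (1 / 4)) {η : ℝ}
    (hη : 0 < η) (hη1 : η ≤ 1 / 4) : (volume S).toReal ≤ gp S η 0 := by
  have hSfin : volume S ≠ ⊤ := hS.measure_lt_top.ne
  have hint1 : IntegrableOn (fun s => Real.log (3 / 4) - Real.log (max ‖(0 : ℂ) - s‖ η)) S := by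
    refine ContinuousOn.integrableOn_compact hS ?_
    exact ((kern_cont hη).comp (by fun_prop : Continuous fun s : ℂ => ((0 : ℂ), s))).continuousOn
  have h0 : (volume S).toReal = ∫ _s in S, (1 : ℝ) := by
    rw [setIntegral_const, smul_eq_mul, mul_one]
    rfl
  rw [h0]
  refine setIntegral_mono_on (integrableOn_const hSfin) hint1 hS.measurableSet fun s hs => ?_
  have h1 : ‖s‖ ≤ 1 / 4 := by simpa using hS1 hs
  rw [zero_sub, norm_neg]
  have h2 : Real.log (max ‖s‖ η) ≤ Real.log (1 / 4) :=
    Real.log_le_log (lt_of_lt_of_le hη (le_max_right _ _)) (max_le h1 hη1)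
  have h3 : Real.log (3 / 4) - Real.log (1 / 4) = Real.log 3 := by
    rw [← Real.log_div (by norm_num) (by norm_num)]
    norm_num
  have h4 : (1 : ℝ) ≤ Real.log 3 := by
    rw [Real.le_log_iff_exp_le (by norm_num)]
    have := Real.exp_one_lt_d9
    linarith
  linarith

theorem average_gp {S : Set ℂ} (hS : IsCompact S) {η : ℝ} (hη : 0 < η) {z : ℂ} {r : ℝ}
    (hr : 0 < r) (h : ∀ s ∈ S, r + η ≤ ‖z - s‖) :
    Real.circleAverage (gp S η) z r = gp S η z := by
  set B : Measure ℂ := volume.restrict S with hB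
  have : IsFiniteMeasure B := ⟨by rw [hB, Measure.restrict_apply_univ]; exact hS.measure_lt_top⟩
  have hcont : Continuous fun p : ℂ × ℂ =>
      Real.log (3 / 4) - Real.log (max ‖(z + r * p.1) - p.2‖ η) :=
    (kern_cont hη).comp (by fun_prop : Continuous fun p : ℂ × ℂ => (z + r * p.1, p.2))
  have hI : Integrable (fun p : ℂ × ℂ =>
      Real.log (3 / 4) - Real.log (max ‖(z + r * p.1) - p.2‖ η)) (σ.prod B) := by
    obtain ⟨C, hC⟩ := ((isCompact_sphere (0 : ℂ) 1).prod hS).exists_bound_of_continuousOn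
      hcont.continuousOn
    refine Integrable.of_bound hcont.aestronglyMeasurable C ?_
    have h1 : ∀ᵐ p ∂(σ.prod B), ‖p.1‖ = 1 := Measure.quasiMeasurePreserving_fst.ae ae_norm
    have h2 : ∀ᵐ p ∂(σ.prod B), p.2 ∈ S :=
      Measure.quasiMeasurePreserving_snd.ae (ae_restrict_mem hS.measurableSet)
    filter_upwards [h1, h2] with p hp1 hp2
    exact hC p ⟨by simpa using hp1, hp2⟩
  have h1 : Real.circleAverage (gp S η) z r =
      Real.circleAverage (fun w => gp S η (z + r * w)) 0 1 := by
    rw [Real.circleAverage_eq_circleAverage_zero_one]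
    refine Real.circleAverage_congr_sphere fun w _ => ?_
    simp only [add_comm]
  have h2 : Real.circleAverage (fun w => gp S η (z + r * w)) 0 1 =
      ∫ w, gp S η (z + r * w) ∂σ :=
    av_eq ((gp_cont hS hη).comp (by fun_prop)).aestronglyMeasurable
  rw [h1, h2]
  unfold gp
  rw [integral_integral_swap hI]
  refine setIntegral_congr_fun hS.measurableSet fun s hs => ?_
  have h3 := h s hs
  have h4 : ∫ w, (Real.log (3 / 4) - Real.log (max ‖(z + r * w) - s‖ η)) ∂σ =
      Real.circleAverage (fun w => Real.log (3 / 4) - Real.log (max ‖(z + r * w) - s‖ η)) 0 1 :=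
    (av_eq (hcont.comp (by fun_prop : Continuous fun w : ℂ => (w, s))).aestronglyMeasurable).symm
  have h5 : Real.circleAverage (fun w => Real.log (3 / 4) - Real.log (max ‖(z + r * w) - s‖ η)) 0 1 =
      Real.circleAverage (fun w => Real.log (3 / 4) - Real.log ‖w - s‖) z r := by
    rw [Real.circleAverage_eq_circleAverage_zero_one (c := z)]
    refine Real.circleAverage_congr_sphere fun w hw => ?_
    have hw1 : ‖w‖ = 1 := by simpa using hw
    have h6 : η ≤ ‖z + r * w - s‖ := by
      have e1 : z - s = (z + r * w - s) - r * w := by ring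
      have e2 : ‖z - s‖ ≤ ‖z + r * w - s‖ + r := by
        rw [e1]
        refine (norm_sub_le _ _).trans ?_
        rw [norm_mul, hw1, Complex.norm_real, Real.norm_eq_abs, abs_of_pos hr, mul_one]
      linarith
    simp only [max_eq_left h6]
    rw [add_comm z]
  rw [h4, h5]
  have hci : CircleIntegrable (fun w => Real.log ‖w - s‖) z r := by
    refine ContinuousOn.circleIntegrable hr.le ?_
    refine ContinuousOn.log (by fun_prop) fun w hw => ?_
    rw [norm_ne_zero_iff]
    intro h0
    rw [sub_eq_zero.1 h0, mem_sphere, dist_eq_norm, norm_sub_rev] at hw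
    linarith
  rw [Real.circleAverage_fun_sub (continuousOn_const.circleIntegrable') hci,
    Real.circleAverage_const, average_log hr (by linarith), max_eq_left (by linarith)]

/-- The hypotheses on a subharmonic function on the unit disc. -/
structure Sub1 (w : ℂ → EReal) : Prop where
  usc : UpperSemicontinuousOn w (closedBall 0 1)
  le : ∀ z ∈ closedBall (0 : ℂ) 1, w z ≤ 0
  sub : ∀ z : ℂ, ∀ r : ℝ, 0 < r → ‖z‖ + r ≤ 1 → ∀ b : ℂ → ℝ, ContinuousOn b (sphere z r) →
    (∀ s ∈ sphere z r, w s ≤ (b s : EReal)) → w z ≤ ((Real.circleAverage b z r : ℝ) : EReal)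

/-- the area of the set where a subharmonic function is small -/
theorem plane_tail {w : ℂ → EReal} (hw : Sub1 w) (h0 : ((-1 : ℝ) : EReal) ≤ w 0) {t : ℝ}
    (ht : 0 < t) {S : Set ℂ} (hS : IsCompact S) (hS1 : S ⊆ closedBall 0 (1 / 4))
    (hSt : ∀ z ∈ S, w z < ((-t : ℝ) : EReal)) :
    volume S ≤ ENNReal.ofReal (Real.exp (6 - 2 * t)) := by
  have hSfin : volume S ≠ ⊤ := hS.measure_lt_top.ne
  rcases eq_or_lt_of_le (ENNReal.toReal_nonneg (a := volume S)) with hm0 | hpos
  · have : volume S = 0 := by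
      rcases (ENNReal.toReal_eq_zero_iff _).1 hm0.symm with h | h
      · exact h
      · exact absurd h hSfin
    rw [this]
    exact zero_le
  set m := (volume S).toReal with hm
  -- a neighbourhood of `S` on which `w < - t`
  have hO : IsOpen {z : ℂ | z ∈ ball (0 : ℂ) 1 ∧ w z < ((-t : ℝ) : EReal)} := by
    rw [isOpen_iff_mem_nhds]
    intro z hz
    have h1 := hw.usc z (ball_subset_closedBall hz.1) _ hz.2
    rw [nhdsWithin_eq_nhds.2 (mem_of_superset (isOpen_ball.mem_nhds hz.1)
      ball_subset_closedBall)] at h1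
    filter_upwards [isOpen_ball.mem_nhds hz.1, h1] with y hy1 hy2
    exact ⟨hy1, hy2⟩
  have hSO : S ⊆ {z : ℂ | z ∈ ball (0 : ℂ) 1 ∧ w z < ((-t : ℝ) : EReal)} := fun z hz =>
    ⟨(closedBall_subset_ball (by norm_num)) (hS1 hz), hSt z hz⟩
  obtain ⟨d, hd, hdO⟩ := hS.exists_cthickening_subset_open hO hSO
  set η : ℝ := min (d / 4) (1 / 4) with hη
  have hη0 : 0 < η := lt_min (by linarith) (by norm_num)
  have hη1 : η ≤ 1 / 4 := min_le_right _ _
  have hηd : η ≤ d / 4 := min_le_left _ _
  set M : ℝ := m * (1 / 2 * Real.log (1 / m) + 3) with hM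
  have hgM : ∀ z, gp S η z ≤ M := gp_le hS hη0 hpos
  have hg0 : m ≤ gp S η 0 := le_gp_zero hS hS1 hη0 hη1
  have hM0 : 0 < M := lt_of_lt_of_le hpos (hg0.trans (hgM 0))
  set lam : ℝ := t / M with hlam
  have hlam0 : 0 < lam := div_pos ht hM0
  have hgc := gp_cont hS hη0
  set D : ℂ → EReal := fun z => w z + ((lam * gp S η z : ℝ) : EReal) with hD
  have huscD : UpperSemicontinuousOn D (closedBall 0 1) := by
    refine UpperSemicontinuousOn.add' hw.usc ?_ ?_
    · exact ContinuousOn.upperSemicontinuousOn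
        (continuous_coe_real_ereal.comp (continuous_const.mul hgc)).continuousOn
    · intro z _
      exact EReal.continuousAt_add (Or.inr (EReal.coe_ne_bot _)) (Or.inr (EReal.coe_ne_top _))
  have hwtop : ∀ z ∈ closedBall (0 : ℂ) 1, w z ≠ ⊤ := fun z hz h => by
    have := hw.le z hz
    rw [h] at this
    exact absurd this (by simp)
  have key := max_principle (W := {z : ℂ | z ∈ ball (0 : ℂ) 1 ∧ z ∉ cthickening (d / 2) S})
    (isCompact_closedBall (0 : ℂ) 1) huscD (c := 0) (fun z hz => ?_) (fun z hz hzW => ?_)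
    (fun z hzW hz => ?_) 0 (by simp)
  · -- conclusion
    have h1 : ((-1 : ℝ) : EReal) + ((lam * m : ℝ) : EReal) ≤ ((0 : ℝ) : EReal) := by
      refine le_trans (add_le_add h0 ?_) key
      exact_mod_cast mul_le_mul_of_nonneg_left hg0 hlam0.le
    rw [← EReal.coe_add, EReal.coe_le_coe_iff] at h1
    have h2 : t * m ≤ M := by
      have h3 : lam * m ≤ 1 := by linarith
      rw [hlam, div_mul_eq_mul_div, div_le_one hM0] at h3
      exact h3
    have h3 : t ≤ 1 / 2 * Real.log (1 / m) + 3 := by
      have h4 : m * t ≤ m * (1 / 2 * Real.log (1 / m) + 3) := by linarith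
      exact le_of_mul_le_mul_left h4 hpos
    have hlog : Real.log (1 / m) = -Real.log m := by rw [one_div, Real.log_inv]
    rw [hlog] at h3
    have h4 : Real.log m ≤ 6 - 2 * t := by linarith
    have h5 : m ≤ Real.exp (6 - 2 * t) := (Real.log_le_iff_le_exp hpos).1 h4
    rw [← ENNReal.ofReal_toReal hSfin]
    exact ENNReal.ofReal_le_ofReal h5
  · exact EReal.add_ne_top (hwtop z hz) (EReal.coe_ne_top _)
  · -- boundary
    by_cases hzs : z ∈ cthickening (d / 2) S
    · have hz2 := hdO (cthickening_mono (by linarith) S hzs)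
      have h1 : lam * gp S η z ≤ t := by
        calc lam * gp S η z ≤ lam * M := mul_le_mul_of_nonneg_left (hgM z) hlam0.le
          _ = t := by rw [hlam]; field_simp
      calc D z ≤ ((-t : ℝ) : EReal) + ((t : ℝ) : EReal) :=
            add_le_add hz2.2.le (by exact_mod_cast h1)
        _ = ((0 : ℝ) : EReal) := by rw [← EReal.coe_add]; norm_num
    · have hz1 : 1 ≤ ‖z‖ := by
        by_contra hn
        exact hzW ⟨by simpa using hn, hzs⟩
      have h1 : lam * gp S η z ≤ 0 :=
        mul_nonpos_of_nonneg_of_nonpos hlam0.le (gp_nonpos hS hS1 hz1)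
      calc D z ≤ (0 : EReal) + ((0 : ℝ) : EReal) := add_le_add (hw.le z hz) (by exact_mod_cast h1)
        _ = ((0 : ℝ) : EReal) := by simp
  · -- interior
    obtain ⟨hzb, hzs⟩ := hzW
    have hz1 : ‖z‖ < 1 := by simpa using hzb
    set r : ℝ := min (d / 4) ((1 - ‖z‖) / 2) with hr
    have hr0 : 0 < r := lt_min (by linarith) (by linarith)
    have hrd : r ≤ d / 4 := min_le_left _ _
    have hzr : ‖z‖ + r ≤ 1 := by
      have := min_le_right (d / 4) ((1 - ‖z‖) / 2)
      rw [← hr] at this
      linarith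
    have hdist : ∀ s ∈ S, r + η ≤ ‖z - s‖ := by
      intro s hs
      by_contra hn
      push Not at hn
      refine hzs (mem_cthickening_of_dist_le z s (d / 2) S hs ?_)
      rw [dist_eq_norm]
      linarith
    refine ⟨r, hr0, ?_, ?_⟩
    · intro y hy
      rw [mem_sphere, dist_eq_norm] at hy
      rw [mem_closedBall_zero_iff]
      have : ‖y‖ ≤ ‖y - z‖ + ‖z‖ := by
        have e : y = (y - z) + z := by ring
        calc ‖y‖ = ‖(y - z) + z‖ := by rw [← e]
          _ ≤ ‖y - z‖ + ‖z‖ := norm_add_le _ _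
      linarith
    · intro b hb hDb
      have hav := average_gp hS hη0 hr0 hdist
      have h3 := hw.sub z r hr0 hzr (fun y => b y - lam * gp S η y)
        (hb.sub (continuous_const.mul hgc).continuousOn) (fun y hy => ?_)
      · have h4 : Real.circleAverage (fun y => b y - lam * gp S η y) z r =
            Real.circleAverage b z r - lam * gp S η z := by
          have hci2 : CircleIntegrable (fun y => lam * gp S η y) z r :=
            ContinuousOn.circleIntegrable hr0.le (continuous_const.mul hgc).continuousOn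
          rw [Real.circleAverage_fun_sub (ContinuousOn.circleIntegrable hr0.le hb) hci2]
          have h5 := Real.circleAverage_fun_smul (𝕜 := ℝ) (a := lam) (f := gp S η) (c := z) (R := r)
          simp only [smul_eq_mul] at h5
          rw [h5, hav]
        rw [h4] at h3
        calc D z = w z + ((lam * gp S η z : ℝ) : EReal) := rfl
          _ ≤ ((Real.circleAverage b z r - lam * gp S η z : ℝ) : EReal) +
              ((lam * gp S η z : ℝ) : EReal) := add_le_add_left h3 _
          _ = ((Real.circleAverage b z r : ℝ) : EReal) := by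
            rw [← EReal.coe_add]
            congr 1
            ring
      · have h4 := hDb y hy
        have h5 : w y + ((lam * gp S η y : ℝ) : EReal) + ((-(lam * gp S η y) : ℝ) : EReal) ≤
            (b y : EReal) + ((-(lam * gp S η y) : ℝ) : EReal) := add_le_add_left h4 _
        rw [add_assoc, ← EReal.coe_add, add_neg_cancel, EReal.coe_zero, add_zero,
          ← EReal.coe_add] at h5
        exact h5

end Pool.Agent.H36.LZ
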