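import Pool.Agent.H36.LZ.Ball
import Pool.Agent.H15.SK.Mean

/-!
# The supremum of a quasi-plurisubharmonic function is at most its mean plus a constant:
the case of upper semicontinuous functions with values in `[-∞, ∞)`
-/

set_option autoImplicit false

open Set Filter Topology Metric MeasureTheory
open scoped Manifold NNReal ENNReal

namespace Pool.Agent.H36.LZ

open Pool.Agent.H51.LZ Pool.Agent.H15.SK

variable {n : ℕ}

theorem coe_max_toReal {t : EReal} (ht : t ≠ ⊤) (k : ℝ) :
    (((max t (k : EReal)).toReal : ℝ) : EReal) = max t (k : EReal) := by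
  refine EReal.coe_toReal ?_ ?_
  · rcases max_choice t (k : EReal) with h | h <;> rw [h]
    · exact ht
    · exact EReal.coe_ne_top _
  · exact ne_bot_of_le_ne_bot (EReal.coe_ne_bot k) (le_max_right _ _)

/-- truncation from below -/
theorem LP.trunc {Ω : Set (Cn n)} {f : Cn n → EReal} (hf : LP Ω f) (k : ℝ) :
    LP Ω (fun z => (((max (f z) (k : EReal)).toReal : ℝ) : EReal)) := by
  refine ⟨?_, fun z _ => EReal.coe_ne_top _, ?_⟩
  · intro z hz c hc
    change (((max (f z) (k : EReal)).toReal : ℝ) : EReal) < c at hc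
    rw [coe_max_toReal (hf.top z hz)] at hc
    filter_upwards [hf.usc z hz c (lt_of_le_of_lt (le_max_left _ _) hc), self_mem_nhdsWithin]
      with y hy hyΩ
    rw [coe_max_toReal (hf.top y hyΩ)]
    exact max_lt hy (lt_of_le_of_lt (le_max_right _ _) hc)
  · intro a v hd b hb hbd
    have h0 : a ∈ Ω := by simpa using hd 0 (by simp)
    rw [coe_max_toReal (hf.top a h0)]
    refine max_le (hf.sub a v hd b hb fun z hz => ?_) ?_
    · have h1 := hbd z hz
      rw [coe_max_toReal (hf.top _ (hd z (by rw [mem_sphere_zero_iff_norm.1 hz])))] at h1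
      exact (le_max_left _ _).trans h1
    · have h2 : k ≤ Real.circleAverage b 0 1 := by
        have h3 : Real.circleAverage (fun _ => k) 0 1 ≤ Real.circleAverage b 0 1 := by
          refine Real.circleAverage_mono (continuousOn_const.circleIntegrable') ?_ ?_
          · refine ContinuousOn.circleIntegrable' ?_
            rwa [abs_one]
          · intro z hz
            rw [abs_one] at hz
            have h1 := hbd z hz
            rw [coe_max_toReal (hf.top _ (hd z (by rw [mem_sphere_zero_iff_norm.1 hz])))] at h1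
            exact_mod_cast (le_max_right _ _).trans h1
        rwa [Real.circleAverage_const] at h3
      exact_mod_cast h2

/-- the sub-mean value inequality on balls -/
theorem LP.lintegral_le {Ω : Set (Cn n)} {f : Cn n → EReal} (hf : LP Ω f) {p : Cn n} {ρ : ℝ}
    (hρ : 0 < ρ) (hsub : closedBall p ρ ⊆ Ω) {A B : ℝ} (hA : (A : EReal) ≤ f p)
    (hB : ∀ z ∈ closedBall p ρ, f z ≤ (B : EReal)) :
    ∫⁻ w in ball p ρ, ((B : EReal) - f w).toENNReal ≤
      ENNReal.ofReal ((volume (ball (0 : Cn n) ρ)).toReal * (B - A)) := by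
  have hpin : p ∈ closedBall p ρ := mem_closedBall_self hρ.le
  have hAB : A ≤ B := by exact_mod_cast hA.trans (hB p hpin)
  set g : ℕ → Cn n → ℝ := fun N z => (max (f z) ((min B (-(N : ℝ)) : ℝ) : EReal)).toReal with hg
  have hgc : ∀ N : ℕ, ∀ z ∈ closedBall p ρ, ((g N z : ℝ) : EReal) =
      max (f z) ((min B (-(N : ℝ)) : ℝ) : EReal) := fun N z hz =>
    coe_max_toReal (hf.top z (hsub hz)) _
  have hgB : ∀ N : ℕ, ∀ z ∈ closedBall p ρ, g N z ≤ B := by
    intro N z hz
    have : ((g N z : ℝ) : EReal) ≤ (B : EReal) := by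
      rw [hgc N z hz]
      exact max_le (hB z hz) (by exact_mod_cast min_le_left _ _)
    exact_mod_cast this
  have hgm : ∀ N : ℕ, ∀ z ∈ closedBall p ρ, min B (-(N : ℝ)) ≤ g N z := by
    intro N z hz
    have : ((min B (-(N : ℝ)) : ℝ) : EReal) ≤ ((g N z : ℝ) : EReal) := by
      rw [hgc N z hz]
      exact le_max_right _ _
    exact_mod_cast this
  have hint : ∀ N : ℕ, IntegrableOn (g N) (ball p ρ) ∧
      (volume (ball (0 : Cn n) ρ)).toReal * g N p ≤ ∫ w in ball p ρ, g N w := fun N =>
    LP.submean (LP.trunc hf (min B (-(N : ℝ)))) hρ hsub (hgm N) (hgB N)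
  have hle : ∀ N : ℕ, ∫⁻ w in ball p ρ, ENNReal.ofReal (B - g N w) ≤
      ENNReal.ofReal ((volume (ball (0 : Cn n) ρ)).toReal * (B - A)) := by
    intro N
    have hic : IntegrableOn (fun _ : Cn n => B) (ball p ρ) :=
      integrableOn_const measure_ball_lt_top.ne
    have hc : ∫ _w in ball p ρ, B = (volume (ball (0 : Cn n) ρ)).toReal * B := by
      rw [setIntegral_const, smul_eq_mul, measureReal_def, Measure.addHaar_ball_center]
    have h0 : ENNReal.ofReal (∫ w in ball p ρ, (B - g N w)) =
        ∫⁻ w in ball p ρ, ENNReal.ofReal (B - g N w) := by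
      refine ofReal_integral_eq_lintegral_ofReal (hic.sub (hint N).1) ?_
      filter_upwards [ae_restrict_mem measurableSet_ball] with w hw
      exact sub_nonneg.2 (hgB N w (ball_subset_closedBall hw))
    rw [← h0]
    · refine ENNReal.ofReal_le_ofReal ?_
      have h1 : ∫ w in ball p ρ, (B - g N w) = (∫ _w in ball p ρ, B) - ∫ w in ball p ρ, g N w :=
        integral_sub hic (hint N).1
      rw [h1, hc]
      have h2 : A ≤ g N p := by
        have : (A : EReal) ≤ ((g N p : ℝ) : EReal) := by
          rw [hgc N p hpin]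
          exact hA.trans (le_max_left _ _)
        exact_mod_cast this
      have h3 := (hint N).2
      have h4 : 0 ≤ (volume (ball (0 : Cn n) ρ)).toReal := ENNReal.toReal_nonneg
      nlinarith
  have hmeas : ∀ N : ℕ, AEMeasurable (fun w => ENNReal.ofReal (B - g N w))
      (volume.restrict (ball p ρ)) := fun N =>
    (((integrableOn_const measure_ball_lt_top.ne (C := B) (μ := volume)
      (s := ball p ρ)).sub (hint N).1).aestronglyMeasurable.aemeasurable).ennreal_ofReal
  calc ∫⁻ w in ball p ρ, ((B : EReal) - f w).toENNReal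
      ≤ ∫⁻ w in ball p ρ, liminf (fun N => ENNReal.ofReal (B - g N w)) atTop := by
        refine setLIntegral_mono' measurableSet_ball fun w hw => ?_
        have hwc := ball_subset_closedBall hw
        induction h : f w using EReal.rec with
        | bot =>
          have h1 : Tendsto (fun N : ℕ => ENNReal.ofReal (B - g N w)) atTop (𝓝 ⊤) := by
            have h2 : ∀ᶠ N : ℕ in atTop, ENNReal.ofReal (B + N) = ENNReal.ofReal (B - g N w) := by
              filter_upwards [tendsto_natCast_atTop_atTop.eventually (eventually_ge_atTop (-B))]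
                with N hN
              have h3 := hgc N w hwc
              rw [h, max_eq_right bot_le, min_eq_right (by linarith)] at h3
              have h4 : g N w = -(N : ℝ) := by exact_mod_cast h3
              rw [h4]
              ring_nf
            refine Tendsto.congr' h2 (ENNReal.tendsto_ofReal_atTop.comp ?_)
            exact tendsto_atTop_add_const_left _ _ tendsto_natCast_atTop_atTop
          rw [h1.liminf_eq]
          exact le_top
        | top => exact absurd h (hf.top w (hsub hwc))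
        | coe r =>
          have h1 : Tendsto (fun N : ℕ => ENNReal.ofReal (B - g N w)) atTop
              (𝓝 (ENNReal.ofReal (B - r))) := by
            refine tendsto_const_nhds.congr' ?_
            filter_upwards [tendsto_natCast_atTop_atTop.eventually (eventually_ge_atTop (-r))]
              with N hN
            have h3 := hgc N w hwc
            have hrB : r ≤ B := by
              have := hB w hwc
              rw [h] at this
              exact_mod_cast this
            have h5 : min B (-(N : ℝ)) ≤ r := (min_le_right _ _).trans (by linarith)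
            rw [h, max_eq_left (by exact_mod_cast h5)] at h3
            have h4 : g N w = r := by exact_mod_cast h3
            rw [h4]
          rw [h1.liminf_eq, ← EReal.coe_sub, EReal.toENNReal_of_ne_top (EReal.coe_ne_top _),
            EReal.toReal_coe]
    _ ≤ liminf (fun N => ∫⁻ w in ball p ρ, ENNReal.ofReal (B - g N w)) atTop :=
        lintegral_liminf_le' hmeas
    _ ≤ liminf (fun _ : ℕ => ENNReal.ofReal ((volume (ball (0 : Cn n) ρ)).toReal * (B - A)))
          atTop := liminf_le_liminf (Eventually.of_forall hle)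
    _ = ENNReal.ofReal ((volume (ball (0 : Cn n) ρ)).toReal * (B - A)) := liminf_const _

variable {X : Type} [TopologicalSpace X] [ChartedSpace (Cn n) X]

/-- the admissible functions -/
def AdmE (n : ℕ) {X : Type} [TopologicalSpace X] [ChartedSpace (Cn n) X] (V : X → Set X)
    (F : X → EReal) : Prop :=
  UpperSemicontinuous F ∧ ∀ p, ∃ s : X → ℝ, (∀ x ∈ V p, |s x| ≤ 1) ∧
    Psh n (V p) (fun x => (s x : EReal) + F x)

theorem sub_le_of {M : ℝ} {t : EReal} {s : ℝ} (hs : s ≤ 1) :
    (M : EReal) - t ≤ ((M + 1 : ℝ) : EReal) - ((s : EReal) + t) := by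
  induction t using EReal.rec with
  | bot =>
    rw [EReal.add_bot, EReal.coe_sub_bot, EReal.coe_sub_bot]
  | top => simp
  | coe r =>
    rw [← EReal.coe_add, ← EReal.coe_sub, ← EReal.coe_sub]
    exact_mod_cast (by linarith : M - r ≤ M + 1 - (s + r))

/-- the local estimate -/
theorem local_estE [IsManifold 𝓘(ℂ, Cn n) 1 X] {V : X → Set X} (hV : ∀ p, IsOpen (V p))
    (hp : ∀ p, p ∈ V p) (p : X) {O : Set X} (hO : IsOpen O) (hpO : p ∈ O) :
    ∃ R : ℝ, 0 < R ∧ closedBall (chartAt (Cn n) p p) R ⊆
        (chartAt (Cn n) p).target ∩ (chartAt (Cn n) p).symm ⁻¹' (V p ∩ O) ∧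
      ∀ F, AdmE n V F → ∀ M : ℝ, (∀ y, F y ≤ (M : EReal)) → ∀ A : ℝ≥0,
        ∀ z ∈ (chartAt (Cn n) p).source, chartAt (Cn n) p z ∈ ball (chartAt (Cn n) p p) R →
        ((M : EReal) - F z).toENNReal ≤ A →
        ∫⁻ w in ball (chartAt (Cn n) p p) R,
          ((M : EReal) - F ((chartAt (Cn n) p).symm w)).toENNReal ≤
          ENNReal.ofReal ((volume (ball (0 : Cn n) (2 * R))).toReal * (A + 2)) := by
  set e := chartAt (Cn n) p with he
  have hps : p ∈ e.source := mem_chart_source (Cn n) p
  have hopen : IsOpen (e.target ∩ e.symm ⁻¹' (V p ∩ O)) :=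
    e.isOpen_inter_preimage_symm ((hV p).inter hO)
  have hmem : e p ∈ e.target ∩ e.symm ⁻¹' (V p ∩ O) := by
    refine ⟨e.map_source hps, ?_⟩
    rw [mem_preimage, e.left_inv hps]
    exact ⟨hp p, hpO⟩
  obtain ⟨ε, hε, hsub⟩ := Metric.isOpen_iff.1 hopen _ hmem
  obtain ⟨R, hR⟩ : ∃ R : ℝ, R = ε / 4 := ⟨_, rfl⟩
  have hR0 : 0 < R := by rw [hR]; linarith
  have h3 : closedBall (e p) (3 * R) ⊆ e.target ∩ e.symm ⁻¹' (V p ∩ O) :=
    (closedBall_subset_ball (by rw [hR]; linarith)).trans hsub
  refine ⟨R, hR0, (closedBall_subset_closedBall (by linarith)).trans h3, ?_⟩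
  intro F hF M hM A z hz hzR hzA
  obtain ⟨-, hFp⟩ := hF
  obtain ⟨s, hs1, hpsh⟩ := hFp p
  have hz2 : closedBall (e z) (2 * R) ⊆ closedBall (e p) (3 * R) := by
    intro w hw
    rw [mem_closedBall] at hw ⊢
    rw [mem_ball] at hzR
    calc dist w (e p) ≤ dist w (e z) + dist (e z) (e p) := dist_triangle _ _ _
      _ ≤ 3 * R := by linarith
  have hz3 := hz2.trans h3
  have hLP : LP (e.target ∩ e.symm ⁻¹' (V p)) (fun w => (s (e.symm w) : EReal) + F (e.symm w)) :=
    LP.of_psh hpsh (chart_mem_atlas (Cn n) p)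
  have hzV : z ∈ V p := by
    have := (hz3 (mem_closedBall_self (by linarith : (0:ℝ) ≤ 2 * R))).2.1
    rwa [e.left_inv hz] at this
  -- the value at z
  have hval : ((M - A - 1 : ℝ) : EReal) ≤ (s (e.symm (e z)) : EReal) + F (e.symm (e z)) := by
    rw [e.left_inv hz]
    have hs := (abs_le.1 (hs1 z hzV)).1
    induction h : F z using EReal.rec with
    | bot =>
      rw [h] at hzA
      simp at hzA
    | top =>
      have := hM z
      rw [h] at this
      exact absurd this (by simp)
    | coe r =>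
      rw [h, ← EReal.coe_sub, EReal.toENNReal_of_ne_top (EReal.coe_ne_top _), EReal.toReal_coe,
        ENNReal.ofReal_le_iff_le_toReal ENNReal.coe_ne_top, ENNReal.coe_toReal] at hzA
      rw [← EReal.coe_add]
      exact_mod_cast (by linarith : M - A - 1 ≤ s z + r)
  have h5 := LP.lintegral_le hLP (p := e z) (ρ := 2 * R) (by linarith)
    (fun w hw => ⟨(hz3 hw).1, (hz3 hw).2.1⟩) (A := M - A - 1) (B := M + 1) hval
    (fun w hw => ?_)
  · calc ∫⁻ w in ball (e p) R, ((M : EReal) - F (e.symm w)).toENNReal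
        ≤ ∫⁻ w in ball (e z) (2 * R), ((M : EReal) - F (e.symm w)).toENNReal := by
          refine lintegral_mono_set ?_
          intro w hw
          rw [mem_ball] at hw hzR ⊢
          rw [dist_comm] at hzR
          calc dist w (e z) ≤ dist w (e p) + dist (e p) (e z) := dist_triangle _ _ _
            _ < 2 * R := by linarith
      _ ≤ ∫⁻ w in ball (e z) (2 * R),
            (((M + 1 : ℝ) : EReal) - ((s (e.symm w) : EReal) + F (e.symm w))).toENNReal := by
          refine setLIntegral_mono' measurableSet_ball fun w hw => ?_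
          refine EReal.toENNReal_le_toENNReal (sub_le_of ?_)
          exact (abs_le.1 (hs1 _ (hz3 (ball_subset_closedBall hw)).2.1)).2
      _ ≤ _ := h5
      _ = ENNReal.ofReal ((volume (ball (0 : Cn n) (2 * R))).toReal * (A + 2)) := by
          ring_nf
  · have h1 := (abs_le.1 (hs1 _ (hz3 hw).2.1)).2
    have h2 := hM (e.symm w)
    calc (s (e.symm w) : EReal) + F (e.symm w) ≤ ((1 : ℝ) : EReal) + (M : EReal) :=
          add_le_add (by exact_mod_cast h1) h2
      _ = ((M + 1 : ℝ) : EReal) := by rw [← EReal.coe_add, add_comm]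

/-- from a small value in one ball to a small value in an overlapping ball -/
theorem overlapE {V : X → Set X} {p : X} {R : ℝ}
    (hest : ∀ F, AdmE n V F → ∀ M : ℝ, (∀ y, F y ≤ (M : EReal)) → ∀ A : ℝ≥0,
        ∀ z ∈ (chartAt (Cn n) p).source, chartAt (Cn n) p z ∈ ball (chartAt (Cn n) p p) R →
        ((M : EReal) - F z).toENNReal ≤ A →
        ∫⁻ w in ball (chartAt (Cn n) p p) R,
          ((M : EReal) - F ((chartAt (Cn n) p).symm w)).toENNReal ≤
          ENNReal.ofReal ((volume (ball (0 : Cn n) (2 * R))).toReal * (A + 2)))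
    {Q : Set X} (hQ : IsOpen Q) (hne : (PB n p R ∩ Q).Nonempty) (A : ℝ≥0) :
    ∃ A' : ℝ≥0, ∀ F, AdmE n V F → ∀ M : ℝ, (∀ y, F y ≤ (M : EReal)) →
      (∃ z ∈ PB n p R, ((M : EReal) - F z).toENNReal ≤ A) →
      ∃ z ∈ Q, ((M : EReal) - F z).toENNReal ≤ A' := by
  set e := chartAt (Cn n) p with he
  set S : Set (Cn n) := ball (e p) R ∩ (e.target ∩ e.symm ⁻¹' Q) with hS
  have hSo : IsOpen S := isOpen_ball.inter (e.isOpen_inter_preimage_symm hQ)
  have hSne : S.Nonempty := by
    obtain ⟨y, ⟨hy1, hy2⟩, hyQ⟩ := hne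
    refine ⟨e y, hy2, e.map_source hy1, ?_⟩
    rw [mem_preimage, e.left_inv hy1]
    exact hyQ
  have hSpos : 0 < volume S := hSo.measure_pos volume hSne
  have hSfin : volume S ≠ ⊤ := (lt_of_le_of_lt (measure_mono inter_subset_left)
    measure_ball_lt_top).ne
  set I : ℝ≥0∞ := ENNReal.ofReal ((volume (ball (0 : Cn n) (2 * R))).toReal * (A + 2)) with hI
  have hc : (I + 1) / volume S ≠ ⊤ :=
    ENNReal.div_ne_top (ENNReal.add_ne_top.2 ⟨ENNReal.ofReal_ne_top, ENNReal.one_ne_top⟩) hSpos.ne'
  refine ⟨((I + 1) / volume S).toNNReal, ?_⟩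
  intro F hF M hM hz
  obtain ⟨z, hzP, hzA⟩ := hz
  have h1 := hest F hF M hM A z hzP.1 hzP.2 hzA
  by_contra hcon
  push Not at hcon
  rw [ENNReal.coe_toNNReal hc] at hcon
  have h2 : (I + 1) / volume S * volume S ≤ I := by
    calc (I + 1) / volume S * volume S = ∫⁻ _w in S, (I + 1) / volume S := by
          rw [setLIntegral_const]
      _ ≤ ∫⁻ w in S, ((M : EReal) - F (e.symm w)).toENNReal :=
          setLIntegral_mono' hSo.measurableSet fun w hw => (hcon _ hw.2.2).le
      _ ≤ ∫⁻ w in ball (e p) R, ((M : EReal) - F (e.symm w)).toENNReal :=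
          lintegral_mono_set inter_subset_left
      _ ≤ I := h1
  rw [ENNReal.div_mul_cancel hSpos.ne' hSfin] at h2
  exact absurd h2 (not_le.2 (ENNReal.lt_add_right ENNReal.ofReal_ne_top one_ne_zero))

/-- the measure of a ball -/
theorem lintegral_PBE [MeasurableSpace X] [BorelSpace X] {μ : Measure X} {p : X} {R : ℝ}
    {O : Set X} (hO : IsOpen O) (hOs : O ⊆ (chartAt (Cn n) p).source) {C : ℝ≥0}
    (hC : (μ.restrict O).map (chartAt (Cn n) p) ≤ C • (volume : Measure (Cn n)))
    {V : X → Set X} (hsub : closedBall (chartAt (Cn n) p p) R ⊆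
        (chartAt (Cn n) p).target ∩ (chartAt (Cn n) p).symm ⁻¹' (V p ∩ O))
    {D : X → ℝ≥0∞} (hD : Measurable D) :
    ∫⁻ y in PB n p R, D y ∂μ ≤
      C * ∫⁻ w in ball (chartAt (Cn n) p p) R, D ((chartAt (Cn n) p).symm w) := by
  set e := chartAt (Cn n) p with he
  have hPO : PB n p R ⊆ O := by
    intro y hy
    have h1 := (hsub (ball_subset_closedBall hy.2)).2.2
    rwa [e.left_inv hy.1] at h1
  have heO : AEMeasurable e (μ.restrict O) :=
    (e.continuousOn.mono hOs).aemeasurable hO.measurableSet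
  have hgm : AEMeasurable ((ball (e p) R).indicator (fun w => D (e.symm w)))
      (volume : Measure (Cn n)) := by
    rw [aemeasurable_indicator_iff measurableSet_ball]
    refine hD.comp_aemeasurable (ContinuousOn.aemeasurable ?_ measurableSet_ball)
    exact e.continuousOn_symm.mono fun w hw => (hsub (ball_subset_closedBall hw)).1
  have hgm' : AEMeasurable ((ball (e p) R).indicator (fun w => D (e.symm w)))
      ((μ.restrict O).map e) :=
    hgm.mono_ac ((Measure.absolutelyContinuous_of_le hC).trans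
      (Measure.smul_absolutelyContinuous))
  calc ∫⁻ y in PB n p R, D y ∂μ
      = ∫⁻ y in O, (ball (e p) R).indicator (fun w => D (e.symm w)) (e y) ∂μ := by
        have h1 : ∀ y ∈ O, (ball (e p) R).indicator (fun w => D (e.symm w)) (e y) =
            (PB n p R).indicator D y := by
          intro y hy
          have hys := hOs hy
          by_cases h : e y ∈ ball (e p) R
          · rw [indicator_of_mem h, indicator_of_mem (show y ∈ PB n p R from ⟨hys, h⟩),
              e.left_inv hys]
          · rw [indicator_of_notMem h, indicator_of_notMem (fun h' => h h'.2)]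
        rw [setLIntegral_congr_fun hO.measurableSet h1,
          lintegral_indicator (isOpen_PB p R).measurableSet,
          Measure.restrict_restrict (isOpen_PB p R).measurableSet, inter_eq_left.2 hPO]
    _ = ∫⁻ w, (ball (e p) R).indicator (fun w => D (e.symm w)) w
          ∂((μ.restrict O).map e) := (lintegral_map' hgm' heO).symm
    _ ≤ ∫⁻ w, (ball (e p) R).indicator (fun w => D (e.symm w)) w
          ∂(C • (volume : Measure (Cn n))) := lintegral_mono' hC le_rfl
    _ = C * ∫⁻ w in ball (e p) R, D (e.symm w) := by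
        rw [lintegral_smul_measure, lintegral_indicator measurableSet_ball]
        rfl

/-- THE SUPREMUM IS AT MOST THE MEAN VALUE PLUS A CONSTANT: the mean value of a continuous
majorant. -/
theorem sup_le_meanE [CompactSpace X] [ConnectedSpace X] [IsManifold 𝓘(ℂ, Cn n) 1 X]
    [MeasurableSpace X] [BorelSpace X] {μ : Measure X} (hμ : GoodMeasure n μ) {V : X → Set X}
    (hV : ∀ p, IsOpen (V p)) (hp : ∀ p, p ∈ V p) :
    ∃ C : ℝ, ∀ F : X → EReal, AdmE n V F → ∀ f : X → ℝ, Continuous f →
      (∀ x, F x ≤ (f x : EReal)) → ∀ x, F x ≤ ((∫ y, f y ∂μ + C : ℝ) : EReal) := by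
  classical
  obtain ⟨hprob, hloc⟩ := hμ
  choose O hO hpO hOs K hK using hloc
  choose R hR hsub hest using fun p => local_estE (n := n) hV hp p (hO p) (hpO p)
  -- the chain
  have hrel : ∀ p q : X, ∀ A : ℝ≥0, ∃ A' : ℝ≥0, ∀ F, AdmE n V F → ∀ M : ℝ,
      (∀ y, F y ≤ (M : EReal)) → (∃ z ∈ PB n p (R p), ((M : EReal) - F z).toENNReal ≤ A) →
      ∃ z ∈ PB n q (R q), ((M : EReal) - F z).toENNReal ≤ A' := by
    refine PreconnectedSpace.induction₂' (fun p q : X => ∀ A : ℝ≥0, ∃ A' : ℝ≥0, ∀ F, AdmE n V F →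
      ∀ M : ℝ, (∀ y, F y ≤ (M : EReal)) →
      (∃ z ∈ PB n p (R p), ((M : EReal) - F z).toENNReal ≤ A) →
      ∃ z ∈ PB n q (R q), ((M : EReal) - F z).toENNReal ≤ A') ?_ ?_
    · intro p
      filter_upwards [(isOpen_PB (n := n) p (R p)).mem_nhds (mem_PB p (hR p))] with q hq
      refine ⟨fun A => overlapE (hest p) (isOpen_PB (n := n) q (R q))
        ⟨q, hq, mem_PB q (hR q)⟩ A, fun A => overlapE (hest q)
        (isOpen_PB (n := n) p (R p)) ⟨q, mem_PB q (hR q), hq⟩ A⟩
    · refine ⟨fun p q r h1 h2 A => ?_⟩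
      obtain ⟨A', hA'⟩ := h1 A
      obtain ⟨A'', hA''⟩ := h2 A'
      exact ⟨A'', fun F hF M hM hz => hA'' F hF M hM (hA' F hF M hM hz)⟩
  obtain ⟨t, ht⟩ := CompactSpace.elim_nhds_subcover (fun p => PB n p (R p))
    (fun p => (isOpen_PB (n := n) p (R p)).mem_nhds (mem_PB p (hR p)))
  choose A hA using fun p q => hrel p q 0
  set L : ℝ≥0 := ∑ p ∈ t, ∑ q ∈ t, A p q with hL
  set B : X → ℝ := fun q => (K q : ℝ) * ((volume (ball (0 : Cn n) (2 * R q))).toReal * (L + 2))
    with hB
  have hAL : ∀ p ∈ t, ∀ q ∈ t, A p q ≤ L := by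
    intro p hpt q hqt
    refine (Finset.single_le_sum (f := fun q => A p q) (fun q _ => zero_le) hqt).trans ?_
    exact Finset.single_le_sum (f := fun p => ∑ q ∈ t, A p q) (fun p _ => zero_le) hpt
  have hB0 : ∀ q, 0 ≤ B q := fun q => by
    have : 0 ≤ (volume (ball (0 : Cn n) (2 * R q))).toReal := ENNReal.toReal_nonneg
    simp only [hB]
    positivity
  refine ⟨∑ q ∈ t, B q, fun F hF f hf hFf x => ?_⟩
  obtain ⟨x₁, -, hx₁⟩ := hF.1.upperSemicontinuousOn univ |>.exists_isMaxOn univ_nonempty
    isCompact_univ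
  have hmax : ∀ y, F y ≤ F x₁ := fun y => hx₁ (mem_univ y)
  induction hval : F x₁ using EReal.rec with
  | bot =>
    have := hmax x
    rw [hval, le_bot_iff] at this
    rw [this]
    exact bot_le
  | top =>
    have := hFf x₁
    rw [hval] at this
    exact absurd this (by simp)
  | coe M =>
  have hM : ∀ y, F y ≤ (M : EReal) := fun y => hval ▸ hmax y
  have hcov : ∀ y : X, ∃ p ∈ t, y ∈ PB n p (R p) := by
    intro y
    have : y ∈ ⋃ p ∈ t, PB n p (R p) := by rw [ht]; trivial
    simpa using this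
  obtain ⟨p₁, hp₁, hx₁p⟩ := hcov x₁
  have hDm : Measurable fun y => ((M : EReal) - F y).toENNReal :=
    (measurable_const.sub hF.1.measurable).ereal_toENNReal
  -- the integral over each ball
  have hint : ∀ q ∈ t, ∫⁻ y in PB n q (R q), ((M : EReal) - F y).toENNReal ∂μ ≤
      ENNReal.ofReal (B q) := by
    intro q hq
    obtain ⟨z, hz, hzA⟩ := hA p₁ q F hF M hM ⟨x₁, hx₁p, by rw [hval]; simp⟩
    have h1 := hest q F hF M hM L z hz.1 hz.2 (hzA.trans (by exact_mod_cast hAL p₁ hp₁ q hq))
    have h2 := lintegral_PBE (D := fun y => ((M : EReal) - F y).toENNReal) (hO q) (hOs q) (hK q)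
      (hsub q) hDm
    refine h2.trans ?_
    have h3 : ENNReal.ofReal (B q) = (K q : ℝ≥0∞) *
        ENNReal.ofReal ((volume (ball (0 : Cn n) (2 * R q))).toReal * (L + 2)) := by
      simp only [hB]
      rw [ENNReal.ofReal_mul (NNReal.coe_nonneg _), ENNReal.ofReal_coe_nnreal]
    rw [h3]
    exact mul_le_mul_right h1 _
  have htot : ∫⁻ y, ENNReal.ofReal (M - f y) ∂μ ≤ ENNReal.ofReal (∑ q ∈ t, B q) := by
    calc ∫⁻ y, ENNReal.ofReal (M - f y) ∂μ
        ≤ ∫⁻ y, ((M : EReal) - F y).toENNReal ∂μ := by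
          refine lintegral_mono fun y => ?_
          have h1 : ((M - f y : ℝ) : EReal) ≤ (M : EReal) - F y := by
            rw [EReal.coe_sub]
            exact EReal.sub_le_sub le_rfl (hFf y)
          have h2 := EReal.toENNReal_le_toENNReal h1
          rwa [EReal.toENNReal_of_ne_top (EReal.coe_ne_top _), EReal.toReal_coe] at h2
      _ = ∫⁻ y in ⋃ p ∈ t, PB n p (R p), ((M : EReal) - F y).toENNReal ∂μ := by
          rw [ht]
          exact (setLIntegral_univ _).symm
      _ ≤ ∑ q ∈ t, ∫⁻ y in PB n q (R q), ((M : EReal) - F y).toENNReal ∂μ :=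
          lintegral_biUnion_le' _ _ _
      _ ≤ ∑ q ∈ t, ENNReal.ofReal (B q) := Finset.sum_le_sum hint
      _ = ENNReal.ofReal (∑ q ∈ t, B q) := (ENNReal.ofReal_sum_of_nonneg fun q _ => hB0 q).symm
  have hfi : Integrable f μ := hf.integrable_of_hasCompactSupport (HasCompactSupport.of_compactSpace f)
  have hgi : Integrable (fun y => max (M - f y) 0) μ :=
    Continuous.integrable_of_hasCompactSupport (by fun_prop) (HasCompactSupport.of_compactSpace _)
  have h5 : ∫ y, (M - f y) ∂μ = M - ∫ y, f y ∂μ := by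
    rw [integral_sub (integrable_const _) hfi]
    simp
  have h6 : ∫ y, (M - f y) ∂μ ≤ ∫ y, max (M - f y) 0 ∂μ :=
    integral_mono ((integrable_const _).sub hfi) hgi fun y => le_max_left _ _
  have h7 : ENNReal.ofReal (∫ y, max (M - f y) 0 ∂μ) ≤ ENNReal.ofReal (∑ q ∈ t, B q) := by
    rw [ofReal_integral_eq_lintegral_ofReal hgi (Eventually.of_forall fun y => le_max_right _ _)]
    refine le_trans (le_of_eq (lintegral_congr fun y => ?_)) htot
    rw [ENNReal.ofReal_max, ENNReal.ofReal_zero, max_eq_left (zero_le)]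
  have h8 := (ENNReal.ofReal_le_ofReal_iff (Finset.sum_nonneg fun q _ => hB0 q)).1 h7
  refine (hM x).trans ?_
  exact_mod_cast (by linarith : M ≤ ∫ y, f y ∂μ + ∑ q ∈ t, B q)

end Pool.Agent.H36.LZ
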